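import Pool.Agent.J4H22.WA.NE

/-!
# Closure properties of nondeterministic exponential time
-/

set_option autoImplicit false

namespace Pool.Agent.J4H22.WA

open Pool.Agent.NPC Pool.Agent.H620R2.Gauge Pool.Agent.H622R2.Exp Pool.Agent.H622R2

variable {E : Set (Polynomial ℕ)} {A : Oracle}

/-- what a certificate contains: a string, and certificates for the computed strings -/
abbrev Cert2 : Type := List Bool × List (List Bool)

/-- the certificate in the input of the verifier -/
def crt2 (z : List Bool) : Cert2 := (unbits Cert2 (unpair z).1).getD ([], [])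

theorem poly_crt2 : Poly crt2 := by
  unfold crt2
  exact Poly.optGetD (poly_unbits.comp (Poly.fst poly_unpair)) (NPC.Poly.const _)

/-- A nondeterministic machine guesses a string, tests it, and verifies that all strings computed
from it are in `S`. -/
theorem InNTime.guess (hE : Good E) (hE2 : Good2 E) {S : Set (List Bool)} (hS : InNTime E A S)
    {q' : Polynomial ℕ} (hq' : q' ∈ E) (c : ℕ) {Y : List Bool × List Bool → List (List Bool)}
    (hY : Poly Y) {Φ : List Bool × List Bool → Bool} (hΦ : Poly Φ)
    (hlen : ∀ v g : List Bool, ∀ y ∈ Y (v, g), y.length ≤ c * (v.length + 2)) :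
    InNTime E A {v | ∃ g : List Bool, g.length ≤ 2 ^ q'.eval v.length ∧ Φ (v, g) = true ∧
      ∀ y ∈ Y (v, g), y ∈ S} := by
  classical
  obtain ⟨V, hV, q, hq, hVS⟩ := hS
  obtain ⟨P, hP⟩ := hY.sz_le
  obtain ⟨q1, hq1, hq1'⟩ := hE2 q hq c
  obtain ⟨q2, hq2, hb⟩ := hE.comp _ (hE.add _ hq' _ hq1)
    (Polynomial.C 10 * Polynomial.X + Polynomial.C 10 +
      P.comp (Polynomial.C 8 * Polynomial.X + Polynomial.C 3) *
        (Polynomial.C 4 * Polynomial.X + Polynomial.C 2))
  -- the parts of the input
  have pv : Poly (fun z : List Bool => (unpair z).2) := Poly.snd poly_unpair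
  have pg : Poly (fun z : List Bool => (crt2 z).1) := Poly.fst poly_crt2
  have pY : Poly (fun z : List Bool => Y ((unpair z).2, (crt2 z).1)) := hY.comp (Poly.pair pv pg)
  have pΦ : Poly (fun z : List Bool => Φ ((unpair z).2, (crt2 z).1)) := hΦ.comp (Poly.pair pv pg)
  obtain ⟨T, hT⟩ := pY.sz_le
  have hT' : ∀ z : List Bool, (Y ((unpair z).2, (crt2 z).1)).length ≤
      (T.comp (Polynomial.C 4 * Polynomial.X + Polynomial.C 1)).eval z.length := by
    intro z
    rw [Polynomial.eval_comp]
    have e1 := length_lt_sz (Y ((unpair z).2, (crt2 z).1))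
    have e2 := hT z
    refine e1.le.trans (e2.trans (eval_mono _ ?_))
    have e3 := sz_listBool_le z
    simpa using e3
  have hW : Poly (fun p : (ℕ × List Bool) × List Bool =>
      pairBits ((crt2 p.1.2).2.getD p.1.1 [])
        ((Y ((unpair p.1.2).2, (crt2 p.1.2).1)).getD p.1.1 [])) := by
    have g1 : Poly (fun p : (ℕ × List Bool) × List Bool => p.1.1) := Poly.fst (Poly.fst Poly.id)
    have g2 : Poly (fun p : (ℕ × List Bool) × List Bool => p.1.2) := Poly.snd (Poly.fst Poly.id)
    exact poly_pairBits (Poly.getD (Poly.snd (poly_crt2.comp g2)) g1 (NPC.Poly.const _))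
      (Poly.getD (pY.comp g2) g1 (NPC.Poly.const _))
  have hH : Poly (fun p : List Bool × List Bool =>
      if (crt2 p.1).1.length ≤ 2 ^ q'.eval (unpair p.1).2.length ∧
        (Φ ((unpair p.1).2, (crt2 p.1).1) = true ∧
        ((List.range (Y ((unpair p.1).2, (crt2 p.1).1)).length).all fun i =>
          decide (((crt2 p.1).2.getD i []).length ≤
            2 ^ q.eval ((Y ((unpair p.1).2, (crt2 p.1).1)).getD i []).length) &&
          p.2.getD i false) = true)
      then [true] else ([] : List Bool)) := by
    have f1 : Poly (fun p : List Bool × List Bool => p.1) := Poly.fst Poly.id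
    have k1 : Poly (fun x : (List Bool × List Bool) × ℕ => x.1.1) := Poly.fst (Poly.fst Poly.id)
    have k2 : Poly (fun x : (List Bool × List Bool) × ℕ => x.1.2) := Poly.snd (Poly.fst Poly.id)
    have k3 : Poly (fun x : (List Bool × List Bool) × ℕ => x.2) := Poly.snd Poly.id
    refine Poly.ite (Poly.decide_and (Poly.decide_le (Poly.length (pg.comp f1))
      (A4.poly_two_pow (UPoly.eval (UPoly.length (pv.comp f1)) q')))
      (Poly.decide_and (Poly.decide_bool (pΦ.comp f1)) (Poly.decide_bool
        (Poly.all (p := fun (p : List Bool × List Bool) i =>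
          decide (((crt2 p.1).2.getD i []).length ≤
            2 ^ q.eval ((Y ((unpair p.1).2, (crt2 p.1).1)).getD i []).length) &&
          p.2.getD i false) (UPoly.range (UPoly.length (pY.comp f1))) ?_))))
      (NPC.Poly.const [true]) (NPC.Poly.const [])
    exact Poly.and (Poly.decide_le (Poly.length (Poly.getD (Poly.snd (poly_crt2.comp k1)) k3
      (NPC.Poly.const _))) (A4.poly_two_pow (UPoly.eval (UPoly.length
        (Poly.getD (pY.comp k1) k3 (NPC.Poly.const _))) q)))
      (Poly.getD k2 k3 (NPC.Poly.const false))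
  have hF := IsFP.votes hV (T.comp (Polynomial.C 4 * Polynomial.X + Polynomial.C 1))
    (Q := fun _ => []) (NPC.Poly.const []) hW hH
  refine ⟨_, hF, q2, hq2, fun v => ?_⟩
  constructor
  · rintro ⟨g, h1, h2, h3⟩
    have hex : ∀ y : List Bool, y ∈ S → ∃ u : List Bool, u.length ≤ 2 ^ q.eval y.length ∧
        V (pairBits u y) = [true] := fun y hy => (hVS y).1 hy
    choose! u hu1 hu2 using hex
    set w : List Bool := bits ((g, (Y (v, g)).map u) : Cert2) with hw
    have hcrt : crt2 (pairBits w v) = (g, (Y (v, g)).map u) := by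
      unfold crt2
      rw [unpair_pairBits, hw, unbits_bits]
      rfl
    refine ⟨w, ?_, ?_⟩
    · refine le_trans ?_ (hb v.length)
      rw [hw, bits_length, sz_pair]
      set Z : ℕ := 2 ^ (q' + q1).eval v.length with hZ
      have z1 : 2 ^ q'.eval v.length ≤ Z := by
        rw [hZ, Polynomial.eval_add]
        exact Nat.pow_le_pow_right (by norm_num) (by omega)
      have z2 : 2 ^ q.eval (c * (v.length + 2)) ≤ Z := by
        rw [hZ, Polynomial.eval_add]
        refine Nat.pow_le_pow_right (by norm_num) ?_
        have := hq1' v.length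
        omega
      have e1 := sz_listBool_le g
      have e2 := sz_le_length_mul ((Y (v, g)).map u) (4 * 2 ^ q.eval (c * (v.length + 2)) + 1) (by
        intro o ho
        rw [List.mem_map] at ho
        obtain ⟨y, hy, rfl⟩ := ho
        have e3 := sz_listBool_le (u y)
        have e4 := hu1 y (h3 y hy)
        have e5 : 2 ^ q.eval y.length ≤ 2 ^ q.eval (c * (v.length + 2)) :=
          Nat.pow_le_pow_right (by norm_num) (eval_mono q (hlen v g y hy))
        omega)
      rw [List.length_map] at e2
      have e6 : (Y (v, g)).length ≤ P.eval (8 * (v.length + Z) + 3) := by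
        have e7 := length_lt_sz (Y (v, g))
        have e8 := hP (v, g)
        refine e7.le.trans (e8.trans (eval_mono _ ?_))
        rw [sz_pair]
        have e9 := sz_listBool_le v
        omega
      have e10 : (Polynomial.C 10 * Polynomial.X + Polynomial.C 10 +
          P.comp (Polynomial.C 8 * Polynomial.X + Polynomial.C 3) *
            (Polynomial.C 4 * Polynomial.X + Polynomial.C 2) : Polynomial ℕ).eval
          (v.length + Z) = 10 * (v.length + Z) + 10 + P.eval (8 * (v.length + Z) + 3) *
            (4 * (v.length + Z) + 2) := by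
        simp [Polynomial.eval_comp]
      rw [e10]
      have e11 : (Y (v, g)).length * (4 * 2 ^ q.eval (c * (v.length + 2)) + 1 + 1) ≤
          P.eval (8 * (v.length + Z) + 3) * (4 * (v.length + Z) + 2) :=
        Nat.mul_le_mul e6 (by omega)
      omega
    · simp only [unpair_pairBits, hcrt]
      rw [if_pos]
      refine ⟨h1, h2, ?_⟩
      rw [List.all_eq_true]
      intro i hi
      rw [List.mem_range] at hi
      have hyi : (Y (v, g))[i] ∈ Y (v, g) := List.getElem_mem hi
      rw [List.getD_eq_getElem _ _ (by simpa using hi), List.getD_eq_getElem _ _ hi,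
        List.getElem_map, Bool.and_eq_true, decide_eq_true_iff]
      refine ⟨hu1 _ (h3 _ hyi), ?_⟩
      have hi2 : i < (T.comp (Polynomial.C 4 * Polynomial.X + Polynomial.C 1)).eval
          (pairBits w v).length := by
        have := hT' (pairBits w v)
        rw [unpair_pairBits, hcrt] at this
        exact hi.trans_le this
      rw [List.getD_eq_getElem _ _ (by simpa using hi2)]
      simp only [List.getElem_map, List.getElem_range, decide_eq_true_iff]
      rw [List.getD_eq_getElem _ _ (by simpa using hi), List.getD_eq_getElem _ _ hi,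
        List.getElem_map]
      exact hu2 _ (h3 _ hyi)
  · rintro ⟨w, -, hw⟩
    simp only [unpair_pairBits] at hw
    split_ifs at hw with h
    obtain ⟨h1, h2, h3⟩ := h
    refine ⟨(crt2 (pairBits w v)).1, h1, h2, fun y hy => ?_⟩
    obtain ⟨i, hi, hiy⟩ := List.getElem_of_mem hy
    rw [List.all_eq_true] at h3
    have h4 := h3 i (List.mem_range.2 hi)
    rw [List.getD_eq_getElem (Y (v, (crt2 (pairBits w v)).1)) _ hi, Bool.and_eq_true,
      decide_eq_true_iff, hiy] at h4
    rw [hVS]
    refine ⟨_, h4.1, ?_⟩
    have h5 := h4.2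
    by_cases hi2 : i < (T.comp (Polynomial.C 4 * Polynomial.X + Polynomial.C 1)).eval
        (pairBits w v).length
    · rw [List.getD_eq_getElem _ _ (by simpa using hi2)] at h5
      simp only [List.getElem_map, List.getElem_range, decide_eq_true_iff] at h5
      rw [List.getD_eq_getElem (Y (v, (crt2 (pairBits w v)).1)) _ hi, hiy] at h5
      exact h5
    · rw [List.getD_eq_default _ _ (by simpa using hi2)] at h5
      simp at h5

/-- a polynomial-time computation before -/
theorem InNTime.precomp (hE : Good E) (hE2 : Good2 E) {S : Set (List Bool)}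
    (hS : InNTime E A S) {g : List Bool → List Bool} (hg : Poly g) (c : ℕ)
    (hlen : ∀ v, (g v).length ≤ c * (v.length + 2)) : InNTime E A {v | g v ∈ S} := by
  have h := InNTime.guess hE hE2 hS (hE.lin 0) c (Y := fun p => [g p.1])
    (Poly.cons (hg.comp (Poly.fst Poly.id)) (NPC.Poly.const [])) (Φ := fun _ => true)
    (NPC.Poly.const true) (by
      intro v g' y hy
      rw [List.mem_singleton] at hy
      rw [hy]
      exact hlen v)
  refine (congrArg (InNTime E A) (Set.ext fun v => ?_)).mp h
  simp only [Set.mem_ofPred_eq, List.mem_singleton, forall_eq, true_and]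
  constructor
  · rintro ⟨_, _, h1⟩
    exact h1
  · intro h1
    exact ⟨[], by simp, h1⟩

/-- the joined language -/
def jn (L₁ L₂ : Set (List Bool)) : Set (List Bool) :=
  {z | (z.head? = some true ∧ z.tail ∈ L₁) ∨ (z.head? = some false ∧ z.tail ∈ L₂)}

theorem true_mem_jn {L₁ L₂ : Set (List Bool)} {v : List Bool} : true :: v ∈ jn L₁ L₂ ↔ v ∈ L₁ := by
  simp [jn]

theorem false_mem_jn {L₁ L₂ : Set (List Bool)} {v : List Bool} :
    false :: v ∈ jn L₁ L₂ ↔ v ∈ L₂ := by
  simp [jn]

theorem InNTime.join (hE : Good E) {S₁ S₂ : Set (List Bool)}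
    (h₁ : InNTime E A S₁) (h₂ : InNTime E A S₂) : InNTime E A (jn S₁ S₂) := by
  obtain ⟨V₁, hV₁, q₁, hq₁, hS₁⟩ := h₁
  obtain ⟨V₂, hV₂, q₂, hq₂, hS₂⟩ := h₂
  have pu : Poly (fun t : List Bool => (unpair t).1) := Poly.fst poly_unpair
  have pz : Poly (fun t : List Bool => (unpair t).2) := Poly.snd poly_unpair
  have psh : Poly (fun t : List Bool => pairBits (unpair t).1 (unpair t).2.tail) :=
    poly_pairBits pu (Poly.tail pz)
  have f1 : Poly (fun p : List Bool × List Bool × List Bool => p.1) := Poly.fst Poly.id
  have hψ : Poly (fun p : List Bool × List Bool × List Bool =>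
      if (unpair p.1).2.head? = some true ∧
        (unpair p.1).1.length ≤ 2 ^ q₁.eval (unpair p.1).2.tail.length then p.2.1
      else if (unpair p.1).2.head? = some false ∧
        (unpair p.1).1.length ≤ 2 ^ q₂.eval (unpair p.1).2.tail.length then p.2.2 else []) := by
    refine Poly.ite (Poly.decide_and (Poly.decide_eq (Poly.head? (pz.comp f1))
      (NPC.Poly.const (some true))) (Poly.decide_le (Poly.length (pu.comp f1))
        (A4.poly_two_pow (UPoly.eval (UPoly.length (Poly.tail (pz.comp f1))) q₁))))
      (Poly.fst (Poly.snd Poly.id)) ?_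
    exact Poly.ite (Poly.decide_and (Poly.decide_eq (Poly.head? (pz.comp f1))
      (NPC.Poly.const (some false))) (Poly.decide_le (Poly.length (pu.comp f1))
        (A4.poly_two_pow (UPoly.eval (UPoly.length (Poly.tail (pz.comp f1))) q₂))))
      (Poly.snd (Poly.snd Poly.id)) (NPC.Poly.const [])
  have hF := IsFP.seq (IsFP.comp hV₁ (IsFP.of_poly (A := A) psh))
    (IsFP.comp hV₂ (IsFP.of_poly (A := A) psh)) (φ := fun p => p.1) (Poly.fst Poly.id) hψ
  refine ⟨_, hF, q₁ + q₂, hE.add _ hq₁ _ hq₂, fun z => ?_⟩
  simp only [unpair_pairBits]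
  rcases z with _ | ⟨b, v⟩
  · simp [jn]
  · have hm1 : q₁.eval v.length ≤ (q₁ + q₂).eval (b :: v).length := by
      rw [Polynomial.eval_add]
      have := eval_mono q₁ (show v.length ≤ (b :: v).length by simp)
      omega
    have hm2 : q₂.eval v.length ≤ (q₁ + q₂).eval (b :: v).length := by
      rw [Polynomial.eval_add]
      have := eval_mono q₂ (show v.length ≤ (b :: v).length by simp)
      omega
    cases b with
    | true =>
      rw [true_mem_jn, hS₁]
      constructor
      · rintro ⟨u, h1, h2⟩
        refine ⟨u, h1.trans (Nat.pow_le_pow_right (by norm_num) hm1), ?_⟩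
        rw [if_pos ⟨by simp, by simpa using h1⟩]
        simpa using h2
      · rintro ⟨u, -, h2⟩
        split_ifs at h2 with h3 h4
        · exact ⟨u, by simpa using h3.2, by simpa using h2⟩
        · simp at h4
    | false =>
      rw [false_mem_jn, hS₂]
      constructor
      · rintro ⟨u, h1, h2⟩
        refine ⟨u, h1.trans (Nat.pow_le_pow_right (by norm_num) hm2), ?_⟩
        rw [if_neg (by simp), if_pos ⟨by simp, by simpa using h1⟩]
        simpa using h2
      · rintro ⟨u, -, h2⟩
        split_ifs at h2 with h3 h4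
        · simp at h3
        · exact ⟨u, by simpa using h4.2, by simpa using h2⟩

/-- the strings such that more than half of the strings of the same length are in `S` -/
def maj (S : Set (List Bool)) : Set (List Bool) :=
  {u | 2 ^ u.length < 2 * Set.ncard {j : ℕ | j < 2 ^ u.length ∧ bs u.length j ∈ S}}

/-- the chosen strings of length `m` -/
def sel (m : ℕ) (F : List Bool) : List (List Bool) :=
  ((List.range F.length).filter fun j => F.getD j false).map (bs m)

theorem poly_sel {α : Type} [TEnc α] {m : α → ℕ} {F : α → List Bool} (hm : UPoly m)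
    (hF : Poly F) : Poly (fun a => sel (m a) (F a)) := by
  unfold sel
  refine NPC.Poly.map (F := fun a j => bs (m a) j) (Poly.filter
    (p := fun a j => (F a).getD j false) (UPoly.range (UPoly.length hF)) ?_) ?_
  · exact Poly.getD (hF.comp (Poly.fst Poly.id)) (Poly.snd Poly.id) (NPC.Poly.const false)
  · exact poly_bs (hm.comp (Poly.fst Poly.id)) (Poly.snd Poly.id)

theorem length_of_mem_sel {m : ℕ} {F y : List Bool} (h : y ∈ sel m F) : y.length = m := by
  unfold sel at h
  rw [List.mem_map] at h
  obtain ⟨j, -, rfl⟩ := h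
  exact length_bs m j

/-- if all chosen strings are in `S`, then the number of the chosen ones is a lower bound -/
theorem length_sel_le {m : ℕ} {F : List Bool} (hF : F.length = 2 ^ m) {S : Set (List Bool)}
    (h : ∀ y ∈ sel m F, y ∈ S) :
    (sel m F).length ≤ Set.ncard {j : ℕ | j < 2 ^ m ∧ bs m j ∈ S} := by
  unfold sel
  rw [List.length_map, length_filter_range, hF, ← Set.ncard_coe_finset]
  apply Set.ncard_le_ncard
  · intro j hj
    rw [Finset.mem_coe, Finset.mem_filter, Finset.mem_range] at hj
    refine ⟨hj.1, h _ ?_⟩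
    unfold sel
    rw [List.mem_map]
    exact ⟨j, List.mem_filter.2 ⟨List.mem_range.2 (by rw [hF]; exact hj.1), hj.2⟩, rfl⟩
  · exact (Set.finite_lt_nat (2 ^ m)).subset fun j hj => hj.1

open Classical in
/-- choose all members of `S` -/
noncomputable def chs (m : ℕ) (S : Set (List Bool)) : List Bool :=
  (List.range (2 ^ m)).map fun j => decide (bs m j ∈ S)

theorem length_chs (m : ℕ) (S : Set (List Bool)) : (chs m S).length = 2 ^ m := by simp [chs]

theorem getD_chs {m j : ℕ} (S : Set (List Bool)) (hj : j < 2 ^ m) :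
    (chs m S).getD j false = true ↔ bs m j ∈ S := by
  classical
  unfold chs
  rw [List.getD_eq_getElem _ _ (by simpa using hj)]
  simp

theorem mem_sel_chs {m : ℕ} {S : Set (List Bool)} {y : List Bool} :
    y ∈ sel m (chs m S) ↔ ∃ j < 2 ^ m, bs m j ∈ S ∧ bs m j = y := by
  unfold sel
  rw [List.mem_map, length_chs]
  constructor
  · rintro ⟨j, hj, rfl⟩
    rw [List.mem_filter, List.mem_range] at hj
    exact ⟨j, hj.1, (getD_chs S hj.1).1 hj.2, rfl⟩
  · rintro ⟨j, hj, hjS, rfl⟩
    exact ⟨j, List.mem_filter.2 ⟨List.mem_range.2 hj, (getD_chs S hj).2 hjS⟩, rfl⟩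

theorem length_sel_chs (m : ℕ) (S : Set (List Bool)) :
    (sel m (chs m S)).length = Set.ncard {j : ℕ | j < 2 ^ m ∧ bs m j ∈ S} := by
  unfold sel
  rw [List.length_map, length_filter_range, length_chs, ← Set.ncard_coe_finset]
  congr 1
  ext j
  rw [Finset.mem_coe, Finset.mem_filter, Finset.mem_range]
  constructor
  · rintro ⟨h1, h2⟩
    exact ⟨h1, (getD_chs S h1).1 h2⟩
  · rintro ⟨h1, h2⟩
    exact ⟨h1, (getD_chs S h1).2 h2⟩

theorem InNTime.maj (hE : Good E) (hE2 : Good2 E) {S : Set (List Bool)}
    (hS : InNTime E A S) : InNTime E A (maj S) := by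
  have p1 : Poly (fun p : List Bool × List Bool => p.1) := Poly.fst Poly.id
  have p2 : Poly (fun p : List Bool × List Bool => p.2) := Poly.snd Poly.id
  have pY : Poly (fun p : List Bool × List Bool => sel p.1.length p.2) :=
    poly_sel (UPoly.length p1) p2
  have h := InNTime.guess hE hE2 hS (hE.lin 1) 1 (Y := fun p => sel p.1.length p.2) pY
    (Φ := fun p => decide (p.2.length = 2 ^ p.1.length) &&
      decide (2 ^ p.1.length < 2 * (sel p.1.length p.2).length))
    (Poly.and (Poly.decide_eq (Poly.length p2) (A4.poly_two_pow (UPoly.length p1)))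
      (Poly.decide_lt (A4.poly_two_pow (UPoly.length p1))
        (Poly.mul (NPC.Poly.const 2) (Poly.length pY)))) (by
      intro v g y hy
      rw [length_of_mem_sel hy]
      show v.length ≤ 1 * (v.length + 2)
      omega)
  refine (congrArg (InNTime E A) (Set.ext fun u => ?_)).mp h
  simp only [Set.mem_ofPred_eq, Bool.and_eq_true, decide_eq_true_iff, WA.maj]
  constructor
  · rintro ⟨F, -, ⟨h1, h2⟩, h3⟩
    have h4 := length_sel_le h1 h3
    omega
  · intro h1
    refine ⟨chs u.length S, ?_, ⟨length_chs _ _, ?_⟩, ?_⟩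
    · rw [length_chs]
      apply Nat.pow_le_pow_right (by norm_num)
      simp
    · rw [length_sel_chs]
      exact h1
    · intro y hy
      obtain ⟨j, hj, hjS, rfl⟩ := mem_sel_chs.1 hy
      exact hjS

end Pool.Agent.J4H22.WA
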