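import Pool.Agent.J4H22.WA.Space
import Pool.Agent.J4H22.WA.Guess

/-!
# Closure properties of exponential space
-/

set_option autoImplicit false

namespace Pool.Agent.J4H22.WA

open Pool.Agent.NPC Pool.Agent.H620R2.Gauge Pool.Agent.H622R2.Exp Pool.Agent.H622R2

variable {E : Set (Polynomial ℕ)} {A : Oracle}

/-- polynomial-time computations before and after -/
theorem InSpace.twist (hE2 : Good2 E) {L : Set (List Bool)} (hL : InSpace E A L)
    {g : List Bool → List Bool} {r f : List Bool → Bool} (hg : Poly g) (hr : Poly r)
    (hf : Poly f) (c : ℕ) (hlen : ∀ v, (g v).length ≤ c * (v.length + 2)) :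
    InSpace E A {v | r v = true ∧ (g v ∈ L ↔ f v = true)} := by
  obtain ⟨M, q, hq, hM⟩ := hL
  obtain ⟨q1, hq1, hq1'⟩ := hE2 q hq c
  have hN : Poly (fun z : List Bool => M.next (pairBits (g (unpair z).1) (unpair z).2)) :=
    (poly_of_polyTime M.next_poly).comp (poly_pairBits (hg.comp (Poly.fst poly_unpair))
      (Poly.snd poly_unpair))
  let M' : SAlg := ⟨_, polyTime_of_poly_list (poly_tAct M hg hr hf), _, polyTime_of_poly_list hN⟩
  have hact : ∀ v s, M'.act (pairBits v s) = if r v = true then
      (if (M.act (pairBits (g v) s)).head? = some true then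
        [true, !(decide ((M.act (pairBits (g v) s)).tail = [true]) ^^ f v)]
        else M.act (pairBits (g v) s)) else [true, false] := by
    intro v s
    show tAct M g r f (pairBits v s) = _
    unfold tAct
    rw [unpair_pairBits]
  have hnext : ∀ v s, M'.next (pairBits v s) = M.next (pairBits (g v) s) := by
    intro v s
    show M.next (pairBits (g (unpair (pairBits v s)).1) (unpair (pairBits v s)).2) = _
    rw [unpair_pairBits]
  have hr1 : ∀ v s, M'.Reach A v s → s = [] ∨ (r v = true ∧ M.Reach A (g v) s) := by
    intro v s h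
    induction h with
    | start => exact Or.inl rfl
    | @step s u hs ha ih =>
      right
      rw [hact] at ha
      split_ifs at ha with ha1 ha2
      · simp at ha
      · rw [hnext]
        refine ⟨ha1, SAlg.Reach.step ?_ ha⟩
        rcases ih with rfl | ih
        · exact SAlg.Reach.start
        · exact ih.2
      · simp at ha
  have hr2 : ∀ v s, r v = true → M.Reach A (g v) s → M'.Reach A v s := by
    intro v s hv h
    induction h with
    | start => exact SAlg.Reach.start
    | @step s u hs ha ih =>
      rw [← hnext]
      refine SAlg.Reach.step ih (q := u) ?_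
      rw [hact, if_pos hv, if_neg, ha]
      rw [ha]
      simp
  refine ⟨M', q1, hq1, fun v => ⟨?_, ?_⟩⟩
  · intro s hs
    rcases hr1 v s hs with rfl | ⟨h3, h4⟩
    · simp
    · refine ((hM (g v)).1 s h4).trans (Nat.pow_le_pow_right (by norm_num) ?_)
      exact (eval_mono q (hlen v)).trans (hq1' _)
  · cases hv : r v with
    | false =>
      refine ⟨[], [false], SAlg.Reach.start, ?_, ?_⟩
      · rw [hact, hv]
        simp
      · simp only [Set.mem_ofPred_eq, hv]
        simp
    | true =>
      obtain ⟨s, z, h3, h4, h5⟩ := (hM (g v)).2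
      refine ⟨s, [!(decide (z = [true]) ^^ f v)], hr2 v s hv h3, ?_, ?_⟩
      · rw [hact, if_pos hv, h4]
        simp
      · simp only [Set.mem_ofPred_eq, hv, true_and]
        rw [h5]
        by_cases hz : z = [true] <;> cases hf' : f v <;> simp [hz]

theorem InSpace.compl (hE2 : Good2 E) {L : Set (List Bool)} (hL : InSpace E A L) :
    InSpace E A Lᶜ := by
  have h := InSpace.twist hE2 hL (g := fun v => v) (r := fun _ => true) (f := fun _ => false)
    Poly.id (NPC.Poly.const true) (NPC.Poly.const false) 1 (fun v => by omega)
  refine (congrArg (InSpace E A) (Set.ext fun v => ?_)).mp h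
  simp

/-- restriction to a polynomial-time property, and a change of variable -/
theorem InSpace.precomp (hE2 : Good2 E) {L : Set (List Bool)} (hL : InSpace E A L)
    {g : List Bool → List Bool} {r : List Bool → Bool} (hg : Poly g) (hr : Poly r)
    (c : ℕ) (hlen : ∀ v, (g v).length ≤ c * (v.length + 2)) :
    InSpace E A {v | r v = true ∧ g v ∈ L} := by
  have h := InSpace.twist hE2 hL (f := fun _ => true) hg hr (NPC.Poly.const true) c hlen
  refine (congrArg (InSpace E A) (Set.ext fun v => ?_)).mp h
  simp

/-- the next action of the joined algorithm -/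
def jAct (F₁ F₂ : List Bool → List Bool) (z : List Bool) : List Bool :=
  if (unpair z).1.head? = some true then F₁ (pairBits (unpair z).1.tail (unpair z).2)
  else if (unpair z).1.head? = some false then F₂ (pairBits (unpair z).1.tail (unpair z).2)
  else [true, false]

theorem poly_jAct {F₁ F₂ : List Bool → List Bool} (h₁ : Poly F₁) (h₂ : Poly F₂) :
    Poly (jAct F₁ F₂) := by
  have p1 : Poly (fun z : List Bool => (unpair z).1) := Poly.fst poly_unpair
  have p2 : Poly (fun z : List Bool => (unpair z).2) := Poly.snd poly_unpair
  have p3 : Poly (fun z : List Bool => pairBits (unpair z).1.tail (unpair z).2) :=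
    poly_pairBits (Poly.tail p1) p2
  unfold jAct
  exact Poly.ite (Poly.decide_eq (Poly.head? p1) (NPC.Poly.const (some true))) (h₁.comp p3)
    (Poly.ite (Poly.decide_eq (Poly.head? p1) (NPC.Poly.const (some false))) (h₂.comp p3)
      (NPC.Poly.const [true, false]))

theorem InSpace.join (hE : Good E) {L₁ L₂ : Set (List Bool)} (h₁ : InSpace E A L₁)
    (h₂ : InSpace E A L₂) : InSpace E A (jn L₁ L₂) := by
  obtain ⟨M₁, q₁, hq₁, hM₁⟩ := h₁
  obtain ⟨M₂, q₂, hq₂, hM₂⟩ := h₂
  let M : SAlg := ⟨_, polyTime_of_poly_list (poly_jAct (poly_of_polyTime M₁.act_poly)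
    (poly_of_polyTime M₂.act_poly)), _, polyTime_of_poly_list (poly_jAct
    (poly_of_polyTime M₁.next_poly) (poly_of_polyTime M₂.next_poly))⟩
  have ha1 : ∀ v s, M.act (pairBits (true :: v) s) = M₁.act (pairBits v s) := by
    intro v s
    show jAct _ _ _ = _
    unfold jAct
    rw [unpair_pairBits]
    simp
  have ha2 : ∀ v s, M.act (pairBits (false :: v) s) = M₂.act (pairBits v s) := by
    intro v s
    show jAct _ _ _ = _
    unfold jAct
    rw [unpair_pairBits]
    simp
  have ha0 : ∀ s, M.act (pairBits [] s) = [true, false] := by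
    intro s
    show jAct _ _ _ = _
    unfold jAct
    rw [unpair_pairBits]
    simp
  have hn1 : ∀ v s, M.next (pairBits (true :: v) s) = M₁.next (pairBits v s) := by
    intro v s
    show jAct _ _ _ = _
    unfold jAct
    rw [unpair_pairBits]
    simp
  have hn2 : ∀ v s, M.next (pairBits (false :: v) s) = M₂.next (pairBits v s) := by
    intro v s
    show jAct _ _ _ = _
    unfold jAct
    rw [unpair_pairBits]
    simp
  have hr1 : ∀ v s, M.Reach A (true :: v) s ↔ M₁.Reach A v s := by
    intro v s
    constructor
    · intro h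
      induction h with
      | start => exact SAlg.Reach.start
      | step _ h1 ih =>
        rw [hn1]
        rw [ha1] at h1
        exact SAlg.Reach.step ih h1
    · intro h
      induction h with
      | start => exact SAlg.Reach.start
      | step _ h1 ih =>
        rw [← hn1]
        rw [← ha1] at h1
        exact SAlg.Reach.step ih h1
  have hr2 : ∀ v s, M.Reach A (false :: v) s ↔ M₂.Reach A v s := by
    intro v s
    constructor
    · intro h
      induction h with
      | start => exact SAlg.Reach.start
      | step _ h1 ih =>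
        rw [hn2]
        rw [ha2] at h1
        exact SAlg.Reach.step ih h1
    · intro h
      induction h with
      | start => exact SAlg.Reach.start
      | step _ h1 ih =>
        rw [← hn2]
        rw [← ha2] at h1
        exact SAlg.Reach.step ih h1
  have hr0 : ∀ s, M.Reach A [] s → s = [] := by
    intro s h
    induction h with
    | start => rfl
    | step _ h1 _ =>
      rw [ha0] at h1
      simp at h1
  refine ⟨M, q₁ + q₂, hE.add _ hq₁ _ hq₂, fun z => ?_⟩
  rcases z with _ | ⟨b, v⟩
  · refine ⟨fun s hs => by rw [hr0 s hs]; simp, [], [false], SAlg.Reach.start, ha0 _, ?_⟩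
    simp [jn]
  · have hm1 : q₁.eval v.length ≤ (q₁ + q₂).eval (b :: v).length := by
      rw [Polynomial.eval_add]
      have := eval_mono q₁ (show v.length ≤ (b :: v).length by simp)
      omega
    have hm2 : q₂.eval v.length ≤ (q₁ + q₂).eval (b :: v).length := by
      rw [Polynomial.eval_add]
      have := eval_mono q₂ (show v.length ≤ (b :: v).length by simp)
      omega
    cases b with
    | true =>
      obtain ⟨h1, s, z, h2, h3, h4⟩ := hM₁ v
      refine ⟨fun s hs => (h1 s ((hr1 v s).1 hs)).trans (Nat.pow_le_pow_right (by norm_num) hm1),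
        s, z, (hr1 v s).2 h2, by rw [ha1]; exact h3, ?_⟩
      rw [true_mem_jn]
      exact h4
    | false =>
      obtain ⟨h1, s, z, h2, h3, h4⟩ := hM₂ v
      refine ⟨fun s hs => (h1 s ((hr2 v s).1 hs)).trans (Nat.pow_le_pow_right (by norm_num) hm2),
        s, z, (hr2 v s).2 h2, by rw [ha2]; exact h3, ?_⟩
      rw [false_mem_jn]
      exact h4

/-- an existential quantifier over strings of linear length -/
theorem InSpace.exists_lin (hE : Good E) (hE2 : Good2 E) {D : Set (List Bool)}
    (hD : InSpace E A D) (c : ℕ) :
    InSpace E A {y | ∃ w : List Bool, w.length ≤ c * (y.length + 2) ∧ pairBits w y ∈ D} := by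
  obtain ⟨M, q, hq, hM⟩ := hD
  obtain ⟨q1, hq1, hq1'⟩ := hE2 q hq (2 * c + 1)
  have pw : Poly (fun t : List Bool => (unpair t).1) := Poly.fst poly_unpair
  have p2 : Poly (fun t : List Bool => unpair (unpair t).2) := poly_unpair.comp (Poly.snd poly_unpair)
  have pg : Poly (fun t : List Bool => pairBits (unpair t).1 (unpair (unpair t).2).1) :=
    poly_pairBits pw (Poly.fst p2)
  have pr : Poly (fun t : List Bool => decide (2 ^ q.eval
      (pairBits (unpair t).1 (unpair (unpair t).2).1).length ≤ (unpair (unpair t).2).2.length)) :=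
    Poly.decide_le (A4.poly_two_pow (UPoly.eval (UPoly.length pg) q)) (Poly.length (Poly.snd p2))
  have h1 := WA.twist (A := A) M (L := D) (f := fun _ => true) pg pr (NPC.Poly.const true)
    Polynomial.X (by
      intro t ht s hs
      rw [decide_eq_true_iff] at ht
      refine ((hM _).1 s hs).trans (ht.trans ?_)
      rw [Polynomial.eval_X]
      have e1 := unpair_len (unpair t).2
      have e2 := unpair_len t
      omega) (fun t _ => (hM _).2)
  have hβ : UPoly (fun u : List Bool => c * ((unpair u).1.length + 2)) :=
    UPoly.mul (UPoly.const c) (UPoly.add (UPoly.length (Poly.fst poly_unpair)) (UPoly.const 2))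
  have h2 := IsPSPACE.pad hE (h1.exists_short hβ) hq1
  refine (congrArg (InSpace E A) (Set.ext fun y => ?_)).mp h2
  simp only [Set.mem_ofPred_eq, padq, unpair_pairBits, List.length_replicate, iff_true,
    decide_eq_true_iff]
  refine exists_congr fun w => and_congr_right fun hw => ⟨fun h => h.2, fun h => ⟨?_, h⟩⟩
  apply Nat.pow_le_pow_right (by norm_num)
  refine le_trans (eval_mono q ?_) (hq1' _)
  rw [Pool.Agent.H620R2.Gauge.length_pairBits]
  nlinarith

theorem InSpace.inter (hE : Good E) (hE2 : Good2 E) {L₁ L₂ : Set (List Bool)}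
    (h₁ : InSpace E A L₁) (h₂ : InSpace E A L₂) : InSpace E A (L₁ ∩ L₂) := by
  have hj := InSpace.join hE h₁ h₂
  have pw : Poly (fun t : List Bool => (unpair t).1) := Poly.fst poly_unpair
  have py : Poly (fun t : List Bool => (unpair t).2) := Poly.snd poly_unpair
  have pg : Poly (fun t : List Bool => (decide ((unpair t).1 = [])) :: (unpair t).2) :=
    Poly.cons (Poly.decide_eq pw (NPC.Poly.const [])) py
  have h1 := InSpace.twist hE2 hj (r := fun _ => true) (f := fun _ => false) pg
    (NPC.Poly.const true) (NPC.Poly.const false) 1 (fun t => by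
      have := unpair_len t
      simp only [List.length_cons]
      omega)
  have h2 := InSpace.compl hE2 (InSpace.exists_lin hE hE2 h1 1)
  refine (congrArg (InSpace E A) (Set.ext fun y => ?_)).mp h2
  simp only [Set.mem_compl_iff, Set.mem_ofPred_eq, unpair_pairBits, true_and, Bool.false_eq_true,
    iff_false, not_exists, not_and, not_not, Set.mem_inter_iff]
  constructor
  · intro h
    constructor
    · have h3 := h [] (by simp)
      simp only [decide_true] at h3
      exact true_mem_jn.1 h3
    · have h3 := h [true] (by simp)
      simp only [List.cons_ne_self, decide_false] at h3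
      exact false_mem_jn.1 h3
  · rintro ⟨h3, h4⟩ w -
    by_cases hw : w = []
    · simp only [hw, decide_true]
      exact true_mem_jn.2 h3
    · simp only [hw, decide_false]
      exact false_mem_jn.2 h4

theorem InSpace.union (hE : Good E) (hE2 : Good2 E) {L₁ L₂ : Set (List Bool)}
    (h₁ : InSpace E A L₁) (h₂ : InSpace E A L₂) : InSpace E A (L₁ ∪ L₂) := by
  have h := InSpace.compl hE2 (InSpace.inter hE hE2 (InSpace.compl hE2 h₁) (InSpace.compl hE2 h₂))
  refine (congrArg (InSpace E A) ?_).mp h
  rw [Set.compl_inter, compl_compl, compl_compl]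

end Pool.Agent.J4H22.WA
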