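import Pool.Agent.J4H22.WA.ListD
import Pool.Agent.J4H22.WA.SpaceKit

/-!
# The longer code and its decoding with advice
-/

set_option autoImplicit false

namespace Pool.Agent.J4H22.WA

open Pool.Agent.NPC Pool.Agent.H620R2.Gauge Pool.Agent.H622R2.Exp Pool.Agent.H622R2

variable {E : Set (Polynomial ℕ)} {A : Oracle}

/-- the code bit of the table `T` (of length `2 ^ n`) at the string `y` -/
def cd (κ n : ℕ) (T y : List Bool) : Bool :=
  xf (fun i => (pv (qp ((2 * T.length) ^ κ))
    (valB ((List.range (κ * (n + 1))).map fun i => y.getD i false)) T).bits.getD i false &&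
      y.getD (κ * (n + 1) + i) false) (List.range (κ * (n + 1) + 1)) ^^
    y.getD (2 * (κ * (n + 1)) + 1) false

theorem pow_table {κ n : ℕ} {T : List Bool} (hT : T.length = 2 ^ n) :
    (2 * T.length) ^ κ = 2 ^ (κ * (n + 1)) := by
  rw [hT, ← pow_succ', ← pow_mul, mul_comm]

theorem cd_bs {κ n m : ℕ} (hm : 2 * (κ * (n + 1)) + 2 ≤ m) {T : List Bool}
    (hT : T.length = 2 ^ n) (j : ℕ) :
    cd κ n T (bs m j) = cbj (κ * (n + 1)) (qp (2 ^ (κ * (n + 1)))) T j := by
  have h1 : ((List.range (κ * (n + 1))).map fun i => (bs m j).getD i false) =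
      (List.range (κ * (n + 1))).map fun p => j.testBit p := by
    apply List.map_congr_left
    intro i hi
    rw [List.mem_range] at hi
    exact getD_bs (by omega)
  unfold cd cbj
  rw [h1, valB_low, getD_bs (by omega), pow_table hT]
  congr 1
  unfold xf
  apply List.foldr_ext
  intro i hi b
  rw [List.mem_range] at hi
  beta_reduce
  rw [getD_bits, getD_bs (by omega)]

variable {α : Type} [TEnc α]

theorem uPoly_pow {n : α → ℕ} (hn : UPoly n) (k : ℕ) : UPoly (fun a => n a ^ k) := by
  have h := UPoly.eval hn (Polynomial.X ^ k)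
  simpa using h

theorem poly_pv_pow (k : ℕ) {z : α → ℕ} {T : α → List Bool} (hz : Poly z) (hT : Poly T) :
    Poly (fun a => pv (qp ((2 * (T a).length) ^ k)) (z a) (T a)) := by
  have hK : UPoly (fun a => (2 * (T a).length) ^ k) :=
    uPoly_pow (UPoly.mul (UPoly.const 2) (UPoly.length hT)) k
  refine poly_pv (poly_qp hK) hz hT ?_
  intro a ha
  have h1 : (2 * (T a).length) ^ k ≠ 0 := by
    have h2 : (T a).length ≠ 0 := fun h => ha (List.length_eq_zero_iff.1 h)
    positivity
  exact (qp_spec h1).1.pos

theorem poly_cd (κ : ℕ) {n : α → ℕ} {T y : α → List Bool} (hn : UPoly n) (hT : Poly T)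
    (hy : Poly y) : Poly (fun a => cd κ (n a) (T a) (y a)) := by
  have hnk : UPoly (fun a => κ * (n a + 1)) :=
    UPoly.mul (UPoly.const κ) (UPoly.add hn (UPoly.const 1))
  have hz : Poly (fun a => valB ((List.range (κ * (n a + 1))).map fun i => (y a).getD i false)) :=
    Poly.valBits (NPC.Poly.map (F := fun a i => (y a).getD i false) (UPoly.range hnk)
      (Poly.getD (hy.comp (Poly.fst Poly.id)) (Poly.snd Poly.id) (NPC.Poly.const false)))
  have hpv := poly_pv_pow κ hz hT
  unfold cd
  refine Poly.xor (poly_xf (f := fun a i => (pv (qp ((2 * (T a).length) ^ κ))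
    (valB ((List.range (κ * (n a + 1))).map fun i => (y a).getD i false)) (T a)).bits.getD i false &&
      (y a).getD (κ * (n a + 1) + i) false) (UPoly.range (UPoly.add hnk (UPoly.const 1))) ?_) ?_
  · exact Poly.and (Poly.getD ((Poly.natBits hpv).comp (Poly.fst Poly.id)) (Poly.snd Poly.id)
      (NPC.Poly.const false)) (Poly.getD (hy.comp (Poly.fst Poly.id))
        (Poly.add (hnk.toPoly.comp (Poly.fst Poly.id)) (Poly.snd Poly.id)) (NPC.Poly.const false))
  · exact Poly.getD hy (Poly.add (Poly.mul (NPC.Poly.const 2) hnk.toPoly) (NPC.Poly.const 1))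
      (NPC.Poly.const false)

/-- a polynomial-time property of the truth table is in exponential space -/
theorem InSpace.table (hE : Good E) {L : Set (List Bool)} (h : InSpace E A L) (c : ℕ)
    {Φ : List Bool × List Bool → Bool} (hΦ : Poly Φ) :
    InSpace E A {y | Φ (tt L (y.length / c - 1), y) = true} := by
  obtain ⟨M, q, hq, hM⟩ := h
  have pX : Poly (fun v : List Bool => (unpair v).1) := Poly.fst poly_unpair
  have pT' : Poly (fun t : List Bool => (unpair t).1) := Poly.fst poly_unpair
  have pU : Poly (fun t : List Bool => unpair (unpair t).2) :=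
    poly_unpair.comp (Poly.snd poly_unpair)
  have pY' : Poly (fun t : List Bool => (unpair (unpair t).2).1) := Poly.fst pU
  have pN' : UPoly (fun t : List Bool => (unpair (unpair t).2).1.length / c - 1) :=
    UPoly.of_le (Poly.sub (Poly.div (Poly.length pY') (NPC.Poly.const c)) (NPC.Poly.const 1))
      (UPoly.length pY') (fun a => (Nat.sub_le _ _).trans (Nat.div_le_self _ _))
  have p2 : Poly (fun v : List Bool => (unpair v).2) := Poly.snd poly_unpair
  have pT : Poly (fun v : List Bool => (unpair (unpair v).2).1) := pT'.comp p2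
  have pP : Poly (fun v : List Bool => (unpair (unpair (unpair v).2).2).2) :=
    Poly.snd (pU.comp p2)
  have pN : UPoly (fun v : List Bool => (unpair (unpair (unpair v).2).2).1.length / c - 1) :=
    pN'.comp p2
  set r : List Bool → Bool := fun v =>
    decide ((unpair v).1.length = (unpair (unpair (unpair v).2).2).1.length / c - 1) &&
      decide (2 ^ q.eval (unpair v).1.length ≤ (unpair (unpair (unpair v).2).2).2.length) with hr
  set f : List Bool → Bool := fun v =>
    !((unpair (unpair v).2).1.getD (valB (unpair v).1) false) with hf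
  have pr : Poly r := Poly.and (Poly.decide_eq (Poly.length pX) pN.toPoly)
    (Poly.decide_le (A4.poly_two_pow (UPoly.eval (UPoly.length pX) q)) (Poly.length pP))
  have pf : Poly f := Poly.not (Poly.getD pT (Poly.valBits pX) (NPC.Poly.const false))
  have hD := WA.twist (A := A) M (L := L) pX pr pf Polynomial.X
    (by
      intro v hv s hs
      simp only [hr, Bool.and_eq_true, decide_eq_true_iff] at hv
      refine ((hM (unpair v).1).1 s hs).trans (hv.2.trans ?_)
      rw [Polynomial.eval_X]
      have e1 := unpair_len (unpair (unpair v).2).2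
      have e2 := unpair_len (unpair v).2
      have e3 := unpair_len v
      omega)
    (fun v _ => (hM (unpair v).1).2)
  set D : Set (List Bool) := {v | r v = true ∧ ((unpair v).1 ∈ L ↔ f v = true)} with hDd
  have hD2 := (hD.exists_short (UPoly.length (Poly.id (α := List Bool)))).compl
  set D2 : Set (List Bool) := {t | ∃ w : List Bool, w.length ≤ t.length ∧ pairBits w t ∈ D}ᶜ
    with hD2d
  set C : List Bool → Bool := fun t =>
    decide ((unpair t).1.length = 2 ^ ((unpair (unpair t).2).1.length / c - 1)) &&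
      Φ ((unpair t).1, (unpair (unpair t).2).1) with hC
  have pC : Poly C := Poly.and (Poly.decide_eq (Poly.length pT') (A4.poly_two_pow pN'))
    (hΦ.comp (Poly.pair pT' pY'))
  obtain ⟨M2, q2, hM2⟩ := hD2
  have hD3 := WA.twist (A := A) M2 (L := D2) (g := fun t => t) Poly.id pC (f := fun _ => true)
    (NPC.Poly.const true) q2 (fun v _ => (hM2 v).1) (fun v _ => (hM2 v).2)
  have hD4 := hD3.exists_short (UPoly.length (Poly.id (α := List Bool)))
  have hfin := IsPSPACE.pad hE hD4 (hE.add q hq _ (hE.lin 1))
  refine (congrArg (InSpace E A) (Set.ext fun y => ?_)).mp hfin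
  set P : List Bool := List.replicate (2 ^ (q + Polynomial.C 1 * (Polynomial.X + 1)).eval y.length)
    true with hP
  have hPl : P.length = 2 ^ q.eval y.length * 2 ^ (y.length + 1) := by
    rw [hP, List.length_replicate, ← pow_add]
    simp
  have hpad : padq (q + Polynomial.C 1 * (Polynomial.X + 1)) y = pairBits y P := rfl
  set n : ℕ := y.length / c - 1 with hn
  have hny : n ≤ y.length := (Nat.sub_le _ _).trans (Nat.div_le_self _ _)
  have hP1 : 2 ^ q.eval n ≤ P.length := by
    rw [hPl]
    calc 2 ^ q.eval n ≤ 2 ^ q.eval y.length :=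
          Nat.pow_le_pow_right (by norm_num) (eval_mono q hny)
      _ ≤ _ := Nat.le_mul_of_pos_right _ (by positivity)
  have hP2 : 2 ^ n ≤ P.length := by
    rw [hPl]
    calc 2 ^ n ≤ 2 ^ (y.length + 1) := Nat.pow_le_pow_right (by norm_num) (by omega)
      _ ≤ _ := Nat.le_mul_of_pos_left _ (by positivity)
  have hright : ∀ T : List Bool, pairBits T (pairBits y P) ∈ D2 ↔
      ∀ x : List Bool, x.length = n → (T.getD (valB x) false = true ↔ x ∈ L) := by
    intro T
    rw [hD2d, Set.mem_compl_iff]
    constructor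
    · intro h x hx
      by_contra hcon
      apply h
      refine ⟨x, ?_, ?_⟩
      · rw [Pool.Agent.H620R2.Gauge.length_pairBits, Pool.Agent.H620R2.Gauge.length_pairBits]
        omega
      · rw [hDd]
        simp only [Set.mem_ofPred_eq, hr, hf, unpair_pairBits, Bool.and_eq_true,
          decide_eq_true_iff, Bool.not_eq_true']
        refine ⟨⟨hx, by rw [hx]; exact hP1⟩, ?_⟩
        cases hT : T.getD (valB x) false
        · rw [hT] at hcon
          simpa using hcon
        · rw [hT] at hcon
          simpa using hcon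
    · rintro h ⟨x, -, hx⟩
      rw [hDd] at hx
      simp only [Set.mem_ofPred_eq, hr, hf, unpair_pairBits, Bool.and_eq_true,
        decide_eq_true_iff, Bool.not_eq_true'] at hx
      have h1 := h x hx.1.1
      rw [← h1] at hx
      cases hT : T.getD (valB x) false <;> simp at hx
  simp only [Set.mem_ofPred_eq, hpad, iff_true, hC, unpair_pairBits, Bool.and_eq_true,
    decide_eq_true_iff]
  constructor
  · rintro ⟨T, -, ⟨h1, h2⟩, h4⟩
    have h5 := tt_unique L h1 ((hright T).1 h4)
    rw [← h5]
    exact h2
  · intro h2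
    refine ⟨tt L n, ?_, ⟨length_tt L n, h2⟩, (hright _).2 fun x hx => getD_tt L hx⟩
    rw [length_tt, Pool.Agent.H620R2.Gauge.length_pairBits]
    omega

/-- the coded language -/
def codeK (κ : ℕ) (L : Set (List Bool)) : Set (List Bool) :=
  {y | cd κ (y.length / (2 * κ + 2) - 1) (tt L (y.length / (2 * κ + 2) - 1)) y = true}

theorem InSpace.codeK (hE : Good E) {L : Set (List Bool)} (h : InSpace E A L) (κ : ℕ) :
    InSpace E A (codeK κ L) := by
  have p1 : Poly (fun p : List Bool × List Bool => p.1) := Poly.fst Poly.id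
  have p2 : Poly (fun p : List Bool × List Bool => p.2) := Poly.snd Poly.id
  have pn : UPoly (fun p : List Bool × List Bool => p.2.length / (2 * κ + 2) - 1) :=
    UPoly.of_le (Poly.sub (Poly.div (Poly.length p2) (NPC.Poly.const (2 * κ + 2)))
      (NPC.Poly.const 1)) (UPoly.length p2)
      (fun a => (Nat.sub_le _ _).trans (Nat.div_le_self _ _))
  exact InSpace.table hE h (2 * κ + 2)
    (Φ := fun p => cd κ (p.2.length / (2 * κ + 2) - 1) p.1 p.2) (poly_cd κ pn p1 p2)

theorem mem_codeK {κ n : ℕ} {L : Set (List Bool)} {y : List Bool}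
    (hy : y.length = (2 * κ + 2) * (n + 1)) : y ∈ codeK κ L ↔ cd κ n (tt L n) y = true := by
  have h1 : y.length / (2 * κ + 2) - 1 = n := by
    rw [hy, Nat.mul_div_cancel_left _ (by omega)]
    omega
  unfold codeK
  rw [Set.mem_ofPred_eq, h1]

/-- the number in part `i` of the advice -/
def prt (M : ℕ) (w : List Bool) (i : ℕ) : ℕ :=
  valB ((List.range M).map fun j => w.getD (i * M + j) false)

/-- decoding with advice: the input is `⟨z, w⟩` -/
def decA (κ : ℕ) (S : Set (List Bool)) : Set (List Bool) :=
  {v | ∃ T : List Bool, T.length = 2 ^ (unpair v).1.length ∧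
    prt ((6 * κ + 7) * ((unpair v).1.length + 1) + 1) (unpair v).2 0 ≤ 4 *
      Set.ncard {j : ℕ | j < 2 ^ ((2 * κ + 2) * ((unpair v).1.length + 1)) ∧
        bs ((2 * κ + 2) * ((unpair v).1.length + 1)) j ∈ {y | y ∈ S ∧
        cd κ (unpair v).1.length T y = true}} ∧
    pv (qp ((2 * T.length) ^ (6 * κ + 7)))
      (prt ((6 * κ + 7) * ((unpair v).1.length + 1) + 1) (unpair v).2 1) T =
        prt ((6 * κ + 7) * ((unpair v).1.length + 1) + 1) (unpair v).2 2 ∧
    T.getD (valB (unpair v).1) false = true}

theorem poly_prt {M : α → ℕ} {w : α → List Bool} (hM : UPoly M) (hw : Poly w) (i : ℕ) :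
    Poly (fun a => prt (M a) (w a) i) := by
  unfold prt
  refine Poly.valBits (NPC.Poly.map (F := fun a j => (w a).getD (i * M a + j) false)
    (UPoly.range hM) ?_)
  exact Poly.getD (hw.comp (Poly.fst Poly.id)) (Poly.add (Poly.mul (NPC.Poly.const i)
    (hM.toPoly.comp (Poly.fst Poly.id))) (Poly.snd Poly.id)) (NPC.Poly.const false)

theorem InNTime.decA (hE : Good E) (hE2 : Good2 E) {S : Set (List Bool)}
    (hS : InNTime E A S) (κ : ℕ) : InNTime E A (decA κ S) := by
  have p1 : Poly (fun p : List Bool × List Bool => p.1) := Poly.fst Poly.id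
  have p2 : Poly (fun p : List Bool × List Bool => p.2) := Poly.snd Poly.id
  have pz : Poly (fun p : List Bool × List Bool => (unpair p.1).1) :=
    Poly.fst (poly_unpair.comp p1)
  have pw : Poly (fun p : List Bool × List Bool => (unpair p.1).2) :=
    Poly.snd (poly_unpair.comp p1)
  have pT : Poly (fun p : List Bool × List Bool => (unpair p.2).1) :=
    Poly.fst (poly_unpair.comp p2)
  have pF : Poly (fun p : List Bool × List Bool => (unpair p.2).2) :=
    Poly.snd (poly_unpair.comp p2)
  have un : UPoly (fun p : List Bool × List Bool => (unpair p.1).1.length) := UPoly.length pz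
  have um : UPoly (fun p : List Bool × List Bool =>
      (2 * κ + 2) * ((unpair p.1).1.length + 1)) :=
    UPoly.mul (UPoly.const (2 * κ + 2)) (UPoly.add un (UPoly.const 1))
  have uM : UPoly (fun p : List Bool × List Bool =>
      (6 * κ + 7) * ((unpair p.1).1.length + 1) + 1) :=
    UPoly.add (UPoly.mul (UPoly.const (6 * κ + 7)) (UPoly.add un (UPoly.const 1))) (UPoly.const 1)
  have pY : Poly (fun p : List Bool × List Bool =>
      sel ((2 * κ + 2) * ((unpair p.1).1.length + 1)) (unpair p.2).2) := poly_sel um pF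
  have q1 : Poly (fun x : (List Bool × List Bool) × List Bool => x.1) := Poly.fst Poly.id
  have h := InNTime.guess hE hE2 hS (hE.lin (2 * κ + 4)) (2 * κ + 2)
    (Y := fun p => sel ((2 * κ + 2) * ((unpair p.1).1.length + 1)) (unpair p.2).2) pY
    (Φ := fun p => (decide ((unpair p.2).1.length = 2 ^ (unpair p.1).1.length) &&
      decide ((unpair p.2).2.length = 2 ^ ((2 * κ + 2) * ((unpair p.1).1.length + 1)))) &&
      (((sel ((2 * κ + 2) * ((unpair p.1).1.length + 1)) (unpair p.2).2).all
        fun y => cd κ (unpair p.1).1.length (unpair p.2).1 y) &&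
      (decide (prt ((6 * κ + 7) * ((unpair p.1).1.length + 1) + 1) (unpair p.1).2 0 ≤
        4 * (sel ((2 * κ + 2) * ((unpair p.1).1.length + 1)) (unpair p.2).2).length) &&
      (decide (pv (qp ((2 * (unpair p.2).1.length) ^ (6 * κ + 7)))
        (prt ((6 * κ + 7) * ((unpair p.1).1.length + 1) + 1) (unpair p.1).2 1) (unpair p.2).1 =
          prt ((6 * κ + 7) * ((unpair p.1).1.length + 1) + 1) (unpair p.1).2 2) &&
      (unpair p.2).1.getD (valB (unpair p.1).1) false))))
    (Poly.and (Poly.and (Poly.decide_eq (Poly.length pT) (A4.poly_two_pow un))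
      (Poly.decide_eq (Poly.length pF) (A4.poly_two_pow um)))
      (Poly.and (Poly.all (p := fun (p : List Bool × List Bool) y =>
        cd κ (unpair p.1).1.length (unpair p.2).1 y) pY (poly_cd κ (un.comp q1) (pT.comp q1)
          (Poly.snd Poly.id)))
      (Poly.and (Poly.decide_le (poly_prt uM pw 0) (Poly.mul (NPC.Poly.const 4) (Poly.length pY)))
      (Poly.and (Poly.decide_eq (poly_pv_pow (6 * κ + 7) (poly_prt uM pw 1) pT) (poly_prt uM pw 2))
        (Poly.getD pT (Poly.valBits pz) (NPC.Poly.const false))))))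
    (by
      intro v g y hy
      rw [length_of_mem_sel hy]
      have e1 := unpair_len v
      show (2 * κ + 2) * ((unpair v).1.length + 1) ≤ (2 * κ + 2) * (v.length + 2)
      exact Nat.mul_le_mul_left _ (by omega))
  refine (congrArg (InNTime E A) (Set.ext fun v => ?_)).mp h
  set n : ℕ := (unpair v).1.length with hn
  set m : ℕ := (2 * κ + 2) * (n + 1) with hm
  simp only [Set.mem_ofPred_eq, Bool.and_eq_true, decide_eq_true_iff, WA.decA, ← hn, ← hm]
  constructor
  · rintro ⟨g, -, ⟨⟨h1, h2⟩, h3, h4, h5, h6⟩, h7⟩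
    refine ⟨(unpair g).1, h1, h4.trans (Nat.mul_le_mul_left _ ?_), h5, h6⟩
    rw [List.all_eq_true] at h3
    exact length_sel_le (S := {y | y ∈ S ∧ cd κ n (unpair g).1 y = true}) h2
      (fun y hy => ⟨h7 y hy, h3 y hy⟩)
  · rintro ⟨T, h1, h2, h3, h4⟩
    refine ⟨pairBits T (chs m {y | y ∈ S ∧ cd κ n T y = true}), ?_, ?_, ?_⟩
    · rw [Pool.Agent.H620R2.Gauge.length_pairBits, length_chs, h1]
      have e1 := unpair_len v
      have e2 : (Polynomial.C (2 * κ + 4) * (Polynomial.X + 1) : Polynomial ℕ).eval v.length =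
          (2 * κ + 4) * (v.length + 1) := by simp
      rw [e2]
      have e3 : 2 ^ (m + 2) ≤ 2 ^ ((2 * κ + 4) * (v.length + 1)) := by
        apply Nat.pow_le_pow_right (by norm_num)
        rw [hm]
        nlinarith
      have e4 : 2 ^ (m + 2) = 4 * 2 ^ m := by ring
      have e5 : 2 ^ n ≤ 2 ^ m := by
        apply Nat.pow_le_pow_right (by norm_num)
        rw [hm]
        nlinarith
      have e6 : 0 < 2 ^ m := by positivity
      omega
    · simp only [unpair_pairBits]
      refine ⟨⟨h1, length_chs _ _⟩, ?_, ?_, h3, h4⟩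
      · rw [List.all_eq_true]
        intro y hy
        obtain ⟨j, _, hjS, rfl⟩ := mem_sel_chs.1 hy
        exact hjS.2
      · rw [length_sel_chs]
        exact h2
    · simp only [unpair_pairBits]
      intro y hy
      obtain ⟨j, _, hjS, rfl⟩ := mem_sel_chs.1 hy
      exact hjS.1

end Pool.Agent.J4H22.WA
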