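import Pool.Agent.J4H22.WA.CP
import Pool.Agent.H622R2.Exp.G
import Pool.Agent.H620R2.GaugeR.R2

/-!
# Decoding in nondeterministic exponential time
-/

set_option autoImplicit false

namespace Pool.Agent.J4H22.WA

open Pool.Agent.NPC Pool.Agent.H620R2.Gauge Pool.Agent.H622R2.Exp Pool.Agent.H622R2

/-- what a certificate contains: a truth table, and certificates for the strings of length `m` -/
abbrev Cert : Type := List Bool × List (Option (List Bool))

/-- the certificate in the input of the verifier -/
def crt (z : List Bool) : Cert := (unbits Cert (unpair z).1).getD ([], [])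

/-- entry number `i` -/
def ent (z : List Bool) (i : ℕ) : List Bool := ((crt z).2.getD i none).getD []

/-- the number of the accepted strings where the code bit is true -/
def cnt (k n m U : ℕ) (z : List Bool) (vs : List Bool) : ℕ :=
  ((List.range (crt z).2.length).filter fun i => decide ((ent z i).length ≤ U) &&
    (vs.getD i false && cb k n (crt z).1 (bs m i))).length

/-- the final test -/
def fin (k c r θ D : ℕ) (q : Polynomial ℕ) (p : List Bool × List Bool) : List Bool :=
  if (crt p.1).1.length = 2 ^ (unpair p.1).2.length ∧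
      ((crt p.1).2.length = 2 ^ (c * ((unpair p.1).2.length + 1) + r) ∧
      (θ * 2 ^ (c * ((unpair p.1).2.length + 1) + r) ≤
        D * cnt k (unpair p.1).2.length (c * ((unpair p.1).2.length + 1) + r)
          (2 ^ q.eval (c * ((unpair p.1).2.length + 1) + r)) p.1 p.2 ∧
      (crt p.1).1.getD (valB (unpair p.1).2) false = true))
  then [true] else []

theorem poly_crt : Poly crt := by
  unfold crt
  exact Poly.optGetD (poly_unbits.comp (Poly.fst poly_unpair)) (NPC.Poly.const _)

theorem poly_ent {α : Type} [TEnc α] {z : α → List Bool} {i : α → ℕ} (hz : Poly z)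
    (hi : Poly i) : Poly (fun a => ent (z a) (i a)) := by
  unfold ent
  exact Poly.optGetD (Poly.getD (Poly.snd (poly_crt.comp hz)) hi (NPC.Poly.const none))
    (NPC.Poly.const _)

theorem poly_cnt {α : Type} [TEnc α] (k : ℕ) {n m U : α → ℕ} {z vs : α → List Bool}
    (hn : UPoly n) (hm : UPoly m) (hU : Poly U) (hz : Poly z) (hvs : Poly vs) :
    Poly (fun a => cnt k (n a) (m a) (U a) (z a) (vs a)) := by
  have hc : Poly (fun a => crt (z a)) := poly_crt.comp hz
  have f1 : Poly (fun p : α × ℕ => p.1) := Poly.fst Poly.id
  have f2 : Poly (fun p : α × ℕ => p.2) := Poly.snd Poly.id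
  unfold cnt
  refine Poly.length (Poly.filter (p := fun a i => decide ((ent (z a) i).length ≤ U a) &&
    ((vs a).getD i false && cb k (n a) (crt (z a)).1 (bs (m a) i)))
    (UPoly.range (UPoly.length (Poly.snd hc))) ?_)
  exact Poly.and (Poly.decide_le (Poly.length (poly_ent (hz.comp f1) f2)) (hU.comp f1))
    (Poly.and (Poly.getD (hvs.comp f1) f2 (NPC.Poly.const false))
      (poly_cb k (hn.comp f1) (Poly.fst (hc.comp f1)) (poly_bs (hm.comp f1) f2)))

theorem poly_fin (k c r θ D : ℕ) (q : Polynomial ℕ) : Poly (fin k c r θ D q) := by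
  have f1 : Poly (fun p : List Bool × List Bool => p.1) := Poly.fst Poly.id
  have f2 : Poly (fun p : List Bool × List Bool => p.2) := Poly.snd Poly.id
  have hx : Poly (fun p : List Bool × List Bool => (unpair p.1).2) :=
    Poly.snd (poly_unpair.comp f1)
  have hn : UPoly (fun p : List Bool × List Bool => (unpair p.1).2.length) := UPoly.length hx
  have hm : UPoly (fun p : List Bool × List Bool => c * ((unpair p.1).2.length + 1) + r) :=
    UPoly.add (UPoly.mul (UPoly.const c) (UPoly.add hn (UPoly.const 1))) (UPoly.const r)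
  have hc : Poly (fun p : List Bool × List Bool => crt p.1) := poly_crt.comp f1
  have h2m := A4.poly_two_pow hm
  unfold fin
  refine Poly.ite (Poly.decide_and (Poly.decide_eq (Poly.length (Poly.fst hc))
    (A4.poly_two_pow hn)) (Poly.decide_and (Poly.decide_eq (Poly.length (Poly.snd hc)) h2m)
    (Poly.decide_and (Poly.decide_le (Poly.mul (NPC.Poly.const θ) h2m)
      (Poly.mul (NPC.Poly.const D) (poly_cnt k hn hm (A4.poly_two_pow (UPoly.eval hm q)) f1 f2)))
      (Poly.decide_bool (Poly.getD (Poly.fst hc) (Poly.valBits hx) (NPC.Poly.const false))))))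
    (NPC.Poly.const [true]) (NPC.Poly.const [])

theorem length_filter_range (N : ℕ) (p : ℕ → Bool) :
    ((List.range N).filter p).length = ((Finset.range N).filter fun i => p i = true).card := by
  induction N with
  | zero => simp
  | succ N ih =>
    rw [List.range_succ, List.filter_append, List.length_append, ih, Finset.range_add_one,
      Finset.filter_insert]
    by_cases h : p N = true
    · rw [if_pos h, Finset.card_insert_of_notMem (by simp)]
      simp [h]
    · rw [if_neg h]
      simp [h]

/-- the decoded language: there is a table which agrees often enough with `S` and is true at `x` -/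
def decL (k c r θ D : ℕ) (S : Set (List Bool)) : Set (List Bool) :=
  {x | ∃ T : List Bool, T.length = 2 ^ x.length ∧
    θ * 2 ^ (c * (x.length + 1) + r) ≤ D * Set.ncard {j : ℕ | j < 2 ^ (c * (x.length + 1) + r) ∧
      bs (c * (x.length + 1) + r) j ∈ S ∧
      cb k x.length T (bs (c * (x.length + 1) + r) j) = true} ∧
    T.getD (valB x) false = true}

/-- closure of the exponents under linear substitutions -/
def Good2 (E : Set (Polynomial ℕ)) : Prop :=
  ∀ q ∈ E, ∀ c : ℕ, ∃ r ∈ E, ∀ n : ℕ, q.eval (c * (n + 2)) ≤ r.eval n

theorem good2_Lin : Good2 Lin := by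
  rintro q ⟨d, rfl⟩ c
  refine ⟨_, ⟨d * (2 * c + 1), rfl⟩, fun n => ?_⟩
  simp only [Polynomial.eval_mul, Polynomial.eval_C, Polynomial.eval_add, Polynomial.eval_X,
    Polynomial.eval_one]
  have h : c * (n + 2) + 1 ≤ (2 * c + 1) * (n + 1) := by nlinarith
  calc d * (c * (n + 2) + 1) ≤ d * ((2 * c + 1) * (n + 1)) := Nat.mul_le_mul_left _ h
    _ = _ := by ring

theorem good2_Pol : Good2 Pol := by
  intro q _ c
  refine ⟨q.comp (Polynomial.C c * (Polynomial.X + Polynomial.C 2)), Set.mem_univ _, fun n => ?_⟩
  simp

theorem InNTime.decode {E : Set (Polynomial ℕ)} (hE : Good E) (hE2 : Good2 E) {A : Oracle}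
    {S : Set (List Bool)} (hS : InNTime E A S) (k c r θ D : ℕ) (hr : r ≤ c) :
    InNTime E A (decL k c r θ D S) := by
  classical
  obtain ⟨V, hV, q, hq, hVS⟩ := hS
  obtain ⟨q1, hq1, hq1'⟩ := hE2 q hq c
  obtain ⟨q2, hq2, hb⟩ := hE.comp _ (hE.add _ hq1 _ (hE.lin (2 * c + 1)))
    (Polynomial.C 20 * Polynomial.X ^ 2)
  -- the verifier
  have hx : Poly (fun z : List Bool => (unpair z).2) := Poly.snd poly_unpair
  have hm : UPoly (fun z : List Bool => c * ((unpair z).2.length + 1) + r) :=
    UPoly.add (UPoly.mul (UPoly.const c) (UPoly.add (UPoly.length hx) (UPoly.const 1)))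
      (UPoly.const r)
  have hW : Poly (fun p : (ℕ × List Bool) × List Bool =>
      pairBits (ent p.1.2 p.1.1) (bs (c * ((unpair p.1.2).2.length + 1) + r) p.1.1)) := by
    have g1 : Poly (fun p : (ℕ × List Bool) × List Bool => p.1.1) := Poly.fst (Poly.fst Poly.id)
    have g2 : Poly (fun p : (ℕ × List Bool) × List Bool => p.1.2) := Poly.snd (Poly.fst Poly.id)
    exact poly_pairBits (poly_ent g2 g1) (poly_bs (hm.comp g2) g1)
  have hF := IsFP.votes hV Polynomial.X (Q := fun _ => []) (NPC.Poly.const []) hW
    (poly_fin k c r θ D q)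
  refine ⟨_, hF, q2, hq2, fun x => ?_⟩
  set n : ℕ := x.length with hn
  set m : ℕ := c * (n + 1) + r with hmd
  simp only [List.map_nil, Polynomial.eval_X]
  -- the meaning of the votes
  have hcount : ∀ (w : List Bool), (crt (pairBits w x)).2.length = 2 ^ m →
      cnt k n m (2 ^ q.eval m) (pairBits w x) ((List.range (pairBits w x).length).map
        (fun i => decide (V (pairBits (ent (pairBits w x) i)
          (bs (c * ((unpair (pairBits w x)).2.length + 1) + r) i)) = [true]))) ≤
      Set.ncard {j : ℕ | j < 2 ^ m ∧ bs m j ∈ S ∧ cb k n (crt (pairBits w x)).1 (bs m j) = true} := by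
    intro w hw
    unfold cnt
    rw [length_filter_range, hw, ← Set.ncard_coe_finset]
    apply Set.ncard_le_ncard
    · intro j hj
      rw [Finset.mem_coe, Finset.mem_filter, Finset.mem_range] at hj
      obtain ⟨h1, h2⟩ := hj
      rw [Bool.and_eq_true, Bool.and_eq_true, decide_eq_true_iff] at h2
      refine ⟨h1, ?_, h2.2.2⟩
      rw [hVS, length_bs]
      refine ⟨_, h2.1, ?_⟩
      have h3 := h2.2.1
      rw [unpair_pairBits] at h3
      by_cases h4 : j < (pairBits w x).length
      · rw [List.getD_eq_getElem _ _ (by simpa using h4)] at h3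
        simp only [List.getElem_map, List.getElem_range, decide_eq_true_iff] at h3
        exact h3
      · rw [List.getD_eq_default _ _ (by simpa using h4)] at h3
        simp at h3
    · apply Set.Finite.subset (Set.finite_lt_nat (2 ^ m))
      intro j hj
      exact hj.1
  constructor
  · rintro ⟨T, h1, h2, h3⟩
    -- the certificate
    have hex : ∀ j : ℕ, bs m j ∈ S → ∃ u : List Bool, u.length ≤ 2 ^ q.eval m ∧
        V (pairBits u (bs m j)) = [true] := by
      intro j hj
      have h4 := (hVS (bs m j)).1 hj
      rwa [length_bs] at h4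
    choose! u hu1 hu2 using hex
    set us : List (Option (List Bool)) := (List.range (2 ^ m)).map
      fun j => if bs m j ∈ S then some (u j) else none with hus
    have husl : us.length = 2 ^ m := by simp [hus]
    set w : List Bool := bits ((T, us) : Cert) with hw
    have hcrt : crt (pairBits w x) = (T, us) := by
      unfold crt
      rw [unpair_pairBits, hw, unbits_bits]
      rfl
    have hent : ∀ j < 2 ^ m, bs m j ∈ S → ent (pairBits w x) j = u j := by
      intro j hj hjS
      unfold ent
      rw [hcrt]
      show (us.getD j none).getD [] = u j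
      rw [List.getD_eq_getElem _ _ (by rw [husl]; exact hj)]
      simp [hus, hjS]
    have hwl : w.length ≤ 2 ^ q2.eval n := by
      refine le_trans ?_ (hb n)
      rw [hw, bits_length, sz_pair]
      have e1 := sz_listBool_le T
      have e2 := sz_le_length_mul us (4 * 2 ^ q.eval m + 3) (by
        intro o ho
        rw [hus, List.mem_map] at ho
        obtain ⟨j, -, rfl⟩ := ho
        split_ifs with hjS
        · rw [sz_some]
          have e3 := sz_listBool_le (u j)
          have e4 := hu1 j hjS
          omega
        · simp)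
      rw [husl] at e2
      set Z : ℕ := 2 ^ (q1 + Polynomial.C (2 * c + 1) * (Polynomial.X + 1)).eval n with hZ
      have hZe : (q1 + Polynomial.C (2 * c + 1) * (Polynomial.X + 1)).eval n =
          q1.eval n + (2 * c + 1) * (n + 1) := by
        simp
      have hm1 : m ≤ c * (n + 2) := by
        rw [hmd]
        nlinarith
      have z1 : 2 ^ n ≤ Z := by
        rw [hZ, hZe]
        apply Nat.pow_le_pow_right (by norm_num)
        nlinarith
      have z2 : 2 ^ m ≤ Z := by
        rw [hZ, hZe]
        apply Nat.pow_le_pow_right (by norm_num)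
        nlinarith
      have z3 : 2 ^ q.eval m ≤ Z := by
        rw [hZ, hZe]
        apply Nat.pow_le_pow_right (by norm_num)
        have e5 := eval_mono q hm1
        have e6 := hq1' n
        omega
      have z4 : 1 ≤ Z := Nat.one_le_two_pow
      have e7 : (Polynomial.C 20 * Polynomial.X ^ 2 : Polynomial ℕ).eval (n + Z) =
          20 * (n + Z) ^ 2 := by simp
      rw [e7]
      have e8 : 2 ^ m * (4 * 2 ^ q.eval m + 3 + 1) ≤ Z * (4 * Z + 4) :=
        Nat.mul_le_mul z2 (by omega)
      rw [h1] at e1
      nlinarith
    refine ⟨w, hwl, ?_⟩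
    have hzl : 2 ^ m ≤ (pairBits w x).length := by
      rw [Pool.Agent.H620R2.Gauge.length_pairBits, hw, bits_length, sz_pair]
      have e1 := length_lt_sz us
      rw [husl] at e1
      omega
    unfold fin
    rw [if_pos]
    simp only [unpair_pairBits, hcrt]
    refine ⟨h1, husl, ?_, h3⟩
    refine h2.trans (Nat.mul_le_mul_left _ ?_)
    unfold cnt
    rw [length_filter_range, hcrt, husl, ← Set.ncard_coe_finset]
    apply Set.ncard_le_ncard
    · intro j hj
      obtain ⟨g1, g2, g3⟩ := hj
      rw [Finset.mem_coe, Finset.mem_filter, Finset.mem_range]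
      refine ⟨g1, ?_⟩
      rw [Bool.and_eq_true, Bool.and_eq_true, decide_eq_true_iff, hent j g1 g2]
      refine ⟨hu1 j g2, ?_, g3⟩
      rw [List.getD_eq_getElem _ _ (by simpa using g1.trans_le hzl)]
      simp only [List.getElem_map, List.getElem_range, decide_eq_true_iff]
      rw [hent j g1 g2]
      exact hu2 j g2
    · exact Finset.finite_toSet _
  · rintro ⟨w, -, hw⟩
    unfold fin at hw
    split_ifs at hw with h
    simp only [unpair_pairBits] at h
    obtain ⟨h1, h2, h3, h4⟩ := h
    refine ⟨(crt (pairBits w x)).1, h1, h3.trans (Nat.mul_le_mul_left _ ?_), h4⟩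
    have h5 := hcount w h2
    simp only [unpair_pairBits] at h5
    exact h5

end Pool.Agent.J4H22.WA
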