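import Pool.Agent.J4H22.WA.CP
import Pool.Agent.H620R2.Gauge.U1
import Pool.Agent.H620R2.Gauge2.Trans
import Pool.Agent.H622R2.Exp.G

/-!
# The code bits of the truth tables of a language in exponential space are in exponential space
-/

set_option autoImplicit false

namespace Pool.Agent.J4H22.WA

open Pool.Agent.NPC Pool.Agent.H620R2.Gauge Pool.Agent.H622R2.Exp Pool.Agent.H622R2

open Classical in
/-- the truth table of `L` for the strings of length `n` -/
noncomputable def tt (L : Set (List Bool)) (n : ℕ) : List Bool :=
  (List.range (2 ^ n)).map fun j => decide (bs n j ∈ L)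

theorem length_tt (L : Set (List Bool)) (n : ℕ) : (tt L n).length = 2 ^ n := by simp [tt]

theorem getD_tt (L : Set (List Bool)) {n : ℕ} {x : List Bool} (hx : x.length = n) :
    (tt L n).getD (valB x) false = true ↔ x ∈ L := by
  classical
  have h1 : valB x < 2 ^ n := hx ▸ valB_lt x
  unfold tt
  rw [List.getD_eq_getElem _ _ (by simpa using h1)]
  simp only [List.getElem_map, List.getElem_range, decide_eq_true_iff]
  rw [bs_valB hx]

theorem tt_unique (L : Set (List Bool)) {n : ℕ} {T : List Bool} (hT : T.length = 2 ^ n)
    (h : ∀ x : List Bool, x.length = n → (T.getD (valB x) false = true ↔ x ∈ L)) :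
    T = tt L n := by
  apply List.ext_getElem
  · rw [hT, length_tt]
  · intro j h1 h2
    have h3 : j < 2 ^ n := hT ▸ h1
    have h4 := h (bs n j) (length_bs n j)
    have h5 := getD_tt L (length_bs n j)
    rw [valB_bs h3] at h4 h5
    rw [List.getD_eq_getElem _ _ h1] at h4
    rw [List.getD_eq_getElem _ _ h2] at h5
    rw [Bool.eq_iff_iff, h4, h5]

/-- the coded language: the code bits of the truth tables -/
def codeL (k c : ℕ) (L : Set (List Bool)) : Set (List Bool) :=
  {y | c ≤ y.length ∧ cb k (y.length / c - 1) (tt L (y.length / c - 1)) y = true}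

theorem ustep_len (s : List Bool × List Bool × Bool) :
    (ustep s).1.length + (ustep s).2.1.length ≤ s.1.length + s.2.1.length := by
  obtain ⟨a, l, b⟩ := s
  unfold ustep
  cases b with
  | true => simp
  | false =>
    match l with
    | [] => simp
    | true :: [] => simp
    | true :: c :: l' => simp; omega
    | false :: l' => simp

theorem unpair_len (y : List Bool) : (unpair y).1.length + (unpair y).2.length ≤ y.length := by
  have h : ∀ (k : ℕ) (s : List Bool × List Bool × Bool),
      (ustep^[k] s).1.length + (ustep^[k] s).2.1.length ≤ s.1.length + s.2.1.length := by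
    intro k
    induction k with
    | zero => intro s; simp
    | succ k ih =>
      intro s
      rw [Function.iterate_succ_apply]
      exact (ih _).trans (ustep_len s)
  have h1 := h y.length ([], y, false)
  unfold unpair
  simpa using h1

/-! ### Composition with a polynomial-time computation before and after -/

/-- the next action of the composed algorithm -/
def tAct (M : SAlg) (g : List Bool → List Bool) (r f : List Bool → Bool) (z : List Bool) :
    List Bool :=
  if r (unpair z).1 = true then
    (if (M.act (pairBits (g (unpair z).1) (unpair z).2)).head? = some true then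
      [true, !(decide ((M.act (pairBits (g (unpair z).1) (unpair z).2)).tail = [true]) ^^
        f (unpair z).1)]
      else M.act (pairBits (g (unpair z).1) (unpair z).2))
  else [true, false]

theorem poly_tAct (M : SAlg) {g : List Bool → List Bool} {r f : List Bool → Bool} (hg : Poly g)
    (hr : Poly r) (hf : Poly f) : Poly (tAct M g r f) := by
  have h1 : Poly (fun z : List Bool => (unpair z).1) := Poly.fst poly_unpair
  have h2 : Poly (fun z : List Bool => (unpair z).2) := Poly.snd poly_unpair
  have hA : Poly (fun z : List Bool => M.act (pairBits (g (unpair z).1) (unpair z).2)) :=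
    (poly_of_polyTime M.act_poly).comp (poly_pairBits (hg.comp h1) h2)
  have h3 : Poly (fun z : List Bool => r (unpair z).1) := hr.comp h1
  have h4 : Poly (fun z : List Bool => f (unpair z).1) := hf.comp h1
  unfold tAct
  refine Poly.ite (Poly.decide_bool h3) (Poly.ite (Poly.decide_eq (Poly.head? hA)
    (NPC.Poly.const (some true))) ?_ hA) (NPC.Poly.const [true, false])
  exact Poly.cons (NPC.Poly.const true) (Poly.cons (Poly.not (Poly.xor
    (Poly.decide_eq (Poly.tail hA) (NPC.Poly.const [true])) h4)) (NPC.Poly.const []))

theorem twist {A : Oracle} (M : SAlg) {L : Set (List Bool)} {g : List Bool → List Bool}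
    {r f : List Bool → Bool} (hg : Poly g) (hr : Poly r) (hf : Poly f) (p : Polynomial ℕ)
    (h1 : ∀ v, r v = true → ∀ s, M.Reach A (g v) s → s.length ≤ p.eval v.length)
    (h2 : ∀ v, r v = true → ∃ s z, M.Reach A (g v) s ∧ M.act (pairBits (g v) s) = true :: z ∧
      (g v ∈ L ↔ z = [true])) :
    IsPSPACE A {v | r v = true ∧ (g v ∈ L ↔ f v = true)} := by
  have hN : Poly (fun z : List Bool => M.next (pairBits (g (unpair z).1) (unpair z).2)) :=
    (poly_of_polyTime M.next_poly).comp (poly_pairBits (hg.comp (Poly.fst poly_unpair))
      (Poly.snd poly_unpair))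
  let M' : SAlg := ⟨_, polyTime_of_poly_list (poly_tAct M hg hr hf), _, polyTime_of_poly_list hN⟩
  have hact : ∀ v s, M'.act (pairBits v s) = if r v = true then
      (if (M.act (pairBits (g v) s)).head? = some true then
        [true, !(decide ((M.act (pairBits (g v) s)).tail = [true]) ^^ f v)]
        else M.act (pairBits (g v) s)) else [true, false] := by
    intro v s
    show tAct M g r f (pairBits v s) = _
    unfold tAct
    rw [unpair_pairBits]
  have hnext : ∀ v s, M'.next (pairBits v s) = M.next (pairBits (g v) s) := by
    intro v s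
    show M.next (pairBits (g (unpair (pairBits v s)).1) (unpair (pairBits v s)).2) = _
    rw [unpair_pairBits]
  have hr1 : ∀ v s, M'.Reach A v s → s = [] ∨ (r v = true ∧ M.Reach A (g v) s) := by
    intro v s h
    induction h with
    | start => exact Or.inl rfl
    | @step s u hs ha ih =>
      right
      rw [hact] at ha
      split_ifs at ha with ha1 ha2
      · simp at ha
      · rw [hnext]
        refine ⟨ha1, SAlg.Reach.step ?_ ha⟩
        rcases ih with rfl | ih
        · exact SAlg.Reach.start
        · exact ih.2
      · simp at ha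
  have hr2 : ∀ v s, r v = true → M.Reach A (g v) s → M'.Reach A v s := by
    intro v s hv h
    induction h with
    | start => exact SAlg.Reach.start
    | @step s u hs ha ih =>
      rw [← hnext]
      refine SAlg.Reach.step ih (q := u) ?_
      rw [hact, if_pos hv, if_neg, ha]
      rw [ha]
      simp
  refine ⟨M', p, fun v => ⟨?_, ?_⟩⟩
  · intro s hs
    rcases hr1 v s hs with rfl | ⟨h3, h4⟩
    · simp
    · exact h1 v h3 s h4
  · cases hv : r v with
    | false =>
      refine ⟨[], [false], SAlg.Reach.start, ?_, ?_⟩
      · rw [hact, hv]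
        simp
      · simp only [Set.mem_ofPred_eq, hv]
        simp
    | true =>
      obtain ⟨s, z, h3, h4, h5⟩ := h2 v hv
      refine ⟨s, [!(decide (z = [true]) ^^ f v)], hr2 v s hv h3, ?_, ?_⟩
      · rw [hact, if_pos hv, h4]
        simp
      · simp only [Set.mem_ofPred_eq, hv, true_and]
        rw [h5]
        by_cases hz : z = [true] <;> cases hf' : f v <;> simp [hz]

theorem InSpace.code {E : Set (Polynomial ℕ)} (hE : Good E) {A : Oracle} {L : Set (List Bool)}
    (h : InSpace E A L) (k c : ℕ) : InSpace E A (codeL k c L) := by
  obtain ⟨M, q, hq, hM⟩ := h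
  -- the parts of the input
  have pX : Poly (fun v : List Bool => (unpair v).1) := Poly.fst poly_unpair
  have pT' : Poly (fun t : List Bool => (unpair t).1) := Poly.fst poly_unpair
  have pU : Poly (fun t : List Bool => unpair (unpair t).2) :=
    poly_unpair.comp (Poly.snd poly_unpair)
  have pY' : Poly (fun t : List Bool => (unpair (unpair t).2).1) := Poly.fst pU
  have pN' : UPoly (fun t : List Bool => (unpair (unpair t).2).1.length / c - 1) :=
    UPoly.of_le (Poly.sub (Poly.div (Poly.length pY') (NPC.Poly.const c)) (NPC.Poly.const 1))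
      (UPoly.length pY') (fun a => (Nat.sub_le _ _).trans (Nat.div_le_self _ _))
  have p2 : Poly (fun v : List Bool => (unpair v).2) := Poly.snd poly_unpair
  have pT : Poly (fun v : List Bool => (unpair (unpair v).2).1) := pT'.comp p2
  have pP : Poly (fun v : List Bool => (unpair (unpair (unpair v).2).2).2) :=
    Poly.snd (pU.comp p2)
  have pN : UPoly (fun v : List Bool => (unpair (unpair (unpair v).2).2).1.length / c - 1) :=
    pN'.comp p2
  -- the strings where the table is wrong
  set r : List Bool → Bool := fun v =>
    decide ((unpair v).1.length = (unpair (unpair (unpair v).2).2).1.length / c - 1) &&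
      decide (2 ^ q.eval (unpair v).1.length ≤ (unpair (unpair (unpair v).2).2).2.length) with hr
  set f : List Bool → Bool := fun v =>
    !((unpair (unpair v).2).1.getD (valB (unpair v).1) false) with hf
  have pr : Poly r := Poly.and (Poly.decide_eq (Poly.length pX) pN.toPoly)
    (Poly.decide_le (A4.poly_two_pow (UPoly.eval (UPoly.length pX) q)) (Poly.length pP))
  have pf : Poly f := Poly.not (Poly.getD pT (Poly.valBits pX) (NPC.Poly.const false))
  have hD := twist (A := A) M (L := L) pX pr pf Polynomial.X
    (by
      intro v hv s hs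
      simp only [hr, Bool.and_eq_true, decide_eq_true_iff] at hv
      refine ((hM (unpair v).1).1 s hs).trans (hv.2.trans ?_)
      rw [Polynomial.eval_X]
      have e1 := unpair_len (unpair (unpair v).2).2
      have e2 := unpair_len (unpair v).2
      have e3 := unpair_len v
      omega)
    (fun v _ => (hM (unpair v).1).2)
  set D : Set (List Bool) := {v | r v = true ∧ ((unpair v).1 ∈ L ↔ f v = true)} with hDd
  have hD2 := (hD.exists_short (UPoly.length (Poly.id (α := List Bool)))).compl
  set D2 : Set (List Bool) := {t | ∃ w : List Bool, w.length ≤ t.length ∧ pairBits w t ∈ D}ᶜ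
    with hD2d
  set C : List Bool → Bool := fun t =>
    decide ((unpair t).1.length = 2 ^ ((unpair (unpair t).2).1.length / c - 1)) &&
      (decide (c ≤ (unpair (unpair t).2).1.length) &&
        cb k ((unpair (unpair t).2).1.length / c - 1) (unpair t).1 (unpair (unpair t).2).1) with hC
  have pC : Poly C := Poly.and (Poly.decide_eq (Poly.length pT') (A4.poly_two_pow pN'))
    (Poly.and (Poly.decide_le (NPC.Poly.const c) (Poly.length pY')) (poly_cb k pN' pT' pY'))
  obtain ⟨M2, q2, hM2⟩ := hD2
  have hD3 := twist (A := A) M2 (L := D2) (g := fun t => t) Poly.id pC (f := fun _ => true)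
    (NPC.Poly.const true) q2 (fun v _ => (hM2 v).1) (fun v _ => (hM2 v).2)
  have hD4 := hD3.exists_short (UPoly.length (Poly.id (α := List Bool)))
  have hfin := IsPSPACE.pad hE hD4 (hE.add q hq _ (hE.lin 1))
  refine (congrArg (InSpace E A) (Set.ext fun y => ?_)).mp hfin
  -- the set is the coded language
  set P : List Bool := List.replicate (2 ^ (q + Polynomial.C 1 * (Polynomial.X + 1)).eval y.length)
    true with hP
  have hPl : P.length = 2 ^ q.eval y.length * 2 ^ (y.length + 1) := by
    rw [hP, List.length_replicate, ← pow_add]
    simp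
  have hpad : padq (q + Polynomial.C 1 * (Polynomial.X + 1)) y = pairBits y P := rfl
  set n : ℕ := y.length / c - 1 with hn
  have hny : n ≤ y.length := (Nat.sub_le _ _).trans (Nat.div_le_self _ _)
  have hP1 : 2 ^ q.eval n ≤ P.length := by
    rw [hPl]
    calc 2 ^ q.eval n ≤ 2 ^ q.eval y.length :=
          Nat.pow_le_pow_right (by norm_num) (eval_mono q hny)
      _ ≤ _ := Nat.le_mul_of_pos_right _ (by positivity)
  have hP2 : 2 ^ n ≤ P.length := by
    rw [hPl]
    calc 2 ^ n ≤ 2 ^ (y.length + 1) := Nat.pow_le_pow_right (by norm_num) (by omega)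
      _ ≤ _ := Nat.le_mul_of_pos_left _ (by positivity)
  -- the table is right
  have hright : ∀ T : List Bool, pairBits T (pairBits y P) ∈ D2 ↔
      ∀ x : List Bool, x.length = n → (T.getD (valB x) false = true ↔ x ∈ L) := by
    intro T
    rw [hD2d, Set.mem_compl_iff]
    constructor
    · intro h x hx
      by_contra hcon
      apply h
      refine ⟨x, ?_, ?_⟩
      · rw [Pool.Agent.H620R2.Gauge.length_pairBits, Pool.Agent.H620R2.Gauge.length_pairBits]
        omega
      · rw [hDd]
        simp only [Set.mem_ofPred_eq, hr, hf, unpair_pairBits, Bool.and_eq_true,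
          decide_eq_true_iff, Bool.not_eq_true']
        refine ⟨⟨hx, by rw [hx]; exact hP1⟩, ?_⟩
        cases hT : T.getD (valB x) false
        · rw [hT] at hcon
          simpa using hcon
        · rw [hT] at hcon
          simpa using hcon
    · rintro h ⟨x, -, hx⟩
      rw [hDd] at hx
      simp only [Set.mem_ofPred_eq, hr, hf, unpair_pairBits, Bool.and_eq_true,
        decide_eq_true_iff, Bool.not_eq_true'] at hx
      have h1 := h x hx.1.1
      rw [← h1] at hx
      cases hT : T.getD (valB x) false <;> simp [hT] at hx
  simp only [Set.mem_ofPred_eq, codeL, hpad, iff_true, hC, unpair_pairBits, Bool.and_eq_true,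
    decide_eq_true_iff]
  constructor
  · rintro ⟨T, -, ⟨h1, h2, h3⟩, h4⟩
    have h5 := tt_unique L h1 ((hright T).1 h4)
    rw [← h5]
    exact ⟨h2, h3⟩
  · rintro ⟨h1, h2⟩
    refine ⟨tt L n, ?_, ⟨length_tt L n, h1, h2⟩, (hright _).2 fun x hx => getD_tt L hx⟩
    rw [length_tt, Pool.Agent.H620R2.Gauge.length_pairBits]
    omega

end Pool.Agent.J4H22.WA
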