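import Pool.Agent.J4H22.WA.Defs
import Pool.Agent.J4H22.WA.Space
import Pool.Agent.J4H22.WA.NE

/-!
# Worst-case and average-case hardness of exponential space for nondeterministic exponential time
-/

set_option autoImplicit false

namespace Pool.Agent.J4H22.WA

open Pool.Agent.NPC Pool.Agent.H620R2.Gauge Pool.Agent.H622R2.Exp Pool.Agent.H622R2 Finset Filter

theorem ncard_lt (N : ℕ) (P Q : ℕ → Prop) [DecidablePred Q] (h : ∀ j, P j ↔ Q j) :
    Set.ncard {j : ℕ | j < N ∧ P j} = ((range N).filter Q).card := by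
  rw [← Set.ncard_coe_finset]
  congr 1
  ext j
  simp [h]

theorem ncard_str (m : ℕ) (P : List Bool → Prop) (Q : ℕ → Prop) [DecidablePred Q]
    (h : ∀ j, P (bs m j) ↔ Q j) :
    Set.ncard {y : List Bool | y.length = m ∧ P y} = ((range (2 ^ m)).filter Q).card := by
  have h : {y : List Bool | y.length = m ∧ P y} = bs m '' ((range (2 ^ m)).filter Q : Finset ℕ) := by
    ext y
    simp only [Set.mem_ofPred_eq, Set.mem_image, mem_coe, mem_filter, mem_range]
    constructor
    · rintro ⟨h1, h2⟩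
      refine ⟨valB y, ⟨h1 ▸ valB_lt y, ?_⟩, bs_valB h1⟩
      rw [← h, bs_valB h1]
      exact h2
    · rintro ⟨j, ⟨h1, h2⟩, rfl⟩
      exact ⟨length_bs m j, (h j).2 h2⟩
  rw [h, Set.InjOn.ncard_image, Set.ncard_coe_finset]
  intro j hj j' hj' h
  rw [mem_coe, mem_filter, mem_range] at hj hj'
  exact bs_inj hj.1 hj'.1 h

theorem mem_codeL {k c n r : ℕ} (hr : r < c) {L : Set (List Bool)} {y : List Bool}
    (hy : y.length = c * (n + 1) + r) : y ∈ codeL k c L ↔ cb k n (tt L n) y = true := by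
  have h1 : y.length / c - 1 = n := by
    rw [hy, Nat.mul_add_div (by omega), Nat.div_eq_of_lt hr]
    omega
  have h2 : c ≤ y.length := by
    rw [hy]
    nlinarith
  unfold codeL
  rw [Set.mem_ofPred_eq, h1]
  exact ⟨fun h => h.2, fun h => ⟨h2, h⟩⟩

/-- half of the strings are in the coded language -/
theorem card_codeL {k c m : ℕ} (hc : c = 2 * k + 4) (L : Set (List Bool)) (hm : c ≤ m) :
    2 * Set.ncard {y : List Bool | y.length = m ∧ y ∈ codeL k c L} = 2 ^ m := by
  classical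
  have hc0 : 0 < c := by omega
  obtain ⟨n, hn⟩ : ∃ n, m / c = n + 1 := by
    have h1 : 1 ≤ m / c := (Nat.one_le_div_iff hc0).2 hm
    exact ⟨m / c - 1, by omega⟩
  have hmr : m = c * (n + 1) + m % c := by
    rw [← hn]
    exact (Nat.div_add_mod m c).symm
  have hr := Nat.mod_lt m hc0
  have hma : 2 * (n + k) + 2 ≤ m := by
    have h2 : c * (n + 1) ≥ 2 * n + 2 * k + 4 := by
      rw [hc]
      nlinarith
    omega
  rw [ncard_str m _ (fun j => cbj (n + k) (qp ((tt L n).length * 2 ^ k)) (tt L n) j = true)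
    (fun j => by rw [mem_codeL hr (n := n) (by rw [length_bs]; exact hmr), cb_bs hma])]
  exact card_cbj _ _ _ hma _

/-- unique decoding -/
theorem decode_eq {k c n r θ D : ℕ} {α β : ℝ} (hc : c = 2 * k + 4) (hr : r < c) (hD : 0 < D)
    (h1 : (1 / 4 + β + (1 / 2) ^ k) * D < θ) (h2 : (θ : ℝ) ≤ (1 / 2 - α) * D)
    {L S : Set (List Bool)} (h : Close α β (codeL k c L) S (c * (n + 1) + r)) (x : List Bool)
    (hx : x.length = n) : x ∈ decL k c r θ D S ↔ x ∈ L := by
  classical
  set m : ℕ := c * (n + 1) + r with hm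
  have hma : 2 * (n + k) + 2 ≤ m := by
    have h3 : c * (n + 1) ≥ 2 * n + 2 * k + 4 := by
      rw [hc]
      nlinarith
    omega
  set T₀ : List Bool := tt L n with hT₀
  have hT₀l : T₀.length = 2 ^ n := length_tt L n
  set q : ℕ := qp (2 ^ n * 2 ^ k) with hq
  have e2 : 2 ^ n * 2 ^ k = 2 ^ (n + k) := (pow_add 2 n k).symm
  obtain ⟨hq1, hq2, hq3⟩ := qp_spec (K := 2 ^ n * 2 ^ k) (by positivity)
  rw [← hq] at hq1 hq2 hq3
  rw [e2] at hq2 hq3
  have hcb : ∀ T : List Bool, T.length = 2 ^ n → ∀ j, cb k n T (bs m j) = cbj (n + k) q T j := by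
    intro T hT j
    rw [cb_bs hma, hT]
  -- the counts as cardinalities of finite sets
  have d1 : (diffN (codeL k c L) S m : ℝ) =
      (((range (2 ^ m)).filter fun j => cbj (n + k) q T₀ j = true ∧ bs m j ∉ S).card : ℝ) := by
    unfold diffN
    rw [ncard_str m _ (fun j => cbj (n + k) q T₀ j = true ∧ bs m j ∉ S)
      (fun j => by rw [mem_codeL hr (n := n) (length_bs m j), hcb _ hT₀l])]
  have d2 : (diffN S (codeL k c L) m : ℝ) =
      (((range (2 ^ m)).filter fun j => bs m j ∈ S ∧ ¬ cbj (n + k) q T₀ j = true).card : ℝ) := by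
    unfold diffN
    rw [ncard_str m _ (fun j => bs m j ∈ S ∧ ¬ cbj (n + k) q T₀ j = true)
      (fun j => by rw [mem_codeL hr (n := n) (length_bs m j), hcb _ hT₀l])]
  obtain ⟨c1, c2⟩ := h
  rw [d1] at c1
  rw [d2] at c2
  have hN : ∀ T : List Bool, T.length = 2 ^ n →
      Set.ncard {j : ℕ | j < 2 ^ m ∧ bs m j ∈ S ∧ cb k n T (bs m j) = true} =
      ((range (2 ^ m)).filter fun j => bs m j ∈ S ∧ cbj (n + k) q T j = true).card := by
    intro T hT
    exact ncard_lt _ _ _ (fun j => by rw [hcb _ hT])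
  -- the right table
  have g1 : (θ : ℝ) * 2 ^ m ≤
      D * (((range (2 ^ m)).filter fun j => bs m j ∈ S ∧ cbj (n + k) q T₀ j = true).card : ℝ) := by
    have f1 := card_cbj (n + k) q m hma T₀
    have f2 : ((range (2 ^ m)).filter fun j => cbj (n + k) q T₀ j = true).card ≤
        ((range (2 ^ m)).filter fun j => bs m j ∈ S ∧ cbj (n + k) q T₀ j = true).card +
        ((range (2 ^ m)).filter fun j => cbj (n + k) q T₀ j = true ∧ bs m j ∉ S).card := by
      refine le_trans (Finset.card_le_card ?_) (Finset.card_union_le _ _)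
      intro j hj
      rw [mem_filter] at hj
      rw [mem_union, mem_filter, mem_filter]
      by_cases hjS : bs m j ∈ S
      · left; exact ⟨hj.1, hjS, hj.2⟩
      · right; exact ⟨hj.1, hj.2, hjS⟩
    have f1' : 2 * (((range (2 ^ m)).filter fun j => cbj (n + k) q T₀ j = true).card : ℝ) =
        2 ^ m := by exact_mod_cast f1
    have f2' : (((range (2 ^ m)).filter fun j => cbj (n + k) q T₀ j = true).card : ℝ) ≤
        (((range (2 ^ m)).filter fun j => bs m j ∈ S ∧ cbj (n + k) q T₀ j = true).card : ℝ) +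
        (((range (2 ^ m)).filter fun j => cbj (n + k) q T₀ j = true ∧ bs m j ∉ S).card : ℝ) := by
      exact_mod_cast f2
    have hD' : (0 : ℝ) < D := by exact_mod_cast hD
    have f3 : (1 / 2 - α) * 2 ^ m ≤
        (((range (2 ^ m)).filter fun j => bs m j ∈ S ∧ cbj (n + k) q T₀ j = true).card : ℝ) := by
      linarith
    calc (θ : ℝ) * 2 ^ m ≤ (1 / 2 - α) * D * 2 ^ m :=
          mul_le_mul_of_nonneg_right h2 (by positivity)
      _ = D * ((1 / 2 - α) * 2 ^ m) := by ring
      _ ≤ _ := mul_le_mul_of_nonneg_left f3 hD'.le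
  -- the other tables
  have g2 : ∀ T : List Bool, T.length = 2 ^ n → T ≠ T₀ →
      D * (((range (2 ^ m)).filter fun j => bs m j ∈ S ∧ cbj (n + k) q T j = true).card : ℝ) <
        (θ : ℝ) * 2 ^ m := by
    intro T hT hne
    have f1 := card_both hma hq1.pos (by omega) T T₀
    have f2 := card_coll (m := m) (by omega) hq1 hq2 hT hT₀l hne
    have f3 : ((range (2 ^ m)).filter fun j => bs m j ∈ S ∧ cbj (n + k) q T j = true).card ≤
        ((range (2 ^ m)).filter fun j =>
          cbj (n + k) q T j = true ∧ cbj (n + k) q T₀ j = true).card +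
        ((range (2 ^ m)).filter fun j => bs m j ∈ S ∧ ¬ cbj (n + k) q T₀ j = true).card := by
      refine le_trans (Finset.card_le_card ?_) (Finset.card_union_le _ _)
      intro j hj
      rw [mem_filter] at hj
      rw [mem_union, mem_filter, mem_filter]
      by_cases hjS : cbj (n + k) q T₀ j = true
      · left; exact ⟨hj.1, hj.2.2, hjS⟩
      · right; exact ⟨hj.1, hj.2.1, hjS⟩
    set b : ℕ := ((range (2 ^ m)).filter fun j =>
      pv q (j % 2 ^ (n + k)) T = pv q (j % 2 ^ (n + k)) T₀).card with hb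
    have f2' : (b : ℝ) ≤ (1 / 2) ^ k * 2 ^ m := by
      have f4 : ((2 ^ (n + k) * b : ℕ) : ℝ) ≤ ((2 ^ n * 2 ^ m : ℕ) : ℝ) := by exact_mod_cast f2
      push_cast at f4
      rw [pow_add, mul_assoc] at f4
      have f5 : (2 : ℝ) ^ k * b ≤ 2 ^ m := le_of_mul_le_mul_left f4 (by positivity)
      have f6 : (1 / 2 : ℝ) ^ k * 2 ^ m = 2 ^ m / 2 ^ k := by
        rw [one_div, inv_pow]
        ring
      rw [f6, le_div_iff₀ (by positivity)]
      linarith
    have f1' : 4 * (((range (2 ^ m)).filter fun j =>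
        cbj (n + k) q T j = true ∧ cbj (n + k) q T₀ j = true).card : ℝ) ≤ 2 ^ m + 4 * b := by
      exact_mod_cast f1
    have f3' : (((range (2 ^ m)).filter fun j =>
        bs m j ∈ S ∧ cbj (n + k) q T j = true).card : ℝ) ≤
        (((range (2 ^ m)).filter fun j =>
          cbj (n + k) q T j = true ∧ cbj (n + k) q T₀ j = true).card : ℝ) +
        (((range (2 ^ m)).filter fun j =>
          bs m j ∈ S ∧ ¬ cbj (n + k) q T₀ j = true).card : ℝ) := by
      exact_mod_cast f3
    have hD' : (0 : ℝ) < D := by exact_mod_cast hD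
    have f4 : (((range (2 ^ m)).filter fun j =>
        bs m j ∈ S ∧ cbj (n + k) q T j = true).card : ℝ) ≤
        (1 / 4 + β + (1 / 2) ^ k) * 2 ^ m := by
      linarith
    calc D * (((range (2 ^ m)).filter fun j => bs m j ∈ S ∧ cbj (n + k) q T j = true).card : ℝ)
        ≤ D * ((1 / 4 + β + (1 / 2) ^ k) * 2 ^ m) := mul_le_mul_of_nonneg_left f4 hD'.le
      _ = (1 / 4 + β + (1 / 2) ^ k) * D * 2 ^ m := by ring
      _ < θ * 2 ^ m := mul_lt_mul_of_pos_right h1 (by positivity)
  -- conclusion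
  unfold decL
  rw [Set.mem_ofPred_eq, hx, ← hm]
  constructor
  · rintro ⟨T, t1, t2, t3⟩
    rw [hN T t1] at t2
    have hTT : T = T₀ := by
      by_contra hne
      have t4 := g2 T t1 hne
      have t5 : (θ : ℝ) * 2 ^ m ≤ D * (((range (2 ^ m)).filter fun j =>
        bs m j ∈ S ∧ cbj (n + k) q T j = true).card : ℝ) := by exact_mod_cast t2
      linarith
    rw [hTT] at t3
    exact (getD_tt L hx).1 t3
  · intro hxL
    refine ⟨T₀, hT₀l, ?_, (getD_tt L hx).2 hxL⟩
    rw [hN T₀ hT₀l]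
    exact_mod_cast g1

/-- the constants -/
theorem exists_consts {α β : ℝ} (hβ : 0 ≤ β) (h : α + β < 1 / 4) :
    ∃ k θ D : ℕ, 0 < D ∧ (1 / 4 + β + (1 / 2) ^ k) * D < θ ∧ (θ : ℝ) ≤ (1 / 2 - α) * D := by
  obtain ⟨k, hk⟩ := exists_pow_lt_of_lt_one (show (0 : ℝ) < 1 / 4 - α - β by linarith)
    (show (1 / 2 : ℝ) < 1 by norm_num)
  obtain ⟨ρ, h1, h2⟩ := exists_rat_btwn
    (show 1 / 4 + β + (1 / 2) ^ k < (1 / 2 - α : ℝ) by linarith)
  have hρ : 0 < ρ := by
    have h3 : (0 : ℝ) < ρ := by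
      have h4 : (0 : ℝ) < (1 / 2) ^ k := by positivity
      linarith
    exact_mod_cast h3
  have hden : (0 : ℝ) < ρ.den := by exact_mod_cast ρ.den_pos
  have hnum : ((ρ.num.toNat : ℕ) : ℝ) = ρ * ρ.den := by
    have h5 : ((ρ.num.toNat : ℕ) : ℤ) = ρ.num := Int.toNat_of_nonneg (Rat.num_nonneg.2 hρ.le)
    have h6 : (ρ : ℝ) * ρ.den = (ρ.num : ℝ) := by exact_mod_cast Rat.mul_den_eq_num ρ
    have h7 : (((ρ.num.toNat : ℕ) : ℤ) : ℝ) = (ρ.num : ℝ) := by rw [h5]
    rw [h6, ← h7]
    rfl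
  refine ⟨k, ρ.num.toNat, ρ.den, ρ.den_pos, ?_, ?_⟩
  · rw [hnum]
    exact mul_lt_mul_of_pos_right h1 hden
  · rw [hnum]
    exact mul_le_mul_of_nonneg_right h2.le hden.le

variable {E : Set (Polynomial ℕ)} {A : Oracle}

/-- the reduction -/
theorem reduction (hE : Good E) (hE2 : Good2 E) {α β : ℝ} (hβ : 0 ≤ β) (h : α + β < 1 / 4)
    {L : Set (List Bool)} (hL : InSpace E A L) :
    ∃ (c : ℕ) (L' : Set (List Bool)), 0 < c ∧ InSpace E A L' ∧
      (∀ m ≥ c, 2 * Set.ncard {y : List Bool | y.length = m ∧ y ∈ L'} = 2 ^ m) ∧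
      ∀ r < c, ∀ S : Set (List Bool), InNTime E A S → ∃ S' : Set (List Bool), InNTime E A S' ∧
        ∀ n : ℕ, Close α β L' S (c * (n + 1) + r) →
          ∀ x : List Bool, x.length = n → (x ∈ S' ↔ x ∈ L) := by
  obtain ⟨k, θ, D, hD, h1, h2⟩ := exists_consts hβ h
  refine ⟨2 * k + 4, codeL k (2 * k + 4) L, by omega, InSpace.code hE hL k _,
    fun m hm => card_codeL rfl L hm, fun r hr S hS => ⟨decL k (2 * k + 4) r θ D S,
      InNTime.decode hE hE2 hS k _ r θ D hr.le, fun n hn x hx => ?_⟩⟩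
  exact decode_eq rfl hr hD h1 h2 hn x hx

/-- finitely many inputs do not matter -/
theorem InNTime.patch {S L : Set (List Bool)} (hS : InNTime E A S) (N : ℕ)
    (h : ∀ x : List Bool, N ≤ x.length → (x ∈ S ↔ x ∈ L)) : InNTime E A L := by
  classical
  obtain ⟨V, hV, q, hq, hVS⟩ := hS
  have hfin : {x : List Bool | x.length < N ∧ x ∈ L}.Finite :=
    (List.finite_length_lt Bool N).subset fun x hx => hx.1
  set F : List (List Bool) := hfin.toFinset.toList with hF
  have hFm : ∀ x, x ∈ F ↔ x.length < N ∧ x ∈ L := by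
    intro x
    rw [hF, Finset.mem_toList, Set.Finite.mem_toFinset]
    rfl
  have hx : Poly (fun p : List Bool × List Bool × List Bool => (unpair p.1).2) :=
    Poly.snd (poly_unpair.comp (Poly.fst Poly.id))
  have hψ : Poly (fun p : List Bool × List Bool × List Bool =>
      if (unpair p.1).2.length < N then [decide ((unpair p.1).2 ∈ F)] else p.2.2) :=
    Poly.ite (Poly.decide_lt (Poly.length hx) (NPC.Poly.const N))
      (Poly.cons (Poly.dec_mem hx (NPC.Poly.const F)) (NPC.Poly.const []))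
      (Poly.snd (Poly.snd Poly.id))
  have hV' := IsFP.seq (F := fun x => x) (G := V) (φ := fun p => p.1)
    (IsFP.of_poly (A := A) (F := fun x => x) Poly.id) hV (Poly.fst Poly.id) hψ
  refine ⟨_, hV', q, hq, fun x => ?_⟩
  simp only [unpair_pairBits]
  by_cases hxN : x.length < N
  · simp only [hxN, if_true]
    constructor
    · intro hxL
      refine ⟨[], by simp, ?_⟩
      rw [decide_eq_true ((hFm x).2 ⟨hxN, hxL⟩)]
    · rintro ⟨w, -, hw⟩
      have h1 : x ∈ F := by simpa using hw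
      exact ((hFm x).1 h1).2
  · simp only [hxN, if_false]
    rw [← h x (by omega)]
    exact hVS x

theorem close_of_eq {α β : ℝ} (hα : 0 ≤ α) (hβ : 0 ≤ β) {L S : Set (List Bool)} {n : ℕ}
    (h : ∀ x : List Bool, x.length = n → (x ∈ L ↔ x ∈ S)) : Close α β L S n := by
  have h1 : diffN L S n = 0 := by
    unfold diffN
    have : {y : List Bool | y.length = n ∧ y ∈ L ∧ y ∉ S} = ∅ := by
      ext y
      simp only [Set.mem_ofPred_eq, Set.mem_empty_iff_false, iff_false]
      rintro ⟨h1, h2, h3⟩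
      exact h3 ((h y h1).1 h2)
    rw [this, Set.ncard_empty]
  have h2 : diffN S L n = 0 := by
    unfold diffN
    have : {y : List Bool | y.length = n ∧ y ∈ S ∧ y ∉ L} = ∅ := by
      ext y
      simp only [Set.mem_ofPred_eq, Set.mem_empty_iff_false, iff_false]
      rintro ⟨h1, h2, h3⟩
      exact h3 ((h y h1).2 h2)
    rw [this, Set.ncard_empty]
  unfold Close
  rw [h1, h2]
  simp only [Nat.cast_zero]
  exact ⟨by positivity, by positivity⟩

/-- almost all lengths -/
theorem iff_ae (hE : Good E) (hE2 : Good2 E) {α β : ℝ} (hα : 0 ≤ α) (hβ : 0 ≤ β)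
    (h : α + β < 1 / 4) :
    (∀ L, InSpace E A L → InNTime E A L) ↔
      ∀ L, InSpace E A L → ∃ S, InNTime E A S ∧ ∀ᶠ n in atTop, Close α β L S n := by
  constructor
  · intro h1 L hL
    exact ⟨L, h1 L hL, Eventually.of_forall fun n => close_of_eq hα hβ fun x _ => Iff.rfl⟩
  · intro h1 L hL
    obtain ⟨c, L', hc, hL', -, hred⟩ := reduction hE hE2 hβ h hL
    obtain ⟨S, hS, hS'⟩ := h1 L' hL'
    obtain ⟨N, hN⟩ := eventually_atTop.1 hS'
    obtain ⟨S', hS1, hS2⟩ := hred 0 hc S hS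
    refine InNTime.patch hS1 N fun x hx => hS2 x.length (hN _ ?_) x rfl
    nlinarith

/-- infinitely many lengths -/
theorem iff_io (hE : Good E) (hE2 : Good2 E) {α β : ℝ} (hα : 0 ≤ α) (hβ : 0 ≤ β)
    (h : α + β < 1 / 4) :
    (∀ L, InSpace E A L → IO (InNTime E A) L) ↔
      ∀ L, InSpace E A L → ∃ S, InNTime E A S ∧ ∃ᶠ n in atTop, Close α β L S n := by
  constructor
  · intro h1 L hL
    obtain ⟨S, hS, hS'⟩ := h1 L hL
    exact ⟨S, hS, hS'.mono fun n hn => close_of_eq hα hβ hn⟩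
  · intro h1 L hL
    obtain ⟨c, L', hc, hL', -, hred⟩ := reduction hE hE2 hβ h hL
    obtain ⟨S, hS, hS'⟩ := h1 L' hL'
    -- one residue occurs infinitely often
    have hex : ∃ r < c, ∃ᶠ m in atTop, m % c = r ∧ Close α β L' S m := by
      by_contra hcon
      push Not at hcon
      have h2 : ∀ r ∈ range c, ∀ᶠ m in atTop, ¬ (m % c = r ∧ Close α β L' S m) := by
        intro r hr
        exact (hcon r (mem_range.1 hr)).mono fun m hm hh => hm hh.1 hh.2
      have h3 := (Filter.eventually_all_finset (range c)).2 h2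
      apply hS'
      filter_upwards [h3] with m hm hcl
      exact hm (m % c) (mem_range.2 (Nat.mod_lt _ hc)) ⟨rfl, hcl⟩
    obtain ⟨r, hr, hfr⟩ := hex
    obtain ⟨S', hS1, hS2⟩ := hred r hr S hS
    refine ⟨S', hS1, ?_⟩
    rw [frequently_atTop] at hfr ⊢
    intro N
    obtain ⟨m, hm, h4, h5⟩ := hfr (c * (N + 1))
    have h6 : N + 1 ≤ m / c := (Nat.le_div_iff_mul_le hc).2 (by rw [mul_comm]; exact hm)
    refine ⟨m / c - 1, by omega, fun x hx => ?_⟩
    have h7 : c * (m / c - 1 + 1) + r = m := by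
      rw [Nat.sub_add_cancel (by omega), ← h4]
      exact Nat.div_add_mod m c
    rw [← h7] at h5
    exact (hS2 _ h5 x hx).symm

end Pool.Agent.J4H22.WA
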