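import Pool.Agent.J4H22.WA.Defs2
import Pool.Agent.J4H22.WA.Main
import Pool.Agent.J4H22.WA.Code2

/-!
# Advice for the decoding, and its elimination
-/

set_option autoImplicit false

namespace Pool.Agent.J4H22.WA

open Pool.Agent.NPC Pool.Agent.H620R2.Gauge Pool.Agent.H622R2.Exp Pool.Agent.H622R2 Finset Filter

variable {E : Set (Polynomial ℕ)} {A : Oracle}

/-! ### The advice exists -/

theorem agr_count (N : ℕ) (s P : ℕ → Prop) [DecidablePred s] [DecidablePred P] :
    2 * ((range N).filter fun j => s j ↔ P j).card + 2 * ((range N).filter s).card +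
      2 * ((range N).filter P).card = 2 * N + 4 * ((range N).filter fun j => s j ∧ P j).card := by
  induction N with
  | zero => simp
  | succ N ih =>
    rw [Finset.range_add_one, Finset.filter_insert, Finset.filter_insert, Finset.filter_insert,
      Finset.filter_insert]
    by_cases h1 : s N <;> by_cases h2 : P N <;> simp [h1, h2] <;> omega

/-- `w` is good advice for the length `N` -/
def goodW (L' L : Set (List Bool)) (c N : ℕ) (w : List Bool) : Prop :=
  w.length = c * (N + 1) ∧ ∀ z : List Bool, z.length = N → (pairBits z w ∈ L' ↔ z ∈ L)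

theorem exists_good {κ h n : ℕ} (hh : 3 * κ + 7 ≤ 2 * h) (hhc : h ≤ 2 * κ + 2)
    {L S : Set (List Bool)}
    (hcl : 2 ^ ((2 * κ + 2) * (n + 1)) + 2 ^ (h * (n + 1)) ≤
      2 * agr S (codeK κ L) ((2 * κ + 2) * (n + 1))) :
    ∃ w, goodW (decA κ S) L (3 * (6 * κ + 8)) n w := by
  classical
  set m : ℕ := (2 * κ + 2) * (n + 1) with hm
  set a : ℕ := κ * (n + 1) with ha
  set a' : ℕ := (6 * κ + 7) * (n + 1) with ha'
  set T₀ : List Bool := tt L n with hT₀
  have hT₀l : T₀.length = 2 ^ n := length_tt L n
  have hma : 2 * a + 2 ≤ m := by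
    rw [hm, ha]
    nlinarith
  have h1 : agr S (codeK κ L) m = ((range (2 ^ m)).filter fun j =>
      bs m j ∈ S ↔ cbj a (qp (2 ^ a)) T₀ j = true).card := by
    unfold agr
    exact ncard_str m _ (fun j => bs m j ∈ S ↔ cbj a (qp (2 ^ a)) T₀ j = true)
      (fun j => by rw [mem_codeK (n := n) (length_bs m j), cd_bs hma hT₀l])
  have h2 := agr_count (2 ^ m) (fun j => bs m j ∈ S) (fun j => cbj a (qp (2 ^ a)) T₀ j = true)
  have h3 := card_cbj a (qp (2 ^ a)) m hma T₀
  rw [h1] at hcl
  obtain ⟨θ, z, v, hθ, hz, hv, k1, k2, k3⟩ := exists_advice (D := 2 ^ (h * (n + 1))) hm ha ha' hh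
    hhc rfl (fun j => bs m j ∈ S) hT₀l (by omega)
  set M : ℕ := a' + 1 with hM
  set f : ℕ → Bool := fun p => if p < M then θ.testBit p else if p < 2 * M then
    z.testBit (p - M) else v.testBit (p - 2 * M) with hf
  set w : List Bool := (List.range (3 * (6 * κ + 8) * (n + 1))).map f with hw
  have hlen : 3 * M ≤ 3 * (6 * κ + 8) * (n + 1) := by
    rw [hM, ha']
    nlinarith
  have hwg : ∀ p < 3 * M, w.getD p false = f p := by
    intro p hp
    rw [hw, List.getD_eq_getElem _ _ (by simp; omega)]
    simp
  have hp0 : prt M w 0 = θ := by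
    unfold prt
    have : (List.range M).map (fun j => w.getD (0 * M + j) false) =
        (List.range M).map fun p => θ.testBit p := by
      apply List.map_congr_left
      intro j hj
      rw [List.mem_range] at hj
      rw [hwg _ (by omega), hf]
      simp [hj]
    rw [this, valB_low, Nat.mod_eq_of_lt hθ]
  have hp1 : prt M w 1 = z := by
    unfold prt
    have : (List.range M).map (fun j => w.getD (1 * M + j) false) =
        (List.range M).map fun p => z.testBit p := by
      apply List.map_congr_left
      intro j hj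
      rw [List.mem_range] at hj
      rw [hwg _ (by omega), hf]
      simp only [one_mul]
      rw [if_neg (by omega), if_pos (by omega), Nat.add_sub_cancel_left]
    rw [this, valB_low, Nat.mod_eq_of_lt hz]
  have hp2 : prt M w 2 = v := by
    unfold prt
    have : (List.range M).map (fun j => w.getD (2 * M + j) false) =
        (List.range M).map fun p => v.testBit p := by
      apply List.map_congr_left
      intro j hj
      rw [List.mem_range] at hj
      rw [hwg _ (by omega), hf]
      simp only
      rw [if_neg (by omega), if_neg (by omega), Nat.add_sub_cancel_left]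
    rw [this, valB_low, Nat.mod_eq_of_lt hv]
  have hcnt : ∀ T : List Bool, T.length = 2 ^ n →
      Set.ncard {j : ℕ | j < 2 ^ m ∧ bs m j ∈ {y | y ∈ S ∧ cd κ n T y = true}} =
      ((range (2 ^ m)).filter fun j => bs m j ∈ S ∧ cbj a (qp (2 ^ a)) T j = true).card := by
    intro T hT
    refine ncard_lt _ _ _ (fun j => ?_)
    rw [Set.mem_ofPred_eq, cd_bs hma hT]
  refine ⟨w, by simp [hw], fun x hx => ?_⟩
  unfold decA
  simp only [Set.mem_ofPred_eq, unpair_pairBits]
  rw [hx, ← ha', ← hM, hp0, hp1, hp2]
  constructor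
  · rintro ⟨T, t1, t2, t3, t4⟩
    have hTT : T = T₀ := by
      apply k3 T t1
      · have t5 := hcnt T t1
        simp only [Set.mem_ofPred_eq] at t5
        rw [t5] at t2
        exact t2
      · rw [pow_table t1] at t3
        exact t3
    rw [hTT] at t4
    exact (getD_tt L hx).1 t4
  · intro hxL
    refine ⟨T₀, hT₀l, ?_, ?_, (getD_tt L hx).2 hxL⟩
    · have t5 := hcnt T₀ hT₀l
      simp only [Set.mem_ofPred_eq] at t5
      rw [t5]
      exact k1
    · rw [pow_table hT₀l]
      exact k2

/-! ### The advice as a language -/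

/-- the largest power of `2 ^ b` below -/
def NN (b n : ℕ) : ℕ := 2 ^ (b * ((n.size - 1) / b))

theorem NN_eq {b i t : ℕ} (ht : t + 2 ^ (b * i) < 2 ^ (b * (i + 1))) :
    NN b (2 ^ (b * i) + t) = 2 ^ (b * i) := by
  have hb : 0 < b := by
    rcases Nat.eq_zero_or_pos b with h | h
    · subst h
      simp at ht
    · exact h
  have h1 : b * i < (2 ^ (b * i) + t).size := Nat.lt_size.2 (by omega)
  have h2 : (2 ^ (b * i) + t).size ≤ b * (i + 1) := Nat.size_le.2 (by omega)
  have h3 : ((2 ^ (b * i) + t).size - 1) / b = i := by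
    apply Nat.div_eq_of_lt_le
    · rw [mul_comm i b]; omega
    · rw [mul_comm (i + 1) b]; omega
  unfold NN
  rw [h3]

theorem NN_le (b n : ℕ) : NN b n ≤ n + 1 := by
  unfold NN
  rcases Nat.eq_zero_or_pos n with h | h
  · subst h
    simp
  · have h1 : 0 < n.size := Nat.size_pos.2 h
    have h2 : b * ((n.size - 1) / b) ≤ n.size - 1 := Nat.mul_div_le _ _
    have h3 : 2 ^ (b * ((n.size - 1) / b)) ≤ n := Nat.lt_size.1 (by omega)
    omega

variable {α : Type} [TEnc α]

theorem uPoly_size {n : α → ℕ} (hn : Poly n) : UPoly (fun a => (n a).size) :=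
  (UPoly.length (Poly.natBits hn)).congr fun a => by
    beta_reduce
    rw [Nat.size_eq_bits_len]

theorem uPoly_NN (b : ℕ) {n : α → ℕ} (hn : UPoly n) : UPoly (fun a => NN b (n a)) := by
  have h1 : UPoly (fun a => b * (((n a).size - 1) / b)) := by
    refine UPoly.mul (UPoly.const b) (UPoly.of_le (Poly.div (Poly.sub
      (uPoly_size hn.toPoly).toPoly (NPC.Poly.const 1)) (NPC.Poly.const b))
      (uPoly_size hn.toPoly) fun a => ?_)
    exact (Nat.div_le_self _ _).trans (Nat.sub_le _ _)
  exact UPoly.of_le (A4.poly_two_pow h1) (UPoly.add hn (UPoly.const 1)) fun a => NN_le b (n a)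

/-- bit number `t` of `w`, followed by the complement of `w` -/
def wbit (w : List Bool) (t : ℕ) : Bool := (w ++ w.map fun c => !c).getD t false

theorem poly_wbit {w : α → List Bool} {t : α → ℕ} (hw : Poly w) (ht : Poly t) :
    Poly (fun a => wbit (w a) (t a)) := by
  unfold wbit
  exact Poly.getD (Poly.append hw (NPC.Poly.map (F := fun _ c => !c) hw
    (Poly.not (Poly.snd Poly.id)))) ht (NPC.Poly.const false)

/-- the language of the bits of the first good advice -/
def advK (L' L : Set (List Bool)) (c b : ℕ) : Set (List Bool) :=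
  {y | ∃ w, goodW L' L c (NN b y.length) w ∧
    (∀ w', goodW L' L c (NN b y.length) w' → valB w ≤ valB w') ∧
    wbit w (y.length - NN b y.length) = true}

theorem InSpace.advK (hE : Good E) (hE2 : Good2 E) {L' L : Set (List Bool)}
    (hL' : InSpace E A L') (hL : InSpace E A L) (c b : ℕ) : InSpace E A (advK L' L c b) := by
  have p1 : Poly (fun v : List Bool => (unpair v).1) := Poly.fst poly_unpair
  have p2 : Poly (fun v : List Bool => (unpair v).2) := Poly.snd poly_unpair
  have p21 : Poly (fun v : List Bool => (unpair (unpair v).2).1) := p1.comp p2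
  have p22 : Poly (fun v : List Bool => (unpair (unpair v).2).2) := p2.comp p2
  have uN : UPoly (fun u : List Bool => NN b (unpair u).2.length) := uPoly_NN b (UPoly.length p2)
  have uN2 : UPoly (fun v : List Bool => NN b (unpair (unpair v).2).2.length) := uN.comp p2
  -- bad strings `z`
  have pr : Poly (fun v : List Bool =>
      decide ((unpair v).1.length = NN b (unpair (unpair v).2).2.length)) :=
    Poly.decide_eq (Poly.length p1) uN2.toPoly
  have pzw : Poly (fun v : List Bool => pairBits (unpair v).1 (unpair (unpair v).2).1) :=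
    poly_pairBits p1 p21
  have lzw : ∀ v : List Bool, (pairBits (unpair v).1 (unpair (unpair v).2).1).length ≤
      2 * (v.length + 2) := by
    intro v
    rw [Pool.Agent.H620R2.Gauge.length_pairBits]
    have e1 := unpair_len v
    have e2 := unpair_len (unpair v).2
    omega
  have A1 := InSpace.twist hE2 hL' (f := fun _ => true) pzw pr (NPC.Poly.const true) 2 lzw
  have A1' := InSpace.twist hE2 hL' (f := fun _ => false) pzw pr (NPC.Poly.const false) 2 lzw
  have lz : ∀ v : List Bool, (unpair v).1.length ≤ 1 * (v.length + 2) := by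
    intro v
    have e1 := unpair_len v
    omega
  have A2 := InSpace.precomp hE2 hL (r := fun _ => true) p1 (NPC.Poly.const true) 1 lz
  have hBad := InSpace.union hE hE2 (InSpace.inter hE hE2 A1 (InSpace.compl hE2 A2))
    (InSpace.inter hE hE2 A1' A2)
  have hG0 := InSpace.exists_lin hE hE2 hBad 1
  -- the good advices
  have pr' : Poly (fun u : List Bool =>
      decide ((unpair u).1.length = c * (NN b (unpair u).2.length + 1))) :=
    Poly.decide_eq (Poly.length p1) (UPoly.mul (UPoly.const c) (UPoly.add uN
      (UPoly.const 1))).toPoly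
  have hGd' := InSpace.precomp hE2 (InSpace.compl hE2 hG0) (g := fun u => u) Poly.id pr' 1
    (fun u => by omega)
  have hGd : InSpace E A {u | goodW L' L c (NN b (unpair u).2.length) (unpair u).1} := by
    refine (congrArg (InSpace E A) (Set.ext fun u => ?_)).mp hGd'
    simp only [Set.mem_ofPred_eq, Set.mem_compl_iff, Set.mem_union, Set.mem_inter_iff,
      unpair_pairBits, decide_eq_true_iff, goodW, iff_true, true_and, Bool.false_eq_true,
      iff_false, not_exists, not_and]
    refine and_congr_right fun hu => ?_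
    constructor
    · intro h z hz
      have hzl : z.length ≤ 1 * (u.length + 2) := by
        have e1 := unpair_len u
        have e2 := NN_le b (unpair u).2.length
        omega
      have h1 := h z hzl
      simp only [hz, true_and] at h1
      tauto
    · intro h z _ hz
      rcases hz with ⟨⟨h1, h2⟩, h3⟩ | ⟨⟨h1, h2⟩, h3⟩
      · exact h3 ((h z h1).1 h2)
      · exact h2 ((h z h1).2 h3)
  -- the first good advice
  have pr3 : Poly (fun v : List Bool =>
      decide (valB (unpair v).1 < valB (unpair (unpair v).2).1)) :=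
    Poly.decide_lt (Poly.valBits p1) (Poly.valBits p21)
  have B3 := InSpace.precomp hE2 hGd (poly_pairBits p1 p22) pr3 2 (by
    intro v
    rw [Pool.Agent.H620R2.Gauge.length_pairBits]
    have e1 := unpair_len v
    have e2 := unpair_len (unpair v).2
    omega)
  have hG2 := InSpace.exists_lin hE hE2 B3 c
  have hFst := InSpace.inter hE hE2 hGd (InSpace.compl hE2 hG2)
  have pr4 : Poly (fun u : List Bool =>
      wbit (unpair u).1 ((unpair u).2.length - NN b (unpair u).2.length)) :=
    poly_wbit p1 (Poly.sub (Poly.length p2) uN.toPoly)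
  have hF3 := InSpace.precomp hE2 hFst (g := fun u => u) Poly.id pr4 1 (fun u => by omega)
  have hK := InSpace.exists_lin hE hE2 hF3 c
  refine (congrArg (InSpace E A) (Set.ext fun y => ?_)).mp hK
  simp only [Set.mem_ofPred_eq, Set.mem_inter_iff, Set.mem_compl_iff, unpair_pairBits,
    decide_eq_true_iff, not_exists, not_and, WA.advK]
  have hNy := NN_le b y.length
  constructor
  · rintro ⟨w, -, h1, h2, h3⟩
    refine ⟨w, h2, fun w' hw' => ?_, h1⟩
    by_contra hcon
    push Not at hcon
    refine h3 w' ?_ hcon hw'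
    rw [hw'.1, Pool.Agent.H620R2.Gauge.length_pairBits]
    exact Nat.mul_le_mul_left _ (by omega)
  · rintro ⟨w, h1, h2, h3⟩
    refine ⟨w, ?_, h3, h1, fun w' _ hlt hw' => ?_⟩
    · rw [h1.1]
      exact Nat.mul_le_mul_left _ (by omega)
    · have := h2 w' hw'
      omega

theorem exists_first {L' L : Set (List Bool)} {c b i : ℕ}
    (h : ∃ w, goodW L' L c (2 ^ (b * i)) w) :
    ∃ w, goodW L' L c (2 ^ (b * i)) w ∧ ∀ t, t + 2 ^ (b * i) < 2 ^ (b * (i + 1)) →
      ∀ y : List Bool, y.length = 2 ^ (b * i) + t → (y ∈ advK L' L c b ↔ wbit w t = true) := by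
  classical
  obtain ⟨w0, hw0⟩ := h
  have hex : ∃ k, ∃ w, goodW L' L c (2 ^ (b * i)) w ∧ valB w = k := ⟨_, w0, hw0, rfl⟩
  obtain ⟨w, hw, hwk⟩ := Nat.find_spec hex
  have hmin : ∀ w', goodW L' L c (2 ^ (b * i)) w' → valB w ≤ valB w' := by
    intro w' hw'
    rw [hwk]
    exact Nat.find_min' hex ⟨w', hw', rfl⟩
  refine ⟨w, hw, fun t ht y hy => ?_⟩
  unfold advK
  rw [Set.mem_ofPred_eq, hy, NN_eq ht, Nat.add_sub_cancel_left]
  constructor
  · rintro ⟨w', h1, h2, h3⟩
    have h4 : valB w = valB w' := le_antisymm (hmin w' h1) (h2 w hw)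
    have h5 : w = w' := by
      rw [← bs_valB (hw.1.trans h1.1.symm), h4, bs_valB rfl]
    rw [h5]
    exact h3
  · intro h1
    exact ⟨w, hw, hmin, h1⟩

end Pool.Agent.J4H22.WA
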