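import Pool.Agent.J4H22.WA.Code
import Pool.Agent.H622R2.Exp.A4
import Pool.Agent.H671R2.PolyAuto

/-!
# The code bits are computable in polynomial time from the truth table
-/

set_option autoImplicit false

namespace Pool.Agent.J4H22.WA

open Pool.Agent.NPC Pool.Agent.H620R2.Gauge Pool.Agent.H622R2.Exp

variable {α : Type} [TEnc α]

theorem poly_isP {B : α → ℕ} (hB : UPoly B) {p : α → ℕ} (hp : Poly p) :
    Poly (fun a => isP (B a) (p a)) := by
  have h1 : Poly (fun x : α × ℕ => p x.1) := hp.comp (Poly.fst Poly.id)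
  unfold isP
  refine Poly.and (Poly.decide_le (NPC.Poly.const 2) hp) (Poly.all (p := fun a d =>
    decide (d < 2) || (decide (p a ≤ d) || !decide (p a % d = 0))) (UPoly.range hB) ?_)
  exact Poly.or (Poly.decide_lt (Poly.snd Poly.id) (NPC.Poly.const 2))
    (Poly.or (Poly.decide_le h1 (Poly.snd Poly.id))
      (Poly.not (Poly.decide_eq (Poly.mod h1 (Poly.snd Poly.id)) (NPC.Poly.const 0))))

theorem poly_qp {K : α → ℕ} (hK : UPoly K) : Poly (fun a => qp (K a)) := by
  have h2 : UPoly (fun a => 2 * K a + 1) := UPoly.add (UPoly.mul (UPoly.const 2) hK) (UPoly.const 1)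
  unfold qp
  refine Poly.optGetD (Poly.head? (Poly.filter (p := fun a p =>
    decide (K a < p) && isP (2 * K a + 1) p) (UPoly.range h2) ?_)) (NPC.Poly.const 0)
  exact Poly.and (Poly.decide_lt (hK.toPoly.comp (Poly.fst Poly.id)) (Poly.snd Poly.id))
    (poly_isP (h2.comp (Poly.fst Poly.id)) (Poly.snd Poly.id))

theorem poly_pv {q z : α → ℕ} {T : α → List Bool} (hq : Poly q) (hz : Poly z) (hT : Poly T)
    (h0 : ∀ a, T a ≠ [] → 0 < q a) : Poly (fun a => pv (q a) (z a) (T a)) := by
  obtain ⟨r, hr⟩ := hq.sz_le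
  unfold pv
  refine Poly.foldr (F := fun a b acc => ((if b then 1 else 0) + z a * acc) % q a) hT
    (NPC.Poly.const 0) ?_ (Polynomial.C 2 * r + Polynomial.C 1) ?_
  · have h1 : Poly (fun p : α × Bool × ℕ => (if p.2.1 = true then 1 else 0 : ℕ)) :=
      Poly.ite (Poly.decide_bool (Poly.fst (Poly.snd Poly.id))) (NPC.Poly.const 1)
        (NPC.Poly.const 0)
    exact Poly.mod (Poly.add h1 (Poly.mul (hz.comp (Poly.fst Poly.id))
      (Poly.snd (Poly.snd Poly.id)))) (hq.comp (Poly.fst Poly.id))
  · intro a k _
    have h2 : ((T a).drop k).foldr (fun b acc => ((if b then 1 else 0) + z a * acc) % q a) 0 ≤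
        q a := by
      cases hd : (T a).drop k with
      | nil => simp
      | cons b l =>
        have h3 : T a ≠ [] := by
          intro h4
          rw [h4] at hd
          simp at hd
        rw [List.foldr_cons]
        exact (Nat.mod_lt _ (h0 a h3)).le
    have h3 := sz_nat_mono_le h2
    have h4 := hr a
    simp only [Polynomial.eval_add, Polynomial.eval_mul, Polynomial.eval_C]
    omega

theorem poly_xf {l : α → List ℕ} {f : α → ℕ → Bool} (hl : Poly l)
    (hf : Poly (fun p : α × ℕ => f p.1 p.2)) : Poly (fun a => xf (f a) (l a)) := by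
  unfold xf
  refine Poly.foldr (F := fun a i acc => (f a i ^^ acc)) hl (NPC.Poly.const false) ?_
    (Polynomial.C 3) ?_
  · exact Poly.xor (hf.comp (Poly.pair (Poly.fst Poly.id) (Poly.fst (Poly.snd Poly.id))))
      (Poly.snd (Poly.snd Poly.id))
  · intro a k _
    rw [Polynomial.eval_C]
    exact sz_bool_le _

theorem poly_bs {m j : α → ℕ} (hm : UPoly m) (hj : Poly j) :
    Poly (fun a => bs (m a) (j a)) := by
  have h : Poly (fun a => (List.range (m a)).map fun p => (j a).bits.getD p false) :=
    NPC.Poly.map (F := fun a p => (j a).bits.getD p false) (UPoly.range hm)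
      (Poly.getD ((Poly.natBits hj).comp (Poly.fst Poly.id)) (Poly.snd Poly.id)
        (NPC.Poly.const false))
  refine h.congr fun a => ?_
  unfold bs
  apply List.map_congr_left
  intro p _
  exact getD_bits _ _

theorem poly_cb (k : ℕ) {n : α → ℕ} {T y : α → List Bool} (hn : UPoly n) (hT : Poly T)
    (hy : Poly y) : Poly (fun a => cb k (n a) (T a) (y a)) := by
  have hK : UPoly (fun a => (T a).length * 2 ^ k) := UPoly.mul (UPoly.length hT) (UPoly.const _)
  have hnk : UPoly (fun a => n a + k) := UPoly.add hn (UPoly.const k)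
  have hz : Poly (fun a => valB ((List.range (n a + k)).map fun i => (y a).getD i false)) :=
    Poly.valBits (NPC.Poly.map (F := fun a i => (y a).getD i false) (UPoly.range hnk)
      (Poly.getD (hy.comp (Poly.fst Poly.id)) (Poly.snd Poly.id) (NPC.Poly.const false)))
  have hpv := poly_pv (poly_qp hK) hz hT (by
    intro a ha
    have h1 : (T a).length * 2 ^ k ≠ 0 := by
      have h2 : (T a).length ≠ 0 := fun h => ha (List.length_eq_zero_iff.1 h)
      positivity
    exact (qp_spec h1).1.pos)
  unfold cb
  refine Poly.xor (poly_xf (f := fun a i => (pv (qp ((T a).length * 2 ^ k))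
    (valB ((List.range (n a + k)).map fun i => (y a).getD i false)) (T a)).bits.getD i false &&
      (y a).getD (n a + k + i) false) (UPoly.range (UPoly.add hnk (UPoly.const 1))) ?_) ?_
  · exact Poly.and (Poly.getD ((Poly.natBits hpv).comp (Poly.fst Poly.id)) (Poly.snd Poly.id)
      (NPC.Poly.const false)) (Poly.getD (hy.comp (Poly.fst Poly.id))
        (Poly.add (hnk.toPoly.comp (Poly.fst Poly.id)) (Poly.snd Poly.id)) (NPC.Poly.const false))
  · exact Poly.getD hy (Poly.add (Poly.mul (NPC.Poly.const 2) hnk.toPoly) (NPC.Poly.const 1))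
      (NPC.Poly.const false)

end Pool.Agent.J4H22.WA
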