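import Pool.Agent.NPC.Num

/-!
# A code for truth tables with half of the bits true and quarter of the bits true for two tables

The code bit of the truth table `T` at the string `y`: the first `a` bits of `y` are a number `z`,
the table gives a polynomial, whose value at `z` modulo a prime number `q` between `2 ^ a` and
`2 ^ (a + 1)` has at most `a + 1` binary digits; take the inner product of these with the next
`a + 1` bits of `y`, and add the next bit of `y`.
-/

set_option autoImplicit false

namespace Pool.Agent.J4H22.WA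

open Pool.Agent.NPC Finset

/-- the string number `j` of length `m` (lowest digit first) -/
def bs (m j : ℕ) : List Bool := (List.range m).map fun p => j.testBit p

/-- the value modulo `q` at `z` of the polynomial with the coefficients `T` -/
def pv (q z : ℕ) (T : List Bool) : ℕ :=
  T.foldr (fun b acc => ((if b then 1 else 0) + z * acc) % q) 0

/-- the exclusive or of the values of `f` -/
def xf (f : ℕ → Bool) (l : List ℕ) : Bool := l.foldr (fun i acc => f i ^^ acc) false

/-- a test for prime numbers below `B` -/
def isP (B p : ℕ) : Bool :=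
  decide (2 ≤ p) && (List.range B).all fun d =>
    decide (d < 2) || (decide (p ≤ d) || !decide (p % d = 0))

/-- the least prime number above `K` -/
def qp (K : ℕ) : ℕ :=
  ((List.range (2 * K + 1)).filter fun p => decide (K < p) && isP (2 * K + 1) p).head?.getD 0

/-- the code bit of the table `T` at the string number `j` -/
def cbj (a q : ℕ) (T : List Bool) (j : ℕ) : Bool :=
  xf (fun i => (pv q (j % 2 ^ a) T).testBit i && j.testBit (a + i)) (List.range (a + 1)) ^^
    j.testBit (2 * a + 1)

/-- the code bit of the table `T` (of length `2 ^ n`) at the string `y` -/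
def cb (k n : ℕ) (T y : List Bool) : Bool :=
  xf (fun i => (pv (qp (T.length * 2 ^ k))
    (valB ((List.range (n + k)).map fun i => y.getD i false)) T).bits.getD i false &&
      y.getD (n + k + i) false) (List.range (n + k + 1)) ^^ y.getD (2 * (n + k) + 1) false

/-! ### Strings and numbers -/

theorem length_bs (m j : ℕ) : (bs m j).length = m := by simp [bs]

theorem getD_bs {m j i : ℕ} (h : i < m) : (bs m j).getD i false = j.testBit i := by
  simp [bs, List.getD_eq_getElem?_getD, h]

theorem testBit_valB (l : List Bool) (i : ℕ) : (valB l).testBit i = l.getD i false := by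
  induction l generalizing i with
  | nil => simp
  | cons b l ih =>
    cases i with
    | zero =>
      rw [Nat.testBit_zero, valB_cons]
      cases b <;> simp [Nat.add_mod]
    | succ i =>
      rw [Nat.testBit_succ, valB_cons]
      have h : ((if b then 1 else 0) + 2 * valB l) / 2 = valB l := by
        cases b
        · simp
        · simp only [if_true]
          omega
      rw [h, ih]
      simp

theorem valB_bs {m j : ℕ} (hj : j < 2 ^ m) : valB (bs m j) = j := by
  apply Nat.eq_of_testBit_eq
  intro i
  rw [testBit_valB]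
  rcases Nat.lt_or_ge i m with h | h
  · exact getD_bs h
  · rw [List.getD_eq_default _ _ (by rw [length_bs]; exact h)]
    symm
    exact Nat.testBit_eq_false_of_lt (hj.trans_le (Nat.pow_le_pow_right (by norm_num) h))

theorem bs_valB {m : ℕ} {y : List Bool} (hy : y.length = m) : bs m (valB y) = y := by
  apply List.ext_getElem
  · rw [length_bs, hy]
  · intro i h1 h2
    have h3 : (bs m (valB y)).getD i false = y.getD i false := by
      rw [getD_bs (by omega), testBit_valB]
    rw [List.getD_eq_getElem _ _ h1, List.getD_eq_getElem _ _ h2] at h3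
    exact h3

theorem bs_inj {m j j' : ℕ} (hj : j < 2 ^ m) (hj' : j' < 2 ^ m) (h : bs m j = bs m j') : j = j' := by
  rw [← valB_bs hj, ← valB_bs hj', h]

theorem valB_low (a j : ℕ) :
    valB ((List.range a).map fun p => j.testBit p) = j % 2 ^ a := by
  apply Nat.eq_of_testBit_eq
  intro i
  rw [testBit_valB, Nat.testBit_mod_two_pow]
  by_cases h : i < a
  · simp [List.getD_eq_getElem?_getD, h]
  · rw [List.getD_eq_default _ _ (by simp; omega)]
    simp [h]

theorem getD_bits (n i : ℕ) : n.bits.getD i false = n.testBit i := by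
  rw [← testBit_valB, valB_bits]

theorem cb_bs {k n m : ℕ} (hm : 2 * (n + k) + 2 ≤ m) (T : List Bool) (j : ℕ) :
    cb k n T (bs m j) = cbj (n + k) (qp (T.length * 2 ^ k)) T j := by
  have h1 : ((List.range (n + k)).map fun i => (bs m j).getD i false) =
      (List.range (n + k)).map fun p => j.testBit p := by
    apply List.map_congr_left
    intro i hi
    rw [List.mem_range] at hi
    exact getD_bs (by omega)
  unfold cb cbj
  rw [h1, valB_low, getD_bs (by omega)]
  congr 1
  unfold xf
  apply List.foldr_ext
  intro i hi b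
  rw [List.mem_range] at hi
  beta_reduce
  rw [getD_bits, getD_bs (by omega)]

/-! ### The prime number -/

theorem isP_iff {B p : ℕ} (hB : p < B) : isP B p = true ↔ p.Prime := by
  unfold isP
  rw [Bool.and_eq_true, decide_eq_true_iff, List.all_eq_true]
  constructor
  · rintro ⟨h1, h2⟩
    rw [Nat.prime_def_lt']
    refine ⟨h1, fun d hd hdp hdvd => ?_⟩
    have h3 := h2 d (List.mem_range.2 (hdp.trans hB))
    simp only [Bool.or_eq_true, decide_eq_true_iff, Bool.not_eq_true', decide_eq_false_iff_not] at h3
    rcases h3 with h3 | h3 | h3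
    · omega
    · omega
    · exact h3 (Nat.mod_eq_zero_of_dvd hdvd)
  · intro hp
    refine ⟨hp.two_le, fun d _ => ?_⟩
    simp only [Bool.or_eq_true, decide_eq_true_iff, Bool.not_eq_true', decide_eq_false_iff_not]
    by_contra hcon
    push Not at hcon
    have h4 : d ∣ p := Nat.dvd_of_mod_eq_zero hcon.2.2
    rcases (Nat.dvd_prime hp).1 h4 with h5 | h5 <;> omega

theorem qp_spec {K : ℕ} (hK : K ≠ 0) : (qp K).Prime ∧ K < qp K ∧ qp K ≤ 2 * K := by
  obtain ⟨p, hp, h1, h2⟩ := Nat.exists_prime_lt_and_le_two_mul K hK
  have h3 : p ∈ (List.range (2 * K + 1)).filter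
      fun p => decide (K < p) && isP (2 * K + 1) p := by
    rw [List.mem_filter, List.mem_range, Bool.and_eq_true, decide_eq_true_iff]
    exact ⟨by omega, h1, (isP_iff (by omega)).2 hp⟩
  unfold qp
  cases h : (List.range (2 * K + 1)).filter fun p => decide (K < p) && isP (2 * K + 1) p with
  | nil => rw [h] at h3; simp at h3
  | cons x l =>
    have h4 : x ∈ (List.range (2 * K + 1)).filter
        fun p => decide (K < p) && isP (2 * K + 1) p := by
      rw [h]; simp
    rw [List.mem_filter, List.mem_range, Bool.and_eq_true, decide_eq_true_iff] at h4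
    simp only [List.head?_cons, Option.getD_some]
    exact ⟨(isP_iff h4.1).1 h4.2.2, h4.2.1, by omega⟩

/-! ### The polynomial -/

/-- the polynomial of the table -/
noncomputable def pol (R : Type*) [CommRing R] (T : List Bool) : Polynomial R :=
  T.foldr (fun b acc => Polynomial.C (if b then 1 else 0) + Polynomial.X * acc) 0

theorem coeff_pol (R : Type*) [CommRing R] (T : List Bool) (i : ℕ) :
    (pol R T).coeff i = if T.getD i false then 1 else 0 := by
  induction T generalizing i with
  | nil => simp [pol]
  | cons b T ih =>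
    have h : pol R (b :: T) = Polynomial.C (if b then 1 else 0) + Polynomial.X * pol R T := rfl
    rw [h, Polynomial.coeff_add]
    cases i with
    | zero => cases b <;> simp
    | succ i =>
      rw [Polynomial.coeff_X_mul, ih]
      cases b <;> simp [Polynomial.coeff_one]

theorem eval_pol (q z : ℕ) (T : List Bool) :
    (pol (ZMod q) T).eval (z : ZMod q) = ((pv q z T : ℕ) : ZMod q) := by
  induction T with
  | nil => simp [pol, pv]
  | cons b T ih =>
    have h : pol (ZMod q) (b :: T) =
      Polynomial.C (if b then 1 else 0) + Polynomial.X * pol (ZMod q) T := rfl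
    have h' : pv q z (b :: T) = ((if b then 1 else 0) + z * pv q z T) % q := rfl
    rw [h, h', Polynomial.eval_add, Polynomial.eval_mul, Polynomial.eval_X, Polynomial.eval_C, ih,
      ZMod.natCast_mod]
    cases b <;> simp

theorem pv_lt {q : ℕ} (hq : 0 < q) (z : ℕ) (T : List Bool) : pv q z T < q := by
  cases T with
  | nil => exact hq
  | cons b T => exact Nat.mod_lt _ hq

/-- two tables have the same value in few points -/
theorem few_collisions {a q : ℕ} (hq : q.Prime) (haq : 2 ^ a < q) {T T' : List Bool}
    (hl : T.length = T'.length) (hne : T ≠ T') :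
    ((range (2 ^ a)).filter fun z => pv q z T = pv q z T').card < T.length := by
  have : Fact q.Prime := ⟨hq⟩
  set F : Polynomial (ZMod q) := pol (ZMod q) T - pol (ZMod q) T' with hF
  have hF0 : F ≠ 0 := by
    intro h0
    apply hne
    apply List.ext_getElem hl
    intro i h1 h2
    have h3 : F.coeff i = 0 := by rw [h0]; simp
    rw [hF, Polynomial.coeff_sub, coeff_pol, coeff_pol, List.getD_eq_getElem _ _ h1,
      List.getD_eq_getElem _ _ h2] at h3
    cases h4 : T[i] <;> cases h5 : T'[i] <;> simp [h4, h5] at h3 ⊢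
  have hdeg : F.natDegree < T.length := by
    have h1 : F.degree < (T.length : ℕ) := by
      rw [Polynomial.degree_lt_iff_coeff_zero]
      intro i hi
      rw [hF, Polynomial.coeff_sub, coeff_pol, coeff_pol, List.getD_eq_default _ _ (by omega),
        List.getD_eq_default _ _ (by omega)]
      simp
    exact (Polynomial.natDegree_lt_iff_degree_lt hF0).2 h1
  refine lt_of_le_of_lt ?_ hdeg
  calc ((range (2 ^ a)).filter fun z => pv q z T = pv q z T').card
      ≤ F.roots.toFinset.card := by
        apply Finset.card_le_card_of_injOn (fun z : ℕ => (z : ZMod q))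
        · intro z hz
          have hz' := (Finset.mem_filter.1 hz)
          simp only [Finset.mem_coe, Multiset.mem_toFinset]
          rw [Polynomial.mem_roots hF0, Polynomial.IsRoot.def, hF, Polynomial.eval_sub, eval_pol,
            eval_pol, hz'.2, sub_self]
        · intro z hz z' hz' h
          have h1 := Finset.mem_range.1 (Finset.mem_filter.1 (Finset.mem_coe.1 hz)).1
          have h2 := Finset.mem_range.1 (Finset.mem_filter.1 (Finset.mem_coe.1 hz')).1
          have h3 := (ZMod.natCast_eq_natCast_iff' z z' q).1 h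
          rwa [Nat.mod_eq_of_lt (h1.trans haq), Nat.mod_eq_of_lt (h2.trans haq)] at h3
    _ ≤ Multiset.card F.roots := Multiset.toFinset_card_le _
    _ ≤ F.natDegree := Polynomial.card_roots' F

/-! ### Flips -/

theorem xf_congr {f g : ℕ → Bool} {l : List ℕ} (h : ∀ i ∈ l, f i = g i) : xf f l = xf g l := by
  unfold xf
  apply List.foldr_ext
  intro i hi b
  rw [h i hi]

theorem xf_flip {f g : ℕ → Bool} {i₀ : ℕ} {l : List ℕ} (hl : l.Nodup) (hi : i₀ ∈ l)
    (h : ∀ i ∈ l, i ≠ i₀ → f i = g i) (h0 : f i₀ = !g i₀) : xf f l = !xf g l := by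
  induction l with
  | nil => simp at hi
  | cons x l ih =>
    have e1 : xf f (x :: l) = (f x ^^ xf f l) := rfl
    have e2 : xf g (x :: l) = (g x ^^ xf g l) := rfl
    rw [List.nodup_cons] at hl
    rw [e1, e2]
    by_cases hx : x = i₀
    · subst hx
      rw [h0, xf_congr (f := f) (g := g) (fun i hi' => h i (List.mem_cons_of_mem _ hi')
        (fun e => hl.1 (e ▸ hi')))]
      cases g x <;> cases xf g l <;> rfl
    · have hi' : i₀ ∈ l := by
        rcases List.mem_cons.1 hi with e | e
        · exact absurd e.symm hx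
        · exact e
      rw [h x List.mem_cons_self hx,
        ih hl.2 hi' (fun i hi'' hne => h i (List.mem_cons_of_mem _ hi'') hne)]
      cases g x <;> cases xf g l <;> rfl

theorem testBit_flip (j p i : ℕ) : (j ^^^ 2 ^ p).testBit i = (j.testBit i ^^ decide (p = i)) := by
  rw [Nat.testBit_xor, Nat.testBit_two_pow]

theorem flip_flip (j p : ℕ) : (j ^^^ 2 ^ p) ^^^ 2 ^ p = j := by
  rw [Nat.xor_assoc, Nat.xor_self, Nat.xor_zero]

theorem flip_lt {j p m : ℕ} (hj : j < 2 ^ m) (hp : p < m) : j ^^^ 2 ^ p < 2 ^ m :=
  Nat.xor_lt_two_pow hj (Nat.pow_lt_pow_right (by norm_num) hp)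

theorem flip_mod {j p a : ℕ} (hp : a ≤ p) : (j ^^^ 2 ^ p) % 2 ^ a = j % 2 ^ a := by
  apply Nat.eq_of_testBit_eq
  intro i
  rw [Nat.testBit_mod_two_pow, Nat.testBit_mod_two_pow, testBit_flip]
  by_cases h : i < a
  · have : p ≠ i := by omega
    simp [this]
  · simp [h]

/-- the last bit flips the code bit -/
theorem cbj_flip_last (a q : ℕ) (T : List Bool) (j : ℕ) :
    cbj a q T (j ^^^ 2 ^ (2 * a + 1)) = !cbj a q T j := by
  unfold cbj
  rw [flip_mod (by omega), testBit_flip]
  have h : xf (fun i => (pv q (j % 2 ^ a) T).testBit i && (j ^^^ 2 ^ (2 * a + 1)).testBit (a + i))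
      (List.range (a + 1)) =
      xf (fun i => (pv q (j % 2 ^ a) T).testBit i && j.testBit (a + i)) (List.range (a + 1)) := by
    apply xf_congr
    intro i hi
    rw [List.mem_range] at hi
    rw [testBit_flip]
    have : 2 * a + 1 ≠ a + i := by omega
    simp [this]
  rw [h]
  simp

/-- the other bits flip the code bit iff the digit of the value is one -/
theorem cbj_flip (a q : ℕ) (T : List Bool) (j i₀ : ℕ) (hi : i₀ ≤ a) :
    cbj a q T (j ^^^ 2 ^ (a + i₀)) = (cbj a q T j ^^ (pv q (j % 2 ^ a) T).testBit i₀) := by
  unfold cbj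
  rw [flip_mod (by omega), testBit_flip]
  have h0 : a + i₀ ≠ 2 * a + 1 := by omega
  cases hb : (pv q (j % 2 ^ a) T).testBit i₀ with
  | true =>
    have h : xf (fun i => (pv q (j % 2 ^ a) T).testBit i && (j ^^^ 2 ^ (a + i₀)).testBit (a + i))
        (List.range (a + 1)) =
        !xf (fun i => (pv q (j % 2 ^ a) T).testBit i && j.testBit (a + i)) (List.range (a + 1)) := by
      apply xf_flip (i₀ := i₀) List.nodup_range (List.mem_range.2 (by omega))
      · intro i _ hne
        rw [testBit_flip]
        have : ¬ (a + i₀ = a + i) := by omega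
        rw [decide_eq_false this, Bool.xor_false]
      · rw [testBit_flip, hb]
        simp
    rw [h]
    simp [h0]
  | false =>
    have h : xf (fun i => (pv q (j % 2 ^ a) T).testBit i && (j ^^^ 2 ^ (a + i₀)).testBit (a + i))
        (List.range (a + 1)) =
        xf (fun i => (pv q (j % 2 ^ a) T).testBit i && j.testBit (a + i)) (List.range (a + 1)) := by
      apply xf_congr
      intro i _
      by_cases hne : i = i₀
      · subst hne
        rw [hb]
        simp
      · rw [testBit_flip]
        have : ¬ (a + i₀ = a + i) := by omega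
        rw [decide_eq_false this, Bool.xor_false]
    rw [h]
    simp [h0]

/-! ### The counts -/

/-- half of the code bits are true -/
theorem card_cbj (a q m : ℕ) (hm : 2 * a + 2 ≤ m) (T : List Bool) :
    2 * ((range (2 ^ m)).filter fun j => cbj a q T j = true).card = 2 ^ m := by
  have h1 : ((range (2 ^ m)).filter fun j => cbj a q T j = true).card =
      ((range (2 ^ m)).filter fun j => ¬ cbj a q T j = true).card := by
    refine Finset.card_bij' (fun j _ => j ^^^ 2 ^ (2 * a + 1)) (fun j _ => j ^^^ 2 ^ (2 * a + 1))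
      ?_ ?_ ?_ ?_
    · intro j hj
      rw [mem_filter, mem_range] at hj ⊢
      refine ⟨flip_lt hj.1 (by omega), ?_⟩
      rw [cbj_flip_last, hj.2]
      simp
    · intro j hj
      rw [mem_filter, mem_range] at hj ⊢
      refine ⟨flip_lt hj.1 (by omega), ?_⟩
      rw [cbj_flip_last]
      simpa using hj.2
    · intro j _
      exact flip_flip _ _
    · intro j _
      exact flip_flip _ _
  have h2 := Finset.card_filter_add_card_filter_not (s := range (2 ^ m))
    (fun j => cbj a q T j = true)
  rw [card_range] at h2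
  omega

/-- a quarter of the strings have both code bits true, up to the collisions -/
theorem card_both {a q m : ℕ} (hm : 2 * a + 2 ≤ m) (hq : 0 < q) (hqa : q ≤ 2 * 2 ^ a)
    (T T' : List Bool) :
    4 * ((range (2 ^ m)).filter fun j => cbj a q T j = true ∧ cbj a q T' j = true).card ≤
      2 ^ m + 4 * ((range (2 ^ m)).filter fun j =>
        pv q (j % 2 ^ a) T = pv q (j % 2 ^ a) T').card := by
  classical
  set G := (range (2 ^ m)).filter fun j => ¬ pv q (j % 2 ^ a) T = pv q (j % 2 ^ a) T' with hG
  set B := (range (2 ^ m)).filter fun j => pv q (j % 2 ^ a) T = pv q (j % 2 ^ a) T' with hB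
  -- the digit where the values differ
  have hdig : ∀ P P' : ℕ, P < q → P' < q → P ≠ P' →
      ∃ i, i ≤ a ∧ P.testBit i ≠ P'.testBit i := by
    intro P P' hP hP' hne
    by_contra hcon
    push Not at hcon
    apply hne
    apply Nat.eq_of_testBit_eq
    intro i
    rcases Nat.lt_or_ge a i with hi | hi
    · have h2 : 2 * 2 ^ a ≤ 2 ^ i := by
        rw [mul_comm, ← pow_succ]
        exact Nat.pow_le_pow_right (by norm_num) hi
      rw [Nat.testBit_eq_false_of_lt (by omega), Nat.testBit_eq_false_of_lt (by omega)]
    · exact hcon i hi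
  choose! dg hdg1 hdg2 using hdig
  set d : ℕ → ℕ := fun j => dg (pv q (j % 2 ^ a) T) (pv q (j % 2 ^ a) T') with hd
  have hd1 : ∀ j ∈ G, d j ≤ a ∧
      (pv q (j % 2 ^ a) T).testBit (d j) ≠ (pv q (j % 2 ^ a) T').testBit (d j) := by
    intro j hj
    rw [hG, mem_filter] at hj
    exact ⟨hdg1 _ _ (pv_lt hq _ _) (pv_lt hq _ _) hj.2, hdg2 _ _ (pv_lt hq _ _) (pv_lt hq _ _) hj.2⟩
  -- both bits flipped
  have h1 : (G.filter fun j => cbj a q T j = true ∧ cbj a q T' j = true).card =
      (G.filter fun j => cbj a q T j = false ∧ cbj a q T' j = false).card := by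
    have hGm : ∀ j ∈ G, j ^^^ 2 ^ (2 * a + 1) ∈ G := by
      intro j hj
      rw [hG, mem_filter, mem_range] at hj ⊢
      refine ⟨flip_lt hj.1 (by omega), ?_⟩
      rw [flip_mod (by omega)]
      exact hj.2
    refine Finset.card_bij' (fun j _ => j ^^^ 2 ^ (2 * a + 1)) (fun j _ => j ^^^ 2 ^ (2 * a + 1))
      ?_ ?_ ?_ ?_
    · intro j hj
      rw [mem_filter] at hj ⊢
      refine ⟨hGm j hj.1, ?_⟩
      rw [cbj_flip_last, cbj_flip_last, hj.2.1, hj.2.2]
      simp
    · intro j hj
      rw [mem_filter] at hj ⊢
      refine ⟨hGm j hj.1, ?_⟩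
      rw [cbj_flip_last, cbj_flip_last, hj.2.1, hj.2.2]
      simp
    · intro j _
      exact flip_flip _ _
    · intro j _
      exact flip_flip _ _
  -- one of the bits flipped
  have h2 : (G.filter fun j => cbj a q T j = cbj a q T' j).card =
      (G.filter fun j => ¬ cbj a q T j = cbj a q T' j).card := by
    have hGm : ∀ j ∈ G, j ^^^ 2 ^ (a + d j) ∈ G := by
      intro j hj
      have hj1 := hd1 j hj
      rw [hG, mem_filter, mem_range] at hj ⊢
      refine ⟨flip_lt hj.1 (by omega), ?_⟩
      rw [flip_mod (by omega)]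
      exact hj.2
    have hdd : ∀ j, d (j ^^^ 2 ^ (a + d j)) = d j := by
      intro j
      have h3 : (j ^^^ 2 ^ (a + d j)) % 2 ^ a = j % 2 ^ a := flip_mod (by omega)
      simp only [hd] at h3 ⊢
      rw [h3]
    refine Finset.card_bij' (fun j _ => j ^^^ 2 ^ (a + d j)) (fun j _ => j ^^^ 2 ^ (a + d j))
      ?_ ?_ ?_ ?_
    · intro j hj
      rw [mem_filter] at hj ⊢
      refine ⟨hGm j hj.1, ?_⟩
      have hj1 := hd1 j hj.1
      rw [cbj_flip _ _ _ _ _ hj1.1, cbj_flip _ _ _ _ _ hj1.1, hj.2]
      intro h4
      apply hj1.2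
      simpa using h4
    · intro j hj
      rw [mem_filter] at hj ⊢
      refine ⟨hGm j hj.1, ?_⟩
      have hj1 := hd1 j hj.1
      rw [cbj_flip _ _ _ _ _ hj1.1, cbj_flip _ _ _ _ _ hj1.1]
      have h5 := hj.2
      have h6 := hj1.2
      revert h5 h6
      cases cbj a q T j <;> cases cbj a q T' j <;>
        cases (pv q (j % 2 ^ a) T).testBit (d j) <;>
        cases (pv q (j % 2 ^ a) T').testBit (d j) <;> simp
    · intro j _
      show (j ^^^ 2 ^ (a + d j)) ^^^ 2 ^ (a + d (j ^^^ 2 ^ (a + d j))) = j
      rw [hdd, flip_flip]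
    · intro j _
      show (j ^^^ 2 ^ (a + d j)) ^^^ 2 ^ (a + d (j ^^^ 2 ^ (a + d j))) = j
      rw [hdd, flip_flip]
  have h3 : (G.filter fun j => cbj a q T j = cbj a q T' j).card =
      (G.filter fun j => cbj a q T j = true ∧ cbj a q T' j = true).card +
      (G.filter fun j => cbj a q T j = false ∧ cbj a q T' j = false).card := by
    rw [← Finset.card_union_of_disjoint]
    · congr 1
      ext j
      simp only [mem_filter, mem_union]
      constructor
      · rintro ⟨h, h'⟩
        cases hc : cbj a q T j
        · right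
          exact ⟨h, rfl, by rw [← h', hc]⟩
        · left
          exact ⟨h, rfl, by rw [← h', hc]⟩
      · rintro (⟨h, h', h''⟩ | ⟨h, h', h''⟩) <;> exact ⟨h, by rw [h', h'']⟩
    · rw [Finset.disjoint_left]
      intro j hj hj'
      rw [mem_filter] at hj hj'
      rw [hj.2.1] at hj'
      simp at hj'
  have h4 := Finset.card_filter_add_card_filter_not (s := G)
    (fun j => cbj a q T j = cbj a q T' j)
  have h5 : G.card ≤ 2 ^ m := by
    have := Finset.card_filter_le (range (2 ^ m))
      (fun j => ¬ pv q (j % 2 ^ a) T = pv q (j % 2 ^ a) T')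
    rwa [card_range] at this
  have h6 : ((range (2 ^ m)).filter fun j => cbj a q T j = true ∧ cbj a q T' j = true).card ≤
      (G.filter fun j => cbj a q T j = true ∧ cbj a q T' j = true).card + B.card := by
    rw [← Finset.card_union_of_disjoint]
    · apply Finset.card_le_card
      intro j hj
      rw [mem_filter] at hj
      rw [mem_union, mem_filter, hG, hB, mem_filter, mem_filter]
      by_cases h : pv q (j % 2 ^ a) T = pv q (j % 2 ^ a) T'
      · right; exact ⟨hj.1, h⟩
      · left; exact ⟨⟨hj.1, h⟩, hj.2⟩
    · rw [Finset.disjoint_left]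
      intro j hj hj'
      rw [mem_filter, hG, mem_filter] at hj
      rw [hB, mem_filter] at hj'
      exact hj.1.2 hj'.2
  omega

/-- the number of the collisions -/
theorem card_coll {a q m N : ℕ} (hm : a ≤ m) (hq : q.Prime) (haq : 2 ^ a < q) {T T' : List Bool}
    (hl : T.length = N) (hl' : T'.length = N) (hne : T ≠ T') :
    2 ^ a * ((range (2 ^ m)).filter fun j =>
      pv q (j % 2 ^ a) T = pv q (j % 2 ^ a) T').card ≤ N * 2 ^ m := by
  have h1 := few_collisions hq haq (by rw [hl, hl']) hne
  rw [hl] at h1
  set Z := (range (2 ^ a)).filter fun z => pv q z T = pv q z T' with hZ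
  have h2 : ((range (2 ^ m)).filter fun j =>
      pv q (j % 2 ^ a) T = pv q (j % 2 ^ a) T').card ≤ Z.card * 2 ^ (m - a) := by
    have h3 : Z.card * 2 ^ (m - a) = (Z ×ˢ range (2 ^ (m - a))).card := by
      rw [card_product, card_range]
    rw [h3]
    apply Finset.card_le_card_of_injOn (fun j => (j % 2 ^ a, j / 2 ^ a))
    · intro j hj
      have hj' := Finset.mem_filter.1 (Finset.mem_coe.1 hj)
      have hj1 := Finset.mem_range.1 hj'.1
      rw [Finset.mem_coe, Finset.mem_product, hZ, Finset.mem_filter, Finset.mem_range,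
        Finset.mem_range]
      refine ⟨⟨Nat.mod_lt _ (by positivity), hj'.2⟩, ?_⟩
      rw [Nat.div_lt_iff_lt_mul (by positivity), ← pow_add, Nat.sub_add_cancel hm]
      exact hj1
    · intro j _ j' _ h
      rw [Prod.mk.injEq] at h
      rw [← Nat.mod_add_div j (2 ^ a), ← Nat.mod_add_div j' (2 ^ a), h.1, h.2]
  calc 2 ^ a * _ ≤ 2 ^ a * (Z.card * 2 ^ (m - a)) := Nat.mul_le_mul_left _ h2
    _ = Z.card * 2 ^ m := by
      rw [← mul_assoc, mul_comm (2 ^ a), mul_assoc, ← pow_add, Nat.add_sub_cancel' hm]
    _ ≤ N * 2 ^ m := Nat.mul_le_mul_right _ h1.le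

end Pool.Agent.J4H22.WA
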