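import Pool.Agent.H622R2.Exp.Defs

/-!
# Approximation of languages
-/

set_option autoImplicit false

namespace Pool.Agent.J4H22.WA

/-- The number of the strings of length `n` which are in `L` but not in `S`. -/
noncomputable def diffN (L S : Set (List Bool)) (n : ℕ) : ℕ :=
  Set.ncard {y : List Bool | y.length = n ∧ y ∈ L ∧ y ∉ S}

/-- At length `n`, the language `S` misses at most `α 2 ^ n` of the strings in `L`, and contains at
most `β 2 ^ n` strings which are not in `L`. -/
def Close (α β : ℝ) (L S : Set (List Bool)) (n : ℕ) : Prop :=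
  (diffN L S n : ℝ) ≤ α * 2 ^ n ∧ (diffN S L n : ℝ) ≤ β * 2 ^ n

end Pool.Agent.J4H22.WA
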