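import Pool.Agent.H622R2.Exp.Defs

/-!
# Agreement of languages
-/

set_option autoImplicit false

namespace Pool.Agent.J4H22.WA

/-- The number of the strings of length `n` for which the languages `S` and `L` agree. -/
noncomputable def agr (S L : Set (List Bool)) (n : ℕ) : ℕ :=
  Set.ncard {y : List Bool | y.length = n ∧ (y ∈ S ↔ y ∈ L)}

end Pool.Agent.J4H22.WA
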