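import Pool.Agent.J4H22.WA.Defs2

/-!
# Parities
-/

set_option autoImplicit false

namespace Pool.Agent.J4H22.WA

/-- The strings `x` such that the number of the strings `u` of the same length with `x u ∈ S` is
odd. -/
def par (S : Set (List Bool)) : Set (List Bool) :=
  {x | Odd (Set.ncard {u : List Bool | u.length = x.length ∧ x ++ u ∈ S})}

end Pool.Agent.J4H22.WA
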