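import Pool.Agent.J4H22.WA.Adv
import Pool.Agent.H622R2.Exp.A5

/-!
# Elimination of the advice, and the main theorem
-/

set_option autoImplicit false

namespace Pool.Agent.J4H22.WA

open Pool.Agent.NPC Pool.Agent.H620R2.Gauge Pool.Agent.H622R2.Exp Pool.Agent.H622R2 Finset Filter

variable {E : Set (Polynomial ℕ)} {A : Oracle}

/-! ### Majorities -/

theorem ncard_maj (S : Set (List Bool)) (n : ℕ) :
    Set.ncard {y : List Bool | y.length = n ∧ y ∈ S} =
      Set.ncard {j : ℕ | j < 2 ^ n ∧ bs n j ∈ S} := by
  classical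
  rw [ncard_str n _ (fun j => bs n j ∈ S) (fun j => Iff.rfl),
    ncard_lt (2 ^ n) _ (fun j => bs n j ∈ S) (fun j => Iff.rfl)]

theorem maj_of_full {S K : Set (List Bool)} {n : ℕ} (hK : ∀ y : List Bool, y.length = n → y ∈ K)
    (h : 2 ^ n < 2 * agr S K n) (u : List Bool) (hu : u.length = n) : u ∈ maj S := by
  have h1 : agr S K n = Set.ncard {y : List Bool | y.length = n ∧ y ∈ S} := by
    unfold agr
    congr 1
    ext y
    exact and_congr_right fun hy => by simp [hK y hy]
  unfold maj
  rw [Set.mem_ofPred_eq, hu, ← ncard_maj, ← h1]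
  exact h

theorem not_maj_of_empty {S K : Set (List Bool)} {n : ℕ}
    (hK : ∀ y : List Bool, y.length = n → y ∉ K)
    (h : 2 ^ n < 2 * agr S K n) (u : List Bool) (hu : u.length = n) : u ∉ maj S := by
  classical
  have h1 : agr S K n = ((range (2 ^ n)).filter fun j => ¬ bs n j ∈ S).card := by
    unfold agr
    exact ncard_str n _ _ (fun j => by simp [hK _ (length_bs n j)])
  have h2 : Set.ncard {j : ℕ | j < 2 ^ n ∧ bs n j ∈ S} =
      ((range (2 ^ n)).filter fun j => bs n j ∈ S).card :=
    ncard_lt _ _ _ (fun j => Iff.rfl)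
  have h3 := Finset.card_filter_add_card_filter_not (s := range (2 ^ n)) (fun j => bs n j ∈ S)
  rw [card_range] at h3
  unfold maj
  rw [Set.mem_ofPred_eq, hu, h2]
  omega

/-! ### The machine which guesses and verifies the advice -/

/-- the questions -/
def qs (c : ℕ) (p : List Bool × List Bool) : List (List Bool) :=
  if p.2.length = c * (p.1.length + 1) then
    (true :: pairBits p.1 p.2) :: (((List.range (2 * p.2.length)).filter fun t => wbit p.2 t).map
      fun t => false :: (List.range (p.1.length + min t (2 * p.2.length))).map fun _ => true)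
  else []

theorem poly_qs (c : ℕ) : Poly (qs c) := by
  have p1 : Poly (fun p : List Bool × List Bool => p.1) := Poly.fst Poly.id
  have p2 : Poly (fun p : List Bool × List Bool => p.2) := Poly.snd Poly.id
  have u2 : UPoly (fun p : List Bool × List Bool => 2 * p.2.length) :=
    UPoly.mul (UPoly.const 2) (UPoly.length p2)
  unfold qs
  refine Poly.ite (Poly.decide_eq (Poly.length p2) (UPoly.mul (UPoly.const c)
    (UPoly.add (UPoly.length p1) (UPoly.const 1))).toPoly) ?_ (NPC.Poly.const [])
  refine Poly.cons (Poly.cons (NPC.Poly.const true) (poly_pairBits p1 p2)) ?_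
  refine NPC.Poly.map (F := fun (p : List Bool × List Bool) t =>
    false :: (List.range (p.1.length + min t (2 * p.2.length))).map fun _ => true)
    (Poly.filter (p := fun (p : List Bool × List Bool) t => wbit p.2 t) (UPoly.range u2) ?_) ?_
  · exact poly_wbit (p2.comp (Poly.fst Poly.id)) (Poly.snd Poly.id)
  · have u3 : UPoly (fun x : (List Bool × List Bool) × ℕ => min x.2 (2 * x.1.2.length)) :=
      UPoly.of_le (Poly.min (Poly.snd Poly.id) (u2.comp (Poly.fst Poly.id)).toPoly)
        (u2.comp (Poly.fst Poly.id)) (fun a => min_le_right _ _)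
    have u4 : UPoly (fun x : (List Bool × List Bool) × ℕ =>
        x.1.1.length + min x.2 (2 * x.1.2.length)) :=
      UPoly.add (UPoly.length (p1.comp (Poly.fst Poly.id))) u3
    exact Poly.cons (NPC.Poly.const false) (NPC.Poly.map
      (F := fun (_ : (List Bool × List Bool) × ℕ) (_ : ℕ) => true) (UPoly.range u4)
      (NPC.Poly.const true))

theorem length_qs (c : ℕ) (v g y : List Bool) (hy : y ∈ qs c (v, g)) :
    y.length ≤ (2 * c + 2) * (v.length + 2) := by
  unfold qs at hy
  split_ifs at hy with h
  · simp only at h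
    rcases List.mem_cons.1 hy with rfl | hy
    · rw [List.length_cons, Pool.Agent.H620R2.Gauge.length_pairBits]
      simp only
      rw [h]
      nlinarith
    · rw [List.mem_map] at hy
      obtain ⟨t, -, rfl⟩ := hy
      have h1 : min t (2 * g.length) ≤ 2 * g.length := min_le_right _ _
      rw [List.length_cons, List.length_map, List.length_range]
      simp only
      rw [h] at h1
      rw [h]
      nlinarith
  · simp at hy

theorem adv_elim (hE : Good E) (hE2 : Good2 E) {L L' : Set (List Bool)} (hL : InSpace E A L)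
    (hL' : InNTime E A L') {c b : ℕ} (hb0 : 0 < b) (hb : 4 * c + 1 ≤ 2 ^ b)
    (hgood : ∀ᶠ i in atTop, ∃ w, goodW L' L c (2 ^ (b * i)) w)
    (hmaj : ∀ K, InSpace E A K → ∃ S, InNTime E A S ∧ ∀ᶠ n in atTop, 2 ^ n < 2 * agr S K n) :
    ∃ S, InNTime E A S ∧ ∀ᶠ i in atTop, ∀ z : List Bool, z.length = 2 ^ (b * i) →
      (z ∈ S ↔ z ∈ L) := by
  obtain ⟨S, hS, hSm⟩ := hmaj _ (InSpace.advK hE hE2 (hL'.isSpace hE) hL c b)
  have hj := InNTime.join hE hL' (InNTime.maj hE hE2 hS)
  have h1 := InNTime.guess hE hE2 hj (hE.lin c) (2 * c + 2) (poly_qs c)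
    (Φ := fun p => decide (p.2.length = c * (p.1.length + 1)))
    (Poly.decide_eq (Poly.length (Poly.snd Poly.id)) (UPoly.mul (UPoly.const c)
      (UPoly.add (UPoly.length (Poly.fst Poly.id)) (UPoly.const 1))).toPoly)
    (length_qs c)
  refine ⟨_, h1, ?_⟩
  obtain ⟨n₀, hn₀⟩ := eventually_atTop.1 hSm
  filter_upwards [hgood, eventually_ge_atTop n₀] with i hi hin z hz
  obtain ⟨w, hw, hbits⟩ := exists_first hi
  -- the slices
  have hN1 : 1 ≤ 2 ^ (b * i) := Nat.one_le_two_pow
  have hNi : n₀ ≤ 2 ^ (b * i) := by
    have h2 : i < 2 ^ i := Nat.lt_two_pow_self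
    have h3 : 2 ^ i ≤ 2 ^ (b * i) := Nat.pow_le_pow_right (by norm_num) (by nlinarith)
    omega
  have hrange : ∀ t < 2 * (c * (2 ^ (b * i) + 1)), t + 2 ^ (b * i) < 2 ^ (b * (i + 1)) := by
    intro t ht
    have h2 : 2 ^ (b * (i + 1)) = 2 ^ b * 2 ^ (b * i) := by rw [← pow_add]; congr 1; ring
    rw [h2]
    have h3 : (4 * c + 1) * 2 ^ (b * i) ≤ 2 ^ b * 2 ^ (b * i) := Nat.mul_le_mul_right _ hb
    nlinarith
  have hslice : ∀ t < 2 * (c * (2 ^ (b * i) + 1)), ∀ u : List Bool,
      u.length = 2 ^ (b * i) + t → (u ∈ maj S ↔ wbit w t = true) := by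
    intro t ht u hu
    have h2 := hn₀ (2 ^ (b * i) + t) (by omega)
    have h3 := hbits t (hrange t ht)
    cases hwb : wbit w t with
    | true =>
      simp only [iff_true]
      exact maj_of_full (fun y hy => (h3 y hy).2 hwb) h2 u hu
    | false =>
      simp only [Bool.false_eq_true, iff_false]
      refine not_maj_of_empty (fun y hy hyK => ?_) h2 u hu
      rw [(h3 y hy).1 hyK] at hwb
      simp at hwb
  have hlen : w.length = c * (z.length + 1) := by rw [hz]; exact hw.1
  constructor
  · rintro ⟨g, -, hg, hq⟩
    rw [decide_eq_true_iff] at hg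
    unfold qs at hq
    simp only [hg, if_true] at hq
    rw [← hg] at hq
    -- the guess is right
    have h2 : ∀ t < 2 * g.length, wbit g t = true → wbit w t = true := by
      intro t ht hgt
      have h3 := hq (false :: (List.range (z.length + min t (2 * g.length))).map fun _ => true)
        (List.mem_cons_of_mem _ (List.mem_map.2 ⟨t, List.mem_filter.2
          ⟨List.mem_range.2 ht, hgt⟩, rfl⟩))
      rw [false_mem_jn, min_eq_left (by omega)] at h3
      refine (hslice t ?_ _ ?_).1 h3
      · rw [hg, hz] at ht
        exact ht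
      · simp [hz]
    have hgw : g = w := by
      have hll : g.length = w.length := by rw [hg, hlen]
      apply List.ext_getElem hll
      intro j h3 h4
      have h5 := h2 j (by omega)
      have h6 := h2 (g.length + j) (by omega)
      unfold wbit at h5 h6
      rw [List.getD_eq_getElem _ _ (by simp; omega), List.getD_eq_getElem _ _ (by simp; omega),
        List.getElem_append_left h3, List.getElem_append_left h4] at h5
      rw [List.getD_eq_getElem _ _ (by simp; omega), List.getD_eq_getElem _ _ (by simp; omega),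
        List.getElem_append_right (by omega), List.getElem_append_right (by omega)] at h6
      simp only [List.getElem_map, Bool.not_eq_true', hll, Nat.add_sub_cancel_left] at h6
      cases hgj : g[j] <;> cases hwj : w[j] <;> simp_all
    have h7 := hq _ List.mem_cons_self
    rw [true_mem_jn, hgw] at h7
    exact (hw.2 z hz).1 h7
  · intro hzL
    refine ⟨w, ?_, ?_, ?_⟩
    · rw [hlen]
      have h2 : (Polynomial.C c * (Polynomial.X + 1) : Polynomial ℕ).eval z.length =
          c * (z.length + 1) := by simp
      rw [h2]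
      exact Nat.lt_two_pow_self.le
    · rw [decide_eq_true_iff]
      exact hlen
    · intro y hy
      unfold qs at hy
      rw [if_pos hlen] at hy
      rcases List.mem_cons.1 hy with rfl | hy
      · rw [true_mem_jn]
        exact (hw.2 z hz).2 hzL
      · rw [List.mem_map] at hy
        obtain ⟨t, ht, rfl⟩ := hy
        rw [List.mem_filter, List.mem_range] at ht
        have ht' : t < 2 * w.length := ht.1
        show false :: (List.range (z.length + min t (2 * w.length))).map (fun _ => true) ∈
          jn L' (WA.maj S)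
        rw [false_mem_jn, min_eq_left ht'.le]
        refine (hslice t ?_ _ ?_).2 ht.2
        · rw [← hw.1]
          exact ht'
        · simp [hz]

end Pool.Agent.J4H22.WA
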