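import Pool.Agent.J4H22.WA.Fin

/-!
# Padding to the lengths which are powers of `2 ^ b`, and the main theorem
-/

set_option autoImplicit false

namespace Pool.Agent.J4H22.WA

open Pool.Agent.NPC Pool.Agent.H620R2.Gauge Pool.Agent.H622R2.Exp Pool.Agent.H622R2 Finset Filter

variable {E : Set (Polynomial ℕ)} {A : Oracle}

/-! ### Padding -/

theorem bits_true (x : List Bool) : (valB (x ++ [true])).bits = x ++ [true] := by
  induction x with
  | nil => simp
  | cons b x ih =>
    have h0 : valB (x ++ [true]) ≠ 0 := by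
      intro h
      rw [h] at ih
      simp at ih
    have h1 : (if b then 1 else 0) + 2 * valB (x ++ [true]) = Nat.bit b (valB (x ++ [true])) := by
      cases b <;> simp [Nat.bit] <;> omega
    rw [List.cons_append, valB_cons, h1, Nat.bits_append_bit _ _ (fun h => absurd h h0), ih]

/-- remove the last `true` and everything behind -/
def strip (z : List Bool) : List Bool := (valB z).bits.reverse.tail.reverse

/-- the length after padding -/
def pl (b n : ℕ) : ℕ := 2 ^ (b * (n.size / b + 1))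

/-- the padded string -/
def pd (b : ℕ) (x : List Bool) : List Bool :=
  x ++ (true :: (List.range (pl b x.length - x.length - 1)).map fun _ => false)

theorem valB_zeros (l : List ℕ) : valB (l.map fun _ => false) = 0 := by
  induction l with
  | nil => simp
  | cons a l ih =>
    rw [List.map_cons, valB_cons, ih]
    simp

theorem valB_pd (b : ℕ) (x : List Bool) : valB (pd b x) = valB (x ++ [true]) := by
  unfold pd
  rw [valB_append, valB_append, valB_cons, valB_zeros]
  simp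

theorem valB_pd_ne (b : ℕ) (x : List Bool) : valB (pd b x) ≠ 0 := by
  intro h
  have h1 := bits_true x
  rw [valB_pd] at h
  rw [h] at h1
  simp at h1

theorem strip_pd (b : ℕ) (x : List Bool) : strip (pd b x) = x := by
  unfold strip
  rw [valB_pd, bits_true]
  simp

theorem lt_pl {b : ℕ} (hb : 0 < b) (n : ℕ) : n < pl b n := by
  have h1 : n < 2 ^ n.size := Nat.lt_size_self n
  have h2 : n.size < b * (n.size / b + 1) := Nat.lt_mul_div_succ _ hb
  exact h1.trans (Nat.pow_lt_pow_right (by norm_num) h2)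

theorem length_pd {b : ℕ} (hb : 0 < b) (x : List Bool) : (pd b x).length = pl b x.length := by
  unfold pd
  have := lt_pl hb x.length
  simp
  omega

theorem two_pow_size_le (n : ℕ) : 2 ^ n.size ≤ 2 * (n + 1) := by
  rcases Nat.eq_zero_or_pos n with h | h
  · subst h
    simp
  · have h1 : 0 < n.size := Nat.size_pos.2 h
    have h2 : 2 ^ (n.size - 1) ≤ n := Nat.lt_size.1 (by omega)
    have h3 : 2 ^ n.size = 2 * 2 ^ (n.size - 1) := by
      rw [← pow_succ']
      congr 1
      omega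
    omega

theorem pl_le (b n : ℕ) : pl b n ≤ 2 ^ (b + 1) * (n + 1) := by
  have h1 : b * (n.size / b + 1) ≤ n.size + b := by
    have := Nat.mul_div_le n.size b
    nlinarith
  calc pl b n ≤ 2 ^ (n.size + b) := Nat.pow_le_pow_right (by norm_num) h1
    _ = 2 ^ b * 2 ^ n.size := by rw [pow_add]; ring
    _ ≤ 2 ^ b * (2 * (n + 1)) := Nat.mul_le_mul_left _ (two_pow_size_le n)
    _ = _ := by ring

variable {α : Type} [TEnc α]

theorem uPoly_pl (b : ℕ) {n : α → ℕ} (hn : UPoly n) : UPoly (fun a => pl b (n a)) := by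
  have h1 : UPoly (fun a => b * ((n a).size / b + 1)) := by
    refine UPoly.mul (UPoly.const b) (UPoly.add (UPoly.of_le (Poly.div
      (uPoly_size hn.toPoly).toPoly (NPC.Poly.const b)) (uPoly_size hn.toPoly)
      fun a => Nat.div_le_self _ _) (UPoly.const 1))
  exact UPoly.of_le (A4.poly_two_pow h1) (UPoly.mul (UPoly.const (2 ^ (b + 1)))
    (UPoly.add hn (UPoly.const 1))) fun a => pl_le b (n a)

theorem poly_pd (b : ℕ) : Poly (pd b) := by
  have hx : Poly (fun x : List Bool => x) := Poly.id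
  have h1 : UPoly (fun x : List Bool => pl b x.length - x.length - 1) :=
    UPoly.of_le (Poly.sub (Poly.sub (uPoly_pl b (UPoly.length hx)).toPoly (Poly.length hx))
      (NPC.Poly.const 1)) (uPoly_pl b (UPoly.length hx)) fun a => by omega
  unfold pd
  exact Poly.append hx (Poly.cons (NPC.Poly.const true) (NPC.Poly.map
    (F := fun (_ : List Bool) (_ : ℕ) => false) (UPoly.range h1) (NPC.Poly.const false)))

theorem poly_strip : Poly strip := by
  unfold strip
  exact Poly.reverse (Poly.tail (Poly.reverse (Poly.natBits (Poly.valBits Poly.id))))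

theorem length_strip_le (z : List Bool) : (strip z).length ≤ z.length := by
  unfold strip
  rw [List.length_reverse, List.length_tail, List.length_reverse]
  have h1 := Nat.size_le.2 (valB_lt z)
  have h2 := Nat.size_eq_bits_len (valB z)
  omega

/-- the padded language -/
def padL (L : Set (List Bool)) : Set (List Bool) := {z | decide (¬ valB z = 0) = true ∧ strip z ∈ L}

theorem InSpace.padL (hE2 : Good2 E) {L : Set (List Bool)} (hL : InSpace E A L) :
    InSpace E A (padL L) :=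
  InSpace.precomp hE2 hL poly_strip (Poly.decide_not (Poly.decide_eq (Poly.valBits Poly.id)
    (NPC.Poly.const 0))) 1 fun v => (length_strip_le v).trans (by omega)

theorem pd_mem_padL {b : ℕ} {L : Set (List Bool)} {x : List Bool} : pd b x ∈ padL L ↔ x ∈ L := by
  unfold padL
  rw [Set.mem_ofPred_eq, strip_pd, decide_eq_true_iff]
  exact ⟨fun h => h.2, fun h => ⟨valB_pd_ne b x, h⟩⟩

/-! ### The main theorem -/

theorem exists_params {γ : ℝ} (hγ : γ < 1 / 4) :
    ∃ κ h : ℕ, 3 * κ + 7 ≤ 2 * h ∧ h ≤ 2 * κ + 2 ∧ (h : ℝ) ≤ (1 - γ) * (2 * κ + 2) := by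
  obtain ⟨k, hk⟩ := exists_nat_ge (5 / (1 - 4 * γ))
  have h0 : 0 < 1 - 4 * γ := by linarith
  rw [div_le_iff₀ h0] at hk
  refine ⟨k + 4, (3 * (k + 4) + 8) / 2, by omega, by omega, ?_⟩
  have h1 : (((3 * (k + 4) + 8) / 2 : ℕ) : ℝ) ≤ (3 * ((k : ℝ) + 4) + 8) / 2 := by
    rw [le_div_iff₀ (by norm_num)]
    have h2 : (3 * (k + 4) + 8) / 2 * 2 ≤ 3 * (k + 4) + 8 := Nat.div_mul_le_self _ _
    exact_mod_cast h2
  refine h1.trans ?_
  push_cast
  nlinarith

theorem of_advantage (hE : Good E) (hE2 : Good2 E) {γ : ℝ} (hγ : γ < 1 / 4)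
    (H : ∀ L, InSpace E A L → ∃ S, InNTime E A S ∧
      ∀ᶠ n : ℕ in atTop, (1 / 2 + (2 : ℝ) ^ (-(γ * n))) * 2 ^ n ≤ agr S L n)
    {L : Set (List Bool)} (hL : InSpace E A L) : InNTime E A L := by
  obtain ⟨κ, h, hh, hhc, hhγ⟩ := exists_params hγ
  have hL1 := InSpace.padL hE2 hL
  obtain ⟨S, hS, hSn⟩ := H _ (InSpace.codeK hE hL1 κ)
  have hdec := InNTime.decA hE hE2 hS κ
  obtain ⟨b, hb0, hbb⟩ : ∃ b : ℕ, 0 < b ∧ 4 * (3 * (6 * κ + 8)) + 1 ≤ 2 ^ b :=
    ⟨4 * (3 * (6 * κ + 8)) + 1, Nat.succ_pos _, Nat.lt_two_pow_self.le⟩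
  -- the advice exists
  have hgood : ∀ᶠ i : ℕ in atTop, ∃ w, goodW (decA κ S) (padL L) (3 * (6 * κ + 8))
      (2 ^ (b * i)) w := by
    obtain ⟨n₀, hn₀⟩ := eventually_atTop.1 hSn
    filter_upwards [eventually_ge_atTop n₀] with i hi
    refine exists_good hh hhc ?_
    have h1 : i < 2 ^ i := Nat.lt_two_pow_self
    have h2 : 2 ^ i ≤ 2 ^ (b * i) :=
      Nat.pow_le_pow_right (by norm_num) (Nat.le_mul_of_pos_left i hb0)
    have hni : i ≤ 2 ^ (b * i) := h1.le.trans h2
    clear h1 h2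
    generalize 2 ^ (b * i) = n at hni ⊢
    obtain ⟨m, hm⟩ : ∃ m : ℕ, m = (2 * κ + 2) * (n + 1) := ⟨_, rfl⟩
    rw [← hm]
    have h3 := hn₀ m (by rw [hm]; nlinarith)
    have h4 : (2 : ℝ) ^ (-(γ * m)) * 2 ^ m = 2 ^ ((1 - γ) * m) := by
      rw [← Real.rpow_natCast 2 m, ← Real.rpow_add (by norm_num)]
      congr 1
      ring
    have h5 : (2 : ℝ) ^ (h * (n + 1)) ≤ 2 ^ ((1 - γ) * m) := by
      rw [← Real.rpow_natCast 2 (h * (n + 1))]
      apply Real.rpow_le_rpow_of_exponent_le (by norm_num)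
      have h6 : (m : ℝ) = (2 * κ + 2) * ((n : ℝ) + 1) := by
        rw [hm]
        push_cast
        ring
      rw [h6]
      push_cast
      have h7 : (0 : ℝ) ≤ (n : ℝ) + 1 := by positivity
      calc (h : ℝ) * ((n : ℝ) + 1) ≤ ((1 - γ) * (2 * κ + 2)) * ((n : ℝ) + 1) :=
            mul_le_mul_of_nonneg_right hhγ h7
        _ = _ := by ring
    have h6 : (2 : ℝ) ^ m + 2 ^ (h * (n + 1)) ≤ 2 * agr S (codeK κ (padL L)) m := by
      have h7 : (0 : ℝ) ≤ 2 ^ (h * (n + 1)) := by positivity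
      have h8 : (1 / 2 + (2 : ℝ) ^ (-(γ * m))) * 2 ^ m =
          2 ^ m / 2 + (2 : ℝ) ^ (-(γ * m)) * 2 ^ m := by ring
      rw [h8, h4] at h3
      linarith
    exact_mod_cast h6
  have hmaj : ∀ K, InSpace E A K → ∃ S, InNTime E A S ∧
      ∀ᶠ n in atTop, 2 ^ n < 2 * agr S K n := by
    intro K hK
    obtain ⟨S', hS', hn⟩ := H K hK
    refine ⟨S', hS', hn.mono fun n hn => ?_⟩
    have h1 : (0 : ℝ) < (2 : ℝ) ^ (-(γ * n)) * 2 ^ n := by positivity
    have h2 : (2 : ℝ) ^ n < 2 * agr S' K n := by linarith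
    exact_mod_cast h2
  obtain ⟨S', hS', hS'n⟩ := adv_elim hE hE2 hL1 hdec hb0 hbb hgood hmaj
  obtain ⟨i₀, hi₀⟩ := eventually_atTop.1 hS'n
  -- the padding
  have hfin := InNTime.precomp hE hE2 hS' (poly_pd b) (2 ^ (b + 1)) (fun v => by
    rw [length_pd hb0]
    exact (pl_le b _).trans (Nat.mul_le_mul_left _ (by omega)))
  refine InNTime.patch hfin (2 ^ (b * i₀)) fun x hx => ?_
  rw [Set.mem_ofPred_eq, ← pd_mem_padL (b := b) (L := L) (x := x)]
  refine hi₀ (x.length.size / b + 1) ?_ _ (length_pd hb0 x)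
  have h1 : b * i₀ < x.length.size := Nat.lt_size.2 hx
  have h2 : i₀ ≤ x.length.size / b := (Nat.le_div_iff_mul_le hb0).2 (by rw [mul_comm]; omega)
  omega

theorem agr_self (L : Set (List Bool)) (n : ℕ) : agr L L n = 2 ^ n := by
  unfold agr
  rw [ncard_str n _ (fun _ => True) (fun j => by simp)]
  simp

theorem advantage_iff (hE : Good E) (hE2 : Good2 E) {γ : ℝ} (hγ0 : 0 < γ) (hγ : γ < 1 / 4) :
    (∀ L, InSpace E A L → InNTime E A L) ↔
      ∀ L, InSpace E A L → ∃ S, InNTime E A S ∧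
        ∀ᶠ n : ℕ in atTop, (1 / 2 + (2 : ℝ) ^ (-(γ * n))) * 2 ^ n ≤ agr S L n := by
  refine ⟨fun H L hL => ⟨L, H L hL, ?_⟩, fun H L hL => of_advantage hE hE2 hγ H hL⟩
  obtain ⟨n₀, hn₀⟩ := exists_nat_ge (1 / γ)
  filter_upwards [eventually_ge_atTop n₀] with n hn
  rw [agr_self]
  have h1 : 1 ≤ γ * n := by
    have h2 : 1 / γ ≤ n := hn₀.trans (by exact_mod_cast hn)
    rw [div_le_iff₀ hγ0] at h2
    linarith
  have h2 : (2 : ℝ) ^ (-(γ * n)) ≤ 1 / 2 := by
    calc (2 : ℝ) ^ (-(γ * n)) ≤ 2 ^ (-1 : ℝ) :=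
          Real.rpow_le_rpow_of_exponent_le (by norm_num) (by linarith)
      _ = 1 / 2 := by
        rw [Real.rpow_neg_one]
        norm_num
  have h3 : (0 : ℝ) < 2 ^ n := by positivity
  push_cast
  nlinarith

end Pool.Agent.J4H22.WA
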