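import Pool.Agent.J4H22.WA.Code

/-!
# Few code words agree with a given set, and they are separated by a value modulo a prime number
-/

set_option autoImplicit false

namespace Pool.Agent.J4H22.WA

open Pool.Agent.NPC Finset

/-- the sign of a property -/
def sg (P : Prop) [Decidable P] : ℝ := 2 * (if P then 1 else 0) - 1

theorem sg_sq (P : Prop) [Decidable P] : sg P * sg P = 1 := by
  unfold sg
  split_ifs <;> norm_num

theorem sum_sg_mul (N : ℕ) (P Q : ℕ → Prop) [DecidablePred P] [DecidablePred Q] :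
    ∑ j ∈ range N, sg (P j) * sg (Q j) =
      4 * (((range N).filter fun j => P j ∧ Q j).card : ℝ) - 2 * (((range N).filter P).card : ℝ) -
        2 * (((range N).filter Q).card : ℝ) + N := by
  have h : ∀ j, sg (P j) * sg (Q j) = 4 * (if P j ∧ Q j then (1 : ℝ) else 0) -
      2 * (if P j then (1 : ℝ) else 0) - 2 * (if Q j then (1 : ℝ) else 0) + 1 := by
    intro j
    unfold sg
    by_cases h1 : P j <;> by_cases h2 : Q j <;> simp [h1, h2] <;> norm_num
  simp only [h]
  rw [Finset.sum_add_distrib, Finset.sum_sub_distrib, Finset.sum_sub_distrib, ← Finset.mul_sum,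
    ← Finset.mul_sum, ← Finset.mul_sum, Finset.sum_boole, Finset.sum_boole, Finset.sum_boole]
  simp

/-- few tables -/
theorem list_bound {m a q n D : ℕ} (hm : 2 * a + 2 ≤ m) (hq : q.Prime) (haq : 2 ^ a < q)
    (hqa : q ≤ 2 * 2 ^ a) (s : ℕ → Prop) [DecidablePred s] (R : Finset (List Bool))
    (hR : ∀ T ∈ R, T.length = 2 ^ n ∧ 2 * ((range (2 ^ m)).filter s).card + D ≤
      4 * ((range (2 ^ m)).filter fun j => s j ∧ cbj a q T j = true).card)
    (hD : 2 ^ (2 * m + n + 2) < D ^ 2 * 2 ^ a) : R.card ≤ 2 ^ (2 * m + a) := by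
  classical
  rcases Finset.eq_empty_or_nonempty R with hRe | hRn
  · rw [hRe]
    simp
  have hr0 : (0 : ℝ) < R.card := by exact_mod_cast Finset.card_pos.2 hRn
  set X : ℝ := 2 ^ m with hX
  set Y : ℝ := 2 ^ (n + m + 2) / 2 ^ a with hY
  have hN : ((2 ^ m : ℕ) : ℝ) = X := by push_cast; rfl
  have hT : ∀ T, 2 * (((range (2 ^ m)).filter fun j => cbj a q T j = true).card : ℝ) = X := by
    intro T
    have := card_cbj a q m hm T
    rw [← hN]
    exact_mod_cast this
  -- the correlation with the set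
  have h1 : ∀ T ∈ R, (D : ℝ) ≤ ∑ j ∈ range (2 ^ m), sg (s j) * sg (cbj a q T j = true) := by
    intro T hTR
    rw [sum_sg_mul, hN]
    have h2 := (hR T hTR).2
    have h3 : 2 * (((range (2 ^ m)).filter s).card : ℝ) + D ≤
        4 * (((range (2 ^ m)).filter fun j => s j ∧ cbj a q T j = true).card : ℝ) := by
      exact_mod_cast h2
    have h4 := hT T
    linarith
  -- the correlations between the tables
  have h2 : ∀ T ∈ R, ∀ T' ∈ R, ∑ j ∈ range (2 ^ m),
      sg (cbj a q T j = true) * sg (cbj a q T' j = true) ≤ (if T = T' then X else 0) + Y := by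
    intro T hTR T' hTR'
    have hY0 : 0 ≤ Y := by positivity
    by_cases hTT : T = T'
    · subst hTT
      rw [if_pos rfl]
      have h3 : ∑ j ∈ range (2 ^ m), sg (cbj a q T j = true) * sg (cbj a q T j = true) = X := by
        rw [← hN]
        rw [Finset.sum_congr rfl (fun j _ => sg_sq (cbj a q T j = true))]
        simp
      linarith
    · rw [if_neg hTT, sum_sg_mul, hN]
      have h3 := card_both hm hq.pos hqa T T'
      have h4 := card_coll (m := m) (by omega) hq haq (hR T hTR).1 (hR T' hTR').1 hTT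
      have h3' : 4 * (((range (2 ^ m)).filter fun j => cbj a q T j = true ∧
          cbj a q T' j = true).card : ℝ) ≤ X + 4 * (((range (2 ^ m)).filter fun j =>
        pv q (j % 2 ^ a) T = pv q (j % 2 ^ a) T').card : ℝ) := by
        rw [← hN]
        exact_mod_cast h3
      have h4' : (((range (2 ^ m)).filter fun j =>
          pv q (j % 2 ^ a) T = pv q (j % 2 ^ a) T').card : ℝ) ≤ 2 ^ n * 2 ^ m / 2 ^ a := by
        rw [le_div_iff₀ (by positivity), mul_comm]
        exact_mod_cast h4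
      have h5 : Y = 4 * (2 ^ n * 2 ^ m / 2 ^ a) := by
        rw [hY, pow_add, pow_add]
        ring
      have h6 := hT T
      have h7 := hT T'
      linarith
  -- the Cauchy-Schwarz inequality
  have h3 : (∑ j ∈ range (2 ^ m), sg (s j) * ∑ T ∈ R, sg (cbj a q T j = true)) ^ 2 ≤
      (∑ j ∈ range (2 ^ m), sg (s j) ^ 2) *
        ∑ j ∈ range (2 ^ m), (∑ T ∈ R, sg (cbj a q T j = true)) ^ 2 :=
    Finset.sum_mul_sq_le_sq_mul_sq _ _ _
  have h4 : ∑ j ∈ range (2 ^ m), sg (s j) ^ 2 = X := by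
    rw [← hN, Finset.sum_congr rfl (fun j _ => by rw [pow_two, sg_sq])]
    simp
  have h5 : (R.card : ℝ) * D ≤
      ∑ j ∈ range (2 ^ m), sg (s j) * ∑ T ∈ R, sg (cbj a q T j = true) := by
    have h6 : ∑ j ∈ range (2 ^ m), sg (s j) * ∑ T ∈ R, sg (cbj a q T j = true) =
        ∑ T ∈ R, ∑ j ∈ range (2 ^ m), sg (s j) * sg (cbj a q T j = true) := by
      rw [Finset.sum_comm]
      apply Finset.sum_congr rfl
      intro j _
      rw [Finset.mul_sum]
    rw [h6, ← nsmul_eq_mul]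
    exact Finset.card_nsmul_le_sum _ _ _ h1
  have h6 : ∑ j ∈ range (2 ^ m), (∑ T ∈ R, sg (cbj a q T j = true)) ^ 2 ≤
      R.card * X + (R.card : ℝ) ^ 2 * Y := by
    have h7 : ∑ j ∈ range (2 ^ m), (∑ T ∈ R, sg (cbj a q T j = true)) ^ 2 =
        ∑ T ∈ R, ∑ T' ∈ R, ∑ j ∈ range (2 ^ m),
          sg (cbj a q T j = true) * sg (cbj a q T' j = true) := by
      have h8 : ∀ j, (∑ T ∈ R, sg (cbj a q T j = true)) ^ 2 =
          ∑ T ∈ R, ∑ T' ∈ R, sg (cbj a q T j = true) * sg (cbj a q T' j = true) := by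
        intro j
        rw [pow_two, Finset.sum_mul_sum]
      simp only [h8]
      rw [Finset.sum_comm]
      apply Finset.sum_congr rfl
      intro T _
      rw [Finset.sum_comm]
    rw [h7]
    calc ∑ T ∈ R, ∑ T' ∈ R, ∑ j ∈ range (2 ^ m),
          sg (cbj a q T j = true) * sg (cbj a q T' j = true)
        ≤ ∑ T ∈ R, ∑ T' ∈ R, ((if T = T' then X else 0) + Y) :=
          Finset.sum_le_sum fun T hT => Finset.sum_le_sum fun T' hT' => h2 T hT T' hT'
      _ = ∑ T ∈ R, (X + R.card * Y) := by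
          apply Finset.sum_congr rfl
          intro T hT
          rw [Finset.sum_add_distrib, Finset.sum_ite_eq, if_pos hT]
          simp
      _ = R.card * X + (R.card : ℝ) ^ 2 * Y := by
          rw [Finset.sum_const, nsmul_eq_mul]
          ring
  have h7 : ((R.card : ℝ) * D) ^ 2 ≤ X * (R.card * X + (R.card : ℝ) ^ 2 * Y) := by
    calc ((R.card : ℝ) * D) ^ 2 ≤
        (∑ j ∈ range (2 ^ m), sg (s j) * ∑ T ∈ R, sg (cbj a q T j = true)) ^ 2 :=
          pow_le_pow_left₀ (by positivity) h5 2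
      _ ≤ _ := h3
      _ ≤ _ := by
        rw [h4]
        exact mul_le_mul_of_nonneg_left h6 (by positivity)
  have h8 : (R.card : ℝ) * (D ^ 2 * 2 ^ a) ≤ X ^ 2 * 2 ^ a + R.card * (X * Y * 2 ^ a) := by
    have h9 : (R.card : ℝ) * ((R.card : ℝ) * (D ^ 2 * 2 ^ a)) ≤
        (R.card : ℝ) * (X ^ 2 * 2 ^ a + R.card * (X * Y * 2 ^ a)) := by
      have h10 := mul_le_mul_of_nonneg_right h7 (show (0 : ℝ) ≤ 2 ^ a by positivity)
      calc (R.card : ℝ) * ((R.card : ℝ) * (D ^ 2 * 2 ^ a)) = ((R.card : ℝ) * D) ^ 2 * 2 ^ a := by ring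
        _ ≤ _ := h10
        _ = _ := by ring
    exact le_of_mul_le_mul_left h9 hr0
  have h9 : X * Y * 2 ^ a = 2 ^ (2 * m + n + 2) := by
    rw [hX, hY]
    have : (2 : ℝ) ^ a ≠ 0 := by positivity
    field_simp
    ring
  have h10 : (2 : ℝ) ^ (2 * m + n + 2) + 1 ≤ D ^ 2 * 2 ^ a := by exact_mod_cast hD
  rw [h9] at h8
  have h11 : (R.card : ℝ) * (2 ^ (2 * m + n + 2) + 1) ≤ R.card * (D ^ 2 * 2 ^ a) :=
    mul_le_mul_of_nonneg_left h10 hr0.le
  have h12 : (R.card : ℝ) ≤ X ^ 2 * 2 ^ a := by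
    have h13 : (R.card : ℝ) * (2 ^ (2 * m + n + 2) + 1) =
      (R.card : ℝ) * 2 ^ (2 * m + n + 2) + R.card := by ring
    linarith
  have h13 : X ^ 2 * 2 ^ a = ((2 ^ (2 * m + a) : ℕ) : ℝ) := by
    rw [hX]
    push_cast
    ring
  rw [h13] at h12
  exact_mod_cast h12

/-- a value modulo a prime number which separates one table from few others -/
theorem exists_sep {a q n : ℕ} (hq : q.Prime) (haq : 2 ^ a < q) (R : Finset (List Bool))
    (hR : ∀ T ∈ R, T.length = 2 ^ n) {T₀ : List Bool} (hT₀ : T₀.length = 2 ^ n)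
    (hcard : R.card * 2 ^ n < 2 ^ a) :
    ∃ z < 2 ^ a, ∀ T ∈ R, pv q z T = pv q z T₀ → T = T₀ := by
  classical
  set B : Finset ℕ := (R.erase T₀).biUnion fun T =>
    (range (2 ^ a)).filter fun z => pv q z T = pv q z T₀ with hB
  have h1 : B.card < (range (2 ^ a)).card := by
    rw [card_range]
    refine lt_of_le_of_lt ?_ hcard
    calc B.card ≤ ∑ T ∈ R.erase T₀,
          ((range (2 ^ a)).filter fun z => pv q z T = pv q z T₀).card := Finset.card_biUnion_le
      _ ≤ ∑ T ∈ R.erase T₀, 2 ^ n := by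
          apply Finset.sum_le_sum
          intro T hT
          rw [Finset.mem_erase] at hT
          have h2 := few_collisions hq haq (T := T) (T' := T₀) (by rw [hR T hT.2, hT₀]) hT.1
          rw [hR T hT.2] at h2
          exact h2.le
      _ = (R.erase T₀).card * 2 ^ n := by rw [Finset.sum_const, smul_eq_mul]
      _ ≤ R.card * 2 ^ n := Nat.mul_le_mul_right _ (Finset.card_erase_le)
  obtain ⟨z, hz, hzB⟩ := Finset.exists_mem_notMem_of_card_lt_card h1
  refine ⟨z, mem_range.1 hz, fun T hT h2 => ?_⟩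
  by_contra hne
  apply hzB
  rw [hB, Finset.mem_biUnion]
  exact ⟨T, Finset.mem_erase.2 ⟨hne, hT⟩, Finset.mem_filter.2 ⟨hz, h2⟩⟩

/-- the advice: a threshold, a point and a value -/
theorem exists_advice {κ n m a a' D : ℕ} (hm : m = (2 * κ + 2) * (n + 1)) (ha : a = κ * (n + 1))
    (ha' : a' = (6 * κ + 7) * (n + 1)) {h : ℕ} (hh : 3 * κ + 7 ≤ 2 * h) (hhc : h ≤ 2 * κ + 2)
    (hD : D = 2 ^ (h * (n + 1))) (s : ℕ → Prop) [DecidablePred s] {T₀ : List Bool}
    (hT₀ : T₀.length = 2 ^ n)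
    (hcl : 2 * ((range (2 ^ m)).filter s).card + D ≤
      4 * ((range (2 ^ m)).filter fun j => s j ∧ cbj a (qp (2 ^ a)) T₀ j = true).card) :
    ∃ θ z v : ℕ, θ < 2 ^ (a' + 1) ∧ z < 2 ^ (a' + 1) ∧ v < 2 ^ (a' + 1) ∧
      θ ≤ 4 * ((range (2 ^ m)).filter fun j => s j ∧ cbj a (qp (2 ^ a)) T₀ j = true).card ∧
      pv (qp (2 ^ a')) z T₀ = v ∧
      ∀ T : List Bool, T.length = 2 ^ n →
        θ ≤ 4 * ((range (2 ^ m)).filter fun j => s j ∧ cbj a (qp (2 ^ a)) T j = true).card →
        pv (qp (2 ^ a')) z T = v → T = T₀ := by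
  classical
  obtain ⟨hq1, hq2, hq3⟩ := qp_spec (K := 2 ^ a) (by positivity)
  obtain ⟨hq1', hq2', hq3'⟩ := qp_spec (K := 2 ^ a') (by positivity)
  have hma : 2 * a + 2 ≤ m := by
    rw [hm, ha]
    nlinarith
  set R : Finset (List Bool) := ((List.finite_length_eq Bool (2 ^ n)).toFinset).filter fun T =>
    2 * ((range (2 ^ m)).filter s).card + D ≤
      4 * ((range (2 ^ m)).filter fun j => s j ∧ cbj a (qp (2 ^ a)) T j = true).card with hR
  have hRm : ∀ T, T ∈ R ↔ T.length = 2 ^ n ∧ 2 * ((range (2 ^ m)).filter s).card + D ≤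
      4 * ((range (2 ^ m)).filter fun j => s j ∧ cbj a (qp (2 ^ a)) T j = true).card := by
    intro T
    rw [hR, Finset.mem_filter, Set.Finite.mem_toFinset]
    rfl
  have hcard : R.card ≤ 2 ^ (2 * m + a) := by
    apply list_bound hma hq1 hq2 hq3 s R (n := n) (D := D) (fun T hT => (hRm T).1 hT)
    rw [hD, ← pow_mul, ← pow_add]
    apply Nat.pow_lt_pow_right (by norm_num)
    rw [hm, ha]
    nlinarith
  obtain ⟨z, hz, hsep⟩ := exists_sep hq1' hq2' R (fun T hT => ((hRm T).1 hT).1) hT₀ (by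
    calc R.card * 2 ^ n ≤ 2 ^ (2 * m + a) * 2 ^ n := Nat.mul_le_mul_right _ hcard
      _ = 2 ^ (2 * m + a + n) := (pow_add _ _ _).symm
      _ < 2 ^ a' := by
        apply Nat.pow_lt_pow_right (by norm_num)
        rw [hm, ha, ha']
        nlinarith)
  refine ⟨2 * ((range (2 ^ m)).filter s).card + D, z, pv (qp (2 ^ a')) z T₀, ?_, ?_, ?_, hcl, rfl,
    fun T h1 h2 h3 => hsep T ((hRm T).2 ⟨h1, h2⟩) h3⟩
  · have h1 : ((range (2 ^ m)).filter s).card ≤ 2 ^ m := by
      have := Finset.card_filter_le (range (2 ^ m)) s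
      rwa [card_range] at this
    have h2 : D ≤ 2 ^ m := by
      rw [hD, hm]
      exact Nat.pow_le_pow_right (by norm_num) (Nat.mul_le_mul_right _ hhc)
    have h3 : 2 ^ (m + 2) ≤ 2 ^ (a' + 1) - 1 + 1 := by
      rw [Nat.sub_add_cancel Nat.one_le_two_pow]
      apply Nat.pow_le_pow_right (by norm_num)
      rw [hm, ha']
      nlinarith
    have h4 : 2 ^ (m + 2) = 4 * 2 ^ m := by ring
    have h5 : 0 < 2 ^ m := by positivity
    omega
  · exact hz.trans (Nat.pow_lt_pow_right (by norm_num) (by omega))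
  · have h1 := pv_lt hq1'.pos z T₀
    have h2 : 2 ^ (a' + 1) = 2 * 2 ^ a' := by ring
    omega

end Pool.Agent.J4H22.WA
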