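import Pool.Agent.J4H22.WA.Defs3
import Pool.Agent.J4H22.WA.Fin2

/-!
# Nonadaptive computations are parities
-/

set_option autoImplicit false

namespace Pool.Agent.J4H22.WA

open Pool.Agent.NPC Pool.Agent.H620R2.Gauge Pool.Agent.H622R2.Exp Pool.Agent.H622R2 Finset Filter

variable {E : Set (Polynomial ℕ)} {A : Oracle}

/-! ### The two halves of a string -/

/-- the first half -/
def fh (v : List Bool) : List Bool := (List.range (v.length / 2)).map fun i => v.getD i false

/-- the second half -/
def sh (v : List Bool) : List Bool :=
  (List.range (v.length / 2)).map fun i => v.getD (v.length / 2 + i) false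

theorem poly_fh : Poly fh := by
  have h1 : UPoly (fun v : List Bool => v.length / 2) :=
    UPoly.of_le (Poly.div (Poly.length Poly.id) (NPC.Poly.const 2)) (UPoly.length Poly.id)
      fun a => Nat.div_le_self _ _
  unfold fh
  exact NPC.Poly.map (F := fun (v : List Bool) i => v.getD i false) (UPoly.range h1)
    (Poly.getD (Poly.fst Poly.id) (Poly.snd Poly.id) (NPC.Poly.const false))

theorem poly_sh : Poly sh := by
  have h1 : UPoly (fun v : List Bool => v.length / 2) :=
    UPoly.of_le (Poly.div (Poly.length Poly.id) (NPC.Poly.const 2)) (UPoly.length Poly.id)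
      fun a => Nat.div_le_self _ _
  unfold sh
  exact NPC.Poly.map (F := fun (v : List Bool) i => v.getD (v.length / 2 + i) false)
    (UPoly.range h1) (Poly.getD (Poly.fst Poly.id) (Poly.add (h1.toPoly.comp (Poly.fst Poly.id))
      (Poly.snd Poly.id)) (NPC.Poly.const false))

theorem length_fh (v : List Bool) : (fh v).length = v.length / 2 := by simp [fh]

theorem fh_append {y u : List Bool} (h : u.length = y.length) : fh (y ++ u) = y := by
  have hl : (y ++ u).length / 2 = y.length := by
    rw [List.length_append, h]
    omega
  apply List.ext_getElem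
  · rw [length_fh, hl]
  · intro i h1 h2
    unfold fh
    rw [List.getElem_map, List.getElem_range, List.getD_eq_getElem _ _ (by simp; omega),
      List.getElem_append_left h2]

theorem sh_append {y u : List Bool} (h : u.length = y.length) : sh (y ++ u) = u := by
  have hl : (y ++ u).length / 2 = y.length := by
    rw [List.length_append, h]
    omega
  apply List.ext_getElem
  · unfold sh
    rw [List.length_map, List.length_range, hl, h]
  · intro i h1 h2
    unfold sh
    rw [List.getElem_map, List.getElem_range, hl, List.getD_eq_getElem _ _ (by simp; omega),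
      List.getElem_append_right (by omega)]
    simp

/-! ### The number of the true bits -/

/-- the number of the true bits -/
def ct (F : List Bool) : ℕ := (F.filter fun b => b).length

theorem poly_ct {α : Type} [TEnc α] {F : α → List Bool} (hF : Poly F) :
    Poly (fun a => ct (F a)) := by
  unfold ct
  exact Poly.length (Poly.filter (p := fun _ b => b) hF (Poly.snd Poly.id))

theorem ct_le (F : List Bool) : ct F ≤ F.length := List.length_filter_le _ _

theorem eq_or_ct_lt : ∀ F V : List Bool, F.length = V.length →
    (∀ j, F.getD j false = true → V.getD j false = true) → F = V ∨ ct F < ct V := by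
  intro F
  induction F with
  | nil =>
    intro V h _
    left
    symm
    exact List.length_eq_zero_iff.1 h.symm
  | cons a F ih =>
    intro V h hj
    rcases V with _ | ⟨b, V⟩
    · simp at h
    · have h1 := ih V (by simpa using h) (fun j => by
        have := hj (j + 1)
        simpa using this)
      have h2 := hj 0
      simp only [List.getD_cons_zero] at h2
      rcases h1 with rfl | h1
      · cases a with
        | true => left; rw [h2 rfl]
        | false =>
          cases b with
          | true => right; simp [ct]
          | false => left; rfl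
      · right
        cases a with
        | true =>
          have hb := h2 rfl
          subst hb
          simpa [ct] using h1
        | false =>
          cases b with
          | true =>
            have : ct (false :: F) = ct F := by simp [ct]
            have h3 : ct (true :: V) = ct V + 1 := by simp [ct]
            omega
          | false => simpa [ct] using h1

/-! ### Nonadaptive computations -/

open Classical in
/-- the answers to the questions `g y j` for `j < N y` -/
noncomputable def ans (S : Set (List Bool)) (N : List Bool → ℕ) (g : List Bool × ℕ → List Bool)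
    (y : List Bool) : List Bool := (List.range (N y)).map fun j => decide (g (y, j) ∈ S)

theorem length_ans (S : Set (List Bool)) (N : List Bool → ℕ) (g : List Bool × ℕ → List Bool)
    (y : List Bool) : (ans S N g y).length = N y := by simp [ans]

theorem getD_ans {S : Set (List Bool)} {N : List Bool → ℕ} {g : List Bool × ℕ → List Bool}
    {y : List Bool} {j : ℕ} (hj : j < N y) :
    (ans S N g y).getD j false = true ↔ g (y, j) ∈ S := by
  classical
  unfold ans
  rw [List.getD_eq_getElem _ _ (by simpa using hj)]
  simp

/-- the language whose parities give the result of the nonadaptive computation -/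
def emb (S : Set (List Bool)) (N : List Bool → ℕ) (g : List Bool × ℕ → List Bool)
    (β : List Bool × List Bool → Bool) : Set (List Bool) :=
  {v | ∃ F : List Bool, F.length ≤ 2 ^ (1 * (v.length + 1)) ∧
    (F.length = N (fh v) ∧ valB (sh v) < 2 * ct F + (if β (fh v, F) = true then 1 else 0)) ∧
    ∀ j < F.length, F.getD j false = true → g (fh v, j) ∈ S}

theorem InNTime.emb (hE : Good E) (hE2 : Good2 E) {S : Set (List Bool)} (hS : InNTime E A S)
    {N : List Bool → ℕ} {g : List Bool × ℕ → List Bool} {β : List Bool × List Bool → Bool}
    (hN : Poly N) (hg : Poly g) (hβ : Poly β) (c : ℕ)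
    (hlen : ∀ y j, (g (y, j)).length ≤ c * (y.length + 2)) :
    InNTime E A (emb S N g β) := by
  have p1 : Poly (fun p : List Bool × List Bool => p.1) := Poly.fst Poly.id
  have p2 : Poly (fun p : List Bool × List Bool => p.2) := Poly.snd Poly.id
  have pf : Poly (fun p : List Bool × List Bool => fh p.1) := poly_fh.comp p1
  have pY : Poly (fun p : List Bool × List Bool =>
      ((List.range p.2.length).filter fun j => p.2.getD j false).map fun j => g (fh p.1, j)) := by
    refine NPC.Poly.map (F := fun (p : List Bool × List Bool) j => g (fh p.1, j)) (Poly.filter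
      (p := fun (p : List Bool × List Bool) j => p.2.getD j false)
      (UPoly.range (UPoly.length p2)) ?_) ?_
    · exact Poly.getD (p2.comp (Poly.fst Poly.id)) (Poly.snd Poly.id) (NPC.Poly.const false)
    · exact hg.comp (Poly.pair (pf.comp (Poly.fst Poly.id)) (Poly.snd Poly.id))
  have pΦ : Poly (fun p : List Bool × List Bool => decide (p.2.length = N (fh p.1)) &&
      decide (valB (sh p.1) < 2 * ct p.2 + (if β (fh p.1, p.2) = true then 1 else 0))) :=
    Poly.and (Poly.decide_eq (Poly.length p2) (hN.comp pf)) (Poly.decide_lt
      (Poly.valBits (poly_sh.comp p1)) (Poly.add (Poly.mul (NPC.Poly.const 2) (poly_ct p2))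
        (Poly.ite (Poly.decide_bool (hβ.comp (Poly.pair pf p2))) (NPC.Poly.const 1)
          (NPC.Poly.const 0))))
  have h := InNTime.guess hE hE2 hS (hE.lin 1) c pY pΦ (by
    intro v F y hy
    rw [List.mem_map] at hy
    obtain ⟨j, -, rfl⟩ := hy
    refine (hlen _ _).trans (Nat.mul_le_mul_left _ ?_)
    simp only
    rw [length_fh]
    omega)
  refine (congrArg (InNTime E A) (Set.ext fun v => ?_)).mp h
  have he : (Polynomial.C 1 * (Polynomial.X + 1) : Polynomial ℕ).eval v.length =
      1 * (v.length + 1) := by simp
  unfold WA.emb
  simp only [Set.mem_ofPred_eq, he, Bool.and_eq_true, decide_eq_true_iff]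
  refine exists_congr fun F => and_congr_right fun _ => and_congr_right fun _ => ?_
  constructor
  · intro h1 j hj hF
    exact h1 _ (List.mem_map.2 ⟨j, List.mem_filter.2 ⟨List.mem_range.2 hj, hF⟩, rfl⟩)
  · intro h1 y hy
    rw [List.mem_map] at hy
    obtain ⟨j, hj, rfl⟩ := hy
    rw [List.mem_filter, List.mem_range] at hj
    exact h1 j hj.1 hj.2

theorem mem_par_iff (S : Set (List Bool)) (x : List Bool) :
    x ∈ par S ↔ Odd (Set.ncard {j : ℕ | j < 2 ^ x.length ∧ x ++ bs x.length j ∈ S}) := by
  classical
  unfold par
  rw [Set.mem_ofPred_eq, ncard_str x.length (fun u => x ++ u ∈ S)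
    (fun j => x ++ bs x.length j ∈ S) (fun j => Iff.rfl),
    ncard_lt (2 ^ x.length) _ (fun j => x ++ bs x.length j ∈ S) (fun j => Iff.rfl)]

theorem mem_par_emb {S : Set (List Bool)} {N : List Bool → ℕ} {g : List Bool × ℕ → List Bool}
    {β : List Bool × List Bool → Bool} {y : List Bool} (hy : 2 * N y + 1 ≤ 2 ^ y.length) :
    y ∈ par (emb S N g β) ↔ β (y, ans S N g y) = true := by
  set V := ans S N g y with hV
  have hVl : V.length = N y := length_ans _ _ _ _
  set r : ℕ := 2 * ct V + (if β (y, V) = true then 1 else 0) with hr
  have hr1 : r ≤ 2 ^ y.length := by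
    have h1 := ct_le V
    rw [hVl] at h1
    have h2 : (if β (y, V) = true then 1 else 0) ≤ 1 := by split_ifs <;> omega
    omega
  have hmem : ∀ j < 2 ^ y.length, (y ++ bs y.length j ∈ emb S N g β ↔ j < r) := by
    intro j hj
    unfold emb
    rw [Set.mem_ofPred_eq, fh_append (length_bs _ _), sh_append (length_bs _ _), valB_bs hj]
    constructor
    · rintro ⟨F, -, ⟨h1, h2⟩, h3⟩
      have h4 : ∀ i, F.getD i false = true → V.getD i false = true := by
        intro i hi
        by_cases hiF : i < F.length
        · exact (getD_ans (h1 ▸ hiF)).2 (h3 i hiF hi)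
        · rw [List.getD_eq_default _ _ (by omega)] at hi
          simp at hi
      rcases eq_or_ct_lt F V (by rw [h1, hVl]) h4 with rfl | h5
      · exact h2
      · have h6 : (if β (y, F) = true then 1 else 0) ≤ 1 := by split_ifs <;> omega
        omega
    · intro h1
      refine ⟨V, ?_, ⟨hVl, h1⟩, ?_⟩
      · rw [hVl, List.length_append, length_bs]
        calc N y ≤ 2 ^ y.length := by omega
          _ ≤ _ := Nat.pow_le_pow_right (by norm_num) (by omega)
      · intro i hi hVi
        rw [hVl] at hi
        exact (getD_ans hi).1 hVi
  rw [mem_par_iff]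
  have hset : {j : ℕ | j < 2 ^ y.length ∧ y ++ bs y.length j ∈ emb S N g β} =
      ((range r : Finset ℕ) : Set ℕ) := by
    ext j
    rw [Set.mem_ofPred_eq, mem_coe, mem_range]
    constructor
    · rintro ⟨h1, h2⟩
      exact (hmem j h1).1 h2
    · intro h1
      exact ⟨h1.trans_le hr1, (hmem j (h1.trans_le hr1)).2 h1⟩
  rw [hset, Set.ncard_coe_finset, card_range, hr]
  cases hβ : β (y, V) with
  | true => simp
  | false => simp

/-- parities are in nondeterministic exponential time if it is closed under complements -/
theorem InNTime.par (hE : Good E) (hE2 : Good2 E) {S : Set (List Bool)} (hS : InNTime E A S)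
    (hS' : InNTime E A Sᶜ) : InNTime E A (WA.par S) := by
  have hj := InNTime.join hE hS hS'
  have p1 : Poly (fun p : List Bool × List Bool => p.1) := Poly.fst Poly.id
  have p2 : Poly (fun p : List Bool × List Bool => p.2) := Poly.snd Poly.id
  have pY : Poly (fun p : List Bool × List Bool => (List.range p.2.length).map fun j =>
      p.2.getD j false :: (p.1 ++ bs p.1.length j)) := by
    refine NPC.Poly.map (F := fun (p : List Bool × List Bool) j =>
      p.2.getD j false :: (p.1 ++ bs p.1.length j)) (UPoly.range (UPoly.length p2)) ?_
    have q1 : Poly (fun x : (List Bool × List Bool) × ℕ => x.1.1) := p1.comp (Poly.fst Poly.id)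
    exact Poly.cons (Poly.getD (p2.comp (Poly.fst Poly.id)) (Poly.snd Poly.id)
      (NPC.Poly.const false)) (Poly.append q1 (poly_bs (UPoly.length q1) (Poly.snd Poly.id)))
  have pΦ : Poly (fun p : List Bool × List Bool => decide (p.2.length = 2 ^ p.1.length) &&
      decide (ct p.2 % 2 = 1)) :=
    Poly.and (Poly.decide_eq (Poly.length p2) (A4.poly_two_pow (UPoly.length p1)))
      (Poly.decide_eq (Poly.mod (poly_ct p2) (NPC.Poly.const 2)) (NPC.Poly.const 1))
  have h := InNTime.guess hE hE2 hj (hE.lin 1) 2 pY pΦ (by
    intro v F y hy
    rw [List.mem_map] at hy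
    obtain ⟨j, -, rfl⟩ := hy
    rw [List.length_cons, List.length_append, length_bs]
    show v.length + v.length + 1 ≤ 2 * (v.length + 2)
    omega)
  refine (congrArg (InNTime E A) (Set.ext fun x => ?_)).mp h
  have hl1 : ∀ F : List Bool, ct F = ((range F.length).filter fun j => F.getD j false = true).card := by
    intro F
    induction F using List.reverseRecOn with
    | nil => simp [ct]
    | append_singleton F b ih =>
      have h1 : ct (F ++ [b]) = ct F + (if b = true then 1 else 0) := by
        unfold ct
        rw [List.filter_append, List.length_append]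
        cases b <;> simp
      have h2 : ((range F.length).filter fun j => (F ++ [b]).getD j false = true) =
          (range F.length).filter fun j => F.getD j false = true := by
        apply Finset.filter_congr
        intro j hj
        rw [mem_range] at hj
        rw [List.getD_append _ _ _ _ hj]
      rw [h1, ih, List.length_append, List.length_singleton, Finset.range_add_one,
        Finset.filter_insert, h2, List.getD_append_right _ _ _ _ le_rfl]
      cases b
      · simp
      · simp
  have hkey : ∀ F : List Bool, F.length = 2 ^ x.length →
      (∀ y ∈ (List.range F.length).map (fun j => F.getD j false :: (x ++ bs x.length j)),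
        y ∈ jn S Sᶜ) → (ct F % 2 = 1 ↔ x ∈ WA.par S) := by
    intro F hF hy
    have h2 : ∀ j < 2 ^ x.length, (F.getD j false = true ↔ x ++ bs x.length j ∈ S) := by
      intro j hj
      have h3 := hy _ (List.mem_map.2 ⟨j, List.mem_range.2 (hF ▸ hj), rfl⟩)
      cases hb : F.getD j false with
      | true =>
        rw [hb, true_mem_jn] at h3
        simp [h3]
      | false =>
        rw [hb, false_mem_jn] at h3
        simp only [Bool.false_eq_true, false_iff]
        exact h3
    rw [mem_par_iff, hl1, hF, ← Nat.odd_iff]
    have h3 : {j : ℕ | j < 2 ^ x.length ∧ x ++ bs x.length j ∈ S} =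
        (((range (2 ^ x.length)).filter fun j => F.getD j false = true : Finset ℕ) : Set ℕ) := by
      ext j
      rw [Set.mem_ofPred_eq, mem_coe, mem_filter, mem_range]
      exact and_congr_right fun hj => (h2 j hj).symm
    rw [h3, Set.ncard_coe_finset]
  simp only [Set.mem_ofPred_eq, Bool.and_eq_true, decide_eq_true_iff]
  constructor
  · rintro ⟨F, -, ⟨h1, h2⟩, h3⟩
    exact (hkey F h1 h3).1 h2
  · intro hx
    have h1 : ∀ y ∈ (List.range (chs x.length {u | x ++ u ∈ S}).length).map (fun j =>
        (chs x.length {u | x ++ u ∈ S}).getD j false :: (x ++ bs x.length j)), y ∈ jn S Sᶜ := by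
      intro y hy
      rw [List.mem_map] at hy
      obtain ⟨j, hj, rfl⟩ := hy
      rw [List.mem_range, length_chs] at hj
      have h2 := getD_chs {u | x ++ u ∈ S} hj
      cases hb : (chs x.length {u | x ++ u ∈ S}).getD j false with
      | true =>
        rw [true_mem_jn]
        exact h2.1 hb
      | false =>
        rw [false_mem_jn]
        intro hmem
        rw [h2.2 hmem] at hb
        simp at hb
    refine ⟨chs x.length {u | x ++ u ∈ S}, ?_, ⟨length_chs _ _, ?_⟩, h1⟩
    · rw [length_chs]
      apply Nat.pow_le_pow_right (by norm_num)
      simp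
    · exact (hkey _ (length_chs _ _) h1).2 hx

end Pool.Agent.J4H22.WA
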