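import Pool.Agent.J4H22.WA.Par

/-!
# Elimination of the advice for parities
-/

set_option autoImplicit false

namespace Pool.Agent.J4H22.WA

open Pool.Agent.NPC Pool.Agent.H620R2.Gauge Pool.Agent.H622R2.Exp Pool.Agent.H622R2 Finset Filter

variable {E : Set (Polynomial ℕ)} {A : Oracle}

/-! ### The machine which guesses and verifies the advice -/

/-- the questions -/
def qt (c C : ℕ) (p : List Bool × List Bool) : List (List Bool) :=
  if p.2.length = c * (p.1.length + 1) then
    (true :: pairBits p.1 p.2) :: (((List.range (2 * p.2.length)).filter fun t => wbit p.2 t).map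
      fun t => false :: (List.range (C * p.1.length + min t (2 * p.2.length))).map fun _ => true)
  else []

theorem poly_qt (c C : ℕ) : Poly (qt c C) := by
  have p1 : Poly (fun p : List Bool × List Bool => p.1) := Poly.fst Poly.id
  have p2 : Poly (fun p : List Bool × List Bool => p.2) := Poly.snd Poly.id
  have u2 : UPoly (fun p : List Bool × List Bool => 2 * p.2.length) :=
    UPoly.mul (UPoly.const 2) (UPoly.length p2)
  unfold qt
  refine Poly.ite (Poly.decide_eq (Poly.length p2) (UPoly.mul (UPoly.const c)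
    (UPoly.add (UPoly.length p1) (UPoly.const 1))).toPoly) ?_ (NPC.Poly.const [])
  refine Poly.cons (Poly.cons (NPC.Poly.const true) (poly_pairBits p1 p2)) ?_
  refine NPC.Poly.map (F := fun (p : List Bool × List Bool) t =>
    false :: (List.range (C * p.1.length + min t (2 * p.2.length))).map fun _ => true)
    (Poly.filter (p := fun (p : List Bool × List Bool) t => wbit p.2 t) (UPoly.range u2) ?_) ?_
  · exact poly_wbit (p2.comp (Poly.fst Poly.id)) (Poly.snd Poly.id)
  · have u3 : UPoly (fun x : (List Bool × List Bool) × ℕ => min x.2 (2 * x.1.2.length)) :=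
      UPoly.of_le (Poly.min (Poly.snd Poly.id) (u2.comp (Poly.fst Poly.id)).toPoly)
        (u2.comp (Poly.fst Poly.id)) (fun a => min_le_right _ _)
    have u4 : UPoly (fun x : (List Bool × List Bool) × ℕ =>
        C * x.1.1.length + min x.2 (2 * x.1.2.length)) :=
      UPoly.add (UPoly.mul (UPoly.const C) (UPoly.length (p1.comp (Poly.fst Poly.id)))) u3
    exact Poly.cons (NPC.Poly.const false) (NPC.Poly.map
      (F := fun (_ : (List Bool × List Bool) × ℕ) (_ : ℕ) => true) (UPoly.range u4)
      (NPC.Poly.const true))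

theorem length_qt (c C : ℕ) (v g y : List Bool) (hy : y ∈ qt c C (v, g)) :
    y.length ≤ (2 * c + 2 + C) * (v.length + 2) := by
  unfold qt at hy
  split_ifs at hy with h
  · simp only at h
    rcases List.mem_cons.1 hy with rfl | hy
    · rw [List.length_cons, Pool.Agent.H620R2.Gauge.length_pairBits]
      simp only
      rw [h]
      nlinarith
    · rw [List.mem_map] at hy
      obtain ⟨t, -, rfl⟩ := hy
      have h1 : min t (2 * g.length) ≤ 2 * g.length := min_le_right _ _
      rw [List.length_cons, List.length_map, List.length_range]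
      simp only
      rw [h] at h1
      rw [h]
      nlinarith
  · simp at hy

theorem adv_elim2 (hE : Good E) (hE2 : Good2 E) {L L' B : Set (List Bool)}
    (hL' : InNTime E A L') (hB : InNTime E A B) {c b C : ℕ}
    (hgood : ∀ᶠ i in atTop, ∃ w, goodW L' L c (2 ^ (b * i)) w ∧
      ∀ t < 2 * (c * (2 ^ (b * i) + 1)), ∀ u : List Bool, u.length = C * 2 ^ (b * i) + t →
        (u ∈ B ↔ wbit w t = true)) :
    ∃ S, InNTime E A S ∧ ∀ᶠ i in atTop, ∀ z : List Bool, z.length = 2 ^ (b * i) →
      (z ∈ S ↔ z ∈ L) := by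
  have hj := InNTime.join hE hL' hB
  have h1 := InNTime.guess hE hE2 hj (hE.lin c) (2 * c + 2 + C) (poly_qt c C)
    (Φ := fun p => decide (p.2.length = c * (p.1.length + 1)))
    (Poly.decide_eq (Poly.length (Poly.snd Poly.id)) (UPoly.mul (UPoly.const c)
      (UPoly.add (UPoly.length (Poly.fst Poly.id)) (UPoly.const 1))).toPoly)
    (length_qt c C)
  refine ⟨_, h1, ?_⟩
  filter_upwards [hgood] with i hi z hz
  obtain ⟨w, hw, hslice⟩ := hi
  have hlen : w.length = c * (z.length + 1) := by rw [hz]; exact hw.1
  constructor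
  · rintro ⟨g, -, hg, hq⟩
    rw [decide_eq_true_iff] at hg
    unfold qt at hq
    simp only [hg, if_true] at hq
    rw [← hg] at hq
    -- the guess is right
    have h2 : ∀ t < 2 * g.length, wbit g t = true → wbit w t = true := by
      intro t ht hgt
      have h3 := hq (false :: (List.range (C * z.length + min t (2 * g.length))).map
        fun _ => true)
        (List.mem_cons_of_mem _ (List.mem_map.2 ⟨t, List.mem_filter.2
          ⟨List.mem_range.2 ht, hgt⟩, rfl⟩))
      rw [false_mem_jn, min_eq_left (by omega)] at h3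
      refine (hslice t ?_ _ ?_).1 h3
      · rw [hg, hz] at ht
        exact ht
      · simp [hz]
    have hgw : g = w := by
      have hll : g.length = w.length := by rw [hg, hlen]
      apply List.ext_getElem hll
      intro j h3 h4
      have h5 := h2 j (by omega)
      have h6 := h2 (g.length + j) (by omega)
      unfold wbit at h5 h6
      rw [List.getD_eq_getElem _ _ (by simp; omega), List.getD_eq_getElem _ _ (by simp; omega),
        List.getElem_append_left h3, List.getElem_append_left h4] at h5
      rw [List.getD_eq_getElem _ _ (by simp; omega), List.getD_eq_getElem _ _ (by simp; omega),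
        List.getElem_append_right (by omega), List.getElem_append_right (by omega)] at h6
      simp only [List.getElem_map, Bool.not_eq_true', hll, Nat.add_sub_cancel_left] at h6
      cases hgj : g[j] <;> cases hwj : w[j] <;> simp_all
    have h7 := hq _ List.mem_cons_self
    rw [true_mem_jn, hgw] at h7
    exact (hw.2 z hz).1 h7
  · intro hzL
    refine ⟨w, ?_, ?_, ?_⟩
    · rw [hlen]
      have h2 : (Polynomial.C c * (Polynomial.X + 1) : Polynomial ℕ).eval z.length =
          c * (z.length + 1) := by simp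
      rw [h2]
      exact Nat.lt_two_pow_self.le
    · rw [decide_eq_true_iff]
      exact hlen
    · intro y hy
      unfold qt at hy
      rw [if_pos hlen] at hy
      rcases List.mem_cons.1 hy with rfl | hy
      · rw [true_mem_jn]
        exact (hw.2 z hz).2 hzL
      · rw [List.mem_map] at hy
        obtain ⟨t, ht, rfl⟩ := hy
        rw [List.mem_filter, List.mem_range] at ht
        have ht' : t < 2 * w.length := ht.1
        show false :: (List.range (C * z.length + min t (2 * w.length))).map (fun _ => true) ∈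
          jn L' B
        rw [false_mem_jn, min_eq_left ht'.le]
        refine (hslice t ?_ _ ?_).2 ht.2
        · rw [← hw.1]
          exact ht'
        · simp [hz]

/-! ### Two elementary bounds -/

theorem div_slice {C N c t : ℕ} (hC : C = 2 * c + 4) (hN : 1 ≤ N) (ht : t < 2 * (c * (N + 1))) :
    (C * N + t) / C = N + t / C ∧ t / C ≤ N := by
  have hC0 : 0 < C := by omega
  refine ⟨Nat.mul_add_div hC0 _ _, ?_⟩
  apply Nat.le_of_lt_succ
  rw [Nat.div_lt_iff_lt_mul hC0, hC]
  nlinarith

theorem NN_slice {b i c C t : ℕ} (hb : 2 ≤ b) (hC : C = 2 * c + 4)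
    (ht : t < 2 * (c * (2 ^ (b * i) + 1))) : NN b ((C * 2 ^ (b * i) + t) / C) = 2 ^ (b * i) := by
  obtain ⟨h1, h2⟩ := div_slice hC Nat.one_le_two_pow ht
  rw [h1]
  apply NN_eq
  have h3 : 2 ^ (b * (i + 1)) = 2 ^ b * 2 ^ (b * i) := by rw [← pow_add]; congr 1; ring
  have h4 : 2 ^ 2 ≤ 2 ^ b := Nat.pow_le_pow_right (by norm_num) hb
  have h5 : 0 < 2 ^ (b * i) := by positivity
  rw [h3]
  nlinarith

theorem count_slice {N c C t : ℕ} (hN : 1 ≤ N) (hC : C = 2 * c + 4) :
    2 * (2 ^ (N + c * (N + 1)) + 2 ^ N) + 1 ≤ 2 ^ (C * N + t) := by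
  have h1 : 2 ^ N ≤ 2 ^ (N + c * (N + 1)) := Nat.pow_le_pow_right (by norm_num) (by omega)
  have h2 : 0 < 2 ^ (N + c * (N + 1)) := by positivity
  have h3 : 2 ^ (N + c * (N + 1) + 3) = 8 * 2 ^ (N + c * (N + 1)) := by ring
  have h4 : 2 ^ (N + c * (N + 1) + 3) ≤ 2 ^ (C * N + t) := by
    apply Nat.pow_le_pow_right (by norm_num)
    rw [hC]
    nlinarith
  omega

/-! ### The two embeddings -/

/-- the length of the coded table -/
def n1 (κ : ℕ) (y : List Bool) : ℕ := y.length / (2 * κ + 2) - 1

theorem uPoly_n1 (κ : ℕ) : UPoly (n1 κ) := by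
  unfold n1
  exact UPoly.of_le (Poly.sub (Poly.div (Poly.length Poly.id) (NPC.Poly.const (2 * κ + 2)))
    (NPC.Poly.const 1)) (UPoly.length Poly.id)
    (fun a => (Nat.sub_le _ _).trans (Nat.div_le_self _ _))

/-- the language whose parities give the code of the complement -/
def embC (κ : ℕ) (L : Set (List Bool)) : Set (List Bool) :=
  emb L (fun y => 2 ^ n1 κ y) (fun p => bs (n1 κ p.1) p.2)
    (fun p => cd κ (n1 κ p.1) (p.2.map fun b => !b) p.1)

theorem InNTime.embC (hE : Good E) (hE2 : Good2 E) {L : Set (List Bool)} (hL : InNTime E A L)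
    (κ : ℕ) : InNTime E A (embC κ L) := by
  refine InNTime.emb hE hE2 hL (A4.poly_two_pow (uPoly_n1 κ)) ?_ ?_ 1 ?_
  · exact poly_bs ((uPoly_n1 κ).comp (Poly.fst Poly.id)) (Poly.snd Poly.id)
  · exact poly_cd κ ((uPoly_n1 κ).comp (Poly.fst Poly.id)) (NPC.Poly.map
      (F := fun (_ : List Bool × List Bool) b => !b) (Poly.snd Poly.id)
      (Poly.not (Poly.snd Poly.id))) (Poly.fst Poly.id)
  · intro y j
    simp only
    rw [length_bs]
    unfold n1
    have h1 := Nat.div_le_self y.length (2 * κ + 2)
    omega

theorem mem_par_embC {κ n : ℕ} {L : Set (List Bool)} {y : List Bool}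
    (hy : y.length = (2 * κ + 2) * (n + 1)) : y ∈ par (embC κ L) ↔ y ∈ codeK κ Lᶜ := by
  classical
  have h1 : n1 κ y = n := by
    unfold n1
    rw [hy, Nat.mul_div_cancel_left _ (by omega)]
    omega
  unfold embC
  rw [mem_par_emb, mem_codeK hy]
  · simp only
    rw [h1]
    have h2 : (ans L (fun y => 2 ^ n1 κ y) (fun p => bs (n1 κ p.1) p.2) y).map (fun b => !b) =
        tt Lᶜ n := by
      unfold ans tt
      rw [List.map_map]
      beta_reduce
      rw [h1]
      apply List.map_congr_left
      intro j _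
      simp [h1]
    rw [h2]
  · rw [h1, hy]
    have h2 : 2 ^ (2 * (n + 1)) ≤ 2 ^ ((2 * κ + 2) * (n + 1)) :=
      Nat.pow_le_pow_right (by norm_num) (Nat.mul_le_mul_right _ (by omega))
    have h3 : 2 ^ (2 * (n + 1)) = 4 * (2 ^ n * 2 ^ n) := by ring
    have h4 : 1 ≤ 2 ^ n := Nat.one_le_two_pow
    nlinarith

end Pool.Agent.J4H22.WA
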