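import Pool.Agent.J4H22.WA.ParAdv

/-!
# Prediction of parities and the complements of nondeterministic exponential time
-/

set_option autoImplicit false

namespace Pool.Agent.J4H22.WA

open Pool.Agent.NPC Pool.Agent.H620R2.Gauge Pool.Agent.H622R2.Exp Pool.Agent.H622R2 Finset Filter

variable {E : Set (Polynomial ℕ)} {A : Oracle}

/-! ### The choice of the advice -/

/-- the length of the strings for which the advice is good -/
def n2 (b C : ℕ) (y : List Bool) : ℕ := NN b (y.length / C)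

theorem uPoly_n2 (b C : ℕ) : UPoly (n2 b C) := by
  unfold n2
  exact uPoly_NN b (UPoly.of_le (Poly.div (Poly.length Poly.id) (NPC.Poly.const C))
    (UPoly.length Poly.id) (fun a => Nat.div_le_self _ _))

theorem n2_le (b C : ℕ) (y : List Bool) : n2 b C y ≤ y.length + 1 := by
  unfold n2
  exact (NN_le b _).trans (Nat.add_le_add_right (Nat.div_le_self _ _) 1)

/-- question number `j` -/
def q2 (c N j : ℕ) : List Bool :=
  if j < 2 ^ (N + c * (N + 1)) then
    true :: pairBits (bs N (j % 2 ^ N)) (bs (c * (N + 1)) (j / 2 ^ N))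
  else false :: bs N (j - 2 ^ (N + c * (N + 1)))

theorem length_q2 (c N j : ℕ) : (q2 c N j).length ≤ (c + 2) * (N + 1) := by
  unfold q2
  split_ifs
  · rw [List.length_cons, Pool.Agent.H620R2.Gauge.length_pairBits, length_bs, length_bs]
    nlinarith
  · rw [List.length_cons, length_bs]
    nlinarith

/-- the test of the advice number `W` -/
def tst (c N : ℕ) (F : List Bool) (W : ℕ) : Bool :=
  decide (W < 2 ^ (c * (N + 1))) && (List.range F.length).all fun z =>
    !(decide (z < 2 ^ N)) ||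
      (F.getD (z + 2 ^ N * W) false ^^ F.getD (2 ^ (N + c * (N + 1)) + z) false)

/-- the chosen advice -/
def chw (c N : ℕ) (F : List Bool) : List Bool :=
  bs (c * (N + 1)) (((List.range F.length).filter fun W => tst c N F W).getD 0 0)

section
variable {α : Type} [TEnc α]

theorem poly_q2 (c : ℕ) {N j : α → ℕ} (hN : UPoly N) (hj : Poly j) :
    Poly (fun a => q2 c (N a) (j a)) := by
  have u1 : UPoly (fun a => c * (N a + 1)) :=
    UPoly.mul (UPoly.const c) (UPoly.add hN (UPoly.const 1))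
  have p1 : Poly (fun a => 2 ^ (N a + c * (N a + 1))) := A4.poly_two_pow (UPoly.add hN u1)
  have p2 : Poly (fun a => 2 ^ N a) := A4.poly_two_pow hN
  unfold q2
  exact Poly.ite (Poly.decide_lt hj p1) (Poly.cons (NPC.Poly.const true) (poly_pairBits
    (poly_bs hN (Poly.mod hj p2)) (poly_bs u1 (Poly.div hj p2))))
    (Poly.cons (NPC.Poly.const false) (poly_bs hN (Poly.sub hj p1)))

theorem poly_tst (c : ℕ) {N W : α → ℕ} {F : α → List Bool} (hN : UPoly N) (hF : Poly F)
    (hW : Poly W) : Poly (fun a => tst c (N a) (F a) (W a)) := by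
  have u1 : UPoly (fun a => c * (N a + 1)) :=
    UPoly.mul (UPoly.const c) (UPoly.add hN (UPoly.const 1))
  have p1 : Poly (fun a => 2 ^ (N a + c * (N a + 1))) := A4.poly_two_pow (UPoly.add hN u1)
  have p2 : Poly (fun a => 2 ^ N a) := A4.poly_two_pow hN
  have q1 : Poly (fun x : α × ℕ => x.1) := Poly.fst Poly.id
  have q2 : Poly (fun x : α × ℕ => x.2) := Poly.snd Poly.id
  unfold tst
  refine Poly.and (Poly.decide_lt hW (A4.poly_two_pow u1)) (Poly.all
    (p := fun a z => !(decide (z < 2 ^ N a)) ||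
      ((F a).getD (z + 2 ^ N a * W a) false ^^ (F a).getD (2 ^ (N a + c * (N a + 1)) + z) false))
    (UPoly.range (UPoly.length hF)) ?_)
  exact Poly.or (Poly.not (Poly.decide_lt q2 (p2.comp q1))) (Poly.xor
    (Poly.getD (hF.comp q1) (Poly.add q2 (Poly.mul (p2.comp q1) (hW.comp q1)))
      (NPC.Poly.const false))
    (Poly.getD (hF.comp q1) (Poly.add (p1.comp q1) q2) (NPC.Poly.const false)))

theorem poly_chw (c : ℕ) {N : α → ℕ} {F : α → List Bool} (hN : UPoly N) (hF : Poly F) :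
    Poly (fun a => chw c (N a) (F a)) := by
  have u1 : UPoly (fun a => c * (N a + 1)) :=
    UPoly.mul (UPoly.const c) (UPoly.add hN (UPoly.const 1))
  have q1 : Poly (fun x : α × ℕ => x.1) := Poly.fst Poly.id
  unfold chw
  refine poly_bs u1 (Poly.getD (Poly.filter (p := fun a W => tst c (N a) (F a) W)
    (UPoly.range (UPoly.length hF)) ?_) (NPC.Poly.const 0) (NPC.Poly.const 0))
  exact poly_tst c (hN.comp q1) (hF.comp q1) (Poly.snd Poly.id)

end

theorem tst_iff {c N : ℕ} {D L : Set (List Bool)} {F : List Bool}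
    (hF : F.length = 2 ^ (N + c * (N + 1)) + 2 ^ N)
    (hFa : ∀ j < F.length, (F.getD j false = true ↔ q2 c N j ∈ jn D L)) {W : ℕ} :
    tst c N F W = true ↔ W < 2 ^ (c * (N + 1)) ∧ goodW D Lᶜ c N (bs (c * (N + 1)) W) := by
  unfold tst
  rw [Bool.and_eq_true, decide_eq_true_iff]
  refine and_congr_right fun hW => ?_
  have h1 : ∀ z < 2 ^ N, z + 2 ^ N * W < 2 ^ (N + c * (N + 1)) := by
    intro z hz
    rw [pow_add]
    have h2 : 2 ^ N * (W + 1) ≤ 2 ^ N * 2 ^ (c * (N + 1)) := Nat.mul_le_mul_left _ hW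
    nlinarith
  have h2 : ∀ z < 2 ^ N, (F.getD (z + 2 ^ N * W) false = true ↔
      pairBits (bs N z) (bs (c * (N + 1)) W) ∈ D) := by
    intro z hz
    have h3 := h1 z hz
    rw [hFa _ (by rw [hF]; omega)]
    unfold q2
    rw [if_pos h3, true_mem_jn, Nat.add_mul_mod_self_left, Nat.mod_eq_of_lt hz,
      Nat.add_mul_div_left _ _ (by positivity), Nat.div_eq_of_lt hz, Nat.zero_add]
  have h3 : ∀ z < 2 ^ N, (F.getD (2 ^ (N + c * (N + 1)) + z) false = true ↔ bs N z ∈ L) := by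
    intro z hz
    rw [hFa _ (by rw [hF]; omega)]
    unfold q2
    rw [if_neg (by omega), false_mem_jn, Nat.add_sub_cancel_left]
  rw [List.all_eq_true]
  have h4 : ∀ z < 2 ^ N, ((F.getD (z + 2 ^ N * W) false ^^
      F.getD (2 ^ (N + c * (N + 1)) + z) false) = true ↔
      (pairBits (bs N z) (bs (c * (N + 1)) W) ∈ D ↔ bs N z ∈ Lᶜ)) := by
    intro z hz
    rw [← h2 z hz, Set.mem_compl_iff, ← h3 z hz]
    cases F.getD (z + 2 ^ N * W) false <;>
      cases F.getD (2 ^ (N + c * (N + 1)) + z) false <;> simp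
  constructor
  · intro h
    refine ⟨length_bs _ _, fun z hz => ?_⟩
    have h5 : valB z < 2 ^ N := hz ▸ valB_lt z
    have h6 := h (valB z) (List.mem_range.2 (by
      rw [hF]
      exact h5.trans_le (Nat.le_add_left _ _)))
    rw [Bool.or_eq_true, Bool.not_eq_true', decide_eq_false_iff_not] at h6
    rcases h6 with h6 | h6
    · exact absurd h5 h6
    · have h7 := (h4 _ h5).1 h6
      rwa [bs_valB hz] at h7
  · intro h z _
    rw [Bool.or_eq_true, Bool.not_eq_true', decide_eq_false_iff_not]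
    by_cases hz : z < 2 ^ N
    · right
      exact (h4 z hz).2 (h.2 _ (length_bs _ _))
    · left
      exact hz

theorem goodW_chw {c N : ℕ} {D L : Set (List Bool)} {F : List Bool}
    (hF : F.length = 2 ^ (N + c * (N + 1)) + 2 ^ N)
    (hFa : ∀ j < F.length, (F.getD j false = true ↔ q2 c N j ∈ jn D L))
    (h : ∃ w, goodW D Lᶜ c N w) : goodW D Lᶜ c N (chw c N F) := by
  obtain ⟨w, hw⟩ := h
  have h1 : valB w < 2 ^ (c * (N + 1)) := hw.1 ▸ valB_lt w
  have h2 : tst c N F (valB w) = true := by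
    rw [tst_iff hF hFa]
    refine ⟨h1, ?_⟩
    rw [bs_valB hw.1]
    exact hw
  have h3 : valB w < F.length := by
    rw [hF]
    have h3 : 2 ^ (c * (N + 1)) ≤ 2 ^ (N + c * (N + 1)) :=
      Nat.pow_le_pow_right (by norm_num) (by omega)
    exact (h1.trans_le h3).trans_le (Nat.le_add_right _ _)
  have h4 : valB w ∈ (List.range F.length).filter fun W => tst c N F W :=
    List.mem_filter.2 ⟨List.mem_range.2 h3, h2⟩
  have h5 : ((List.range F.length).filter fun W => tst c N F W).getD 0 0 ∈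
      (List.range F.length).filter fun W => tst c N F W := by
    rw [List.getD_eq_getElem _ _ (List.length_pos_of_mem h4)]
    exact List.getElem_mem _
  have h6 := (List.mem_filter.1 h5).2
  rw [tst_iff hF hFa] at h6
  exact h6.2

/-- the language whose parities give the bits of the advice -/
def embB (b c C : ℕ) (D L : Set (List Bool)) : Set (List Bool) :=
  emb (jn D L) (fun y => 2 ^ (n2 b C y + c * (n2 b C y + 1)) + 2 ^ n2 b C y)
    (fun p => q2 c (n2 b C p.1) p.2)
    (fun p => wbit (chw c (n2 b C p.1) p.2) (p.1.length - C * n2 b C p.1))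

theorem InNTime.embB (hE : Good E) (hE2 : Good2 E) {D L : Set (List Bool)} (hD : InNTime E A D)
    (hL : InNTime E A L) (b c C : ℕ) : InNTime E A (embB b c C D L) := by
  have u2 : UPoly (n2 b C) := uPoly_n2 b C
  have u3 : UPoly (fun y => n2 b C y + c * (n2 b C y + 1)) :=
    UPoly.add u2 (UPoly.mul (UPoly.const c) (UPoly.add u2 (UPoly.const 1)))
  refine InNTime.emb hE hE2 (InNTime.join hE hD hL)
    (Poly.add (A4.poly_two_pow u3) (A4.poly_two_pow u2)) ?_ ?_ (c + 2) ?_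
  · exact poly_q2 c (u2.comp (Poly.fst Poly.id)) (Poly.snd Poly.id)
  · exact poly_wbit (poly_chw c (u2.comp (Poly.fst Poly.id)) (Poly.snd Poly.id))
      (Poly.sub (Poly.length (Poly.fst Poly.id)) (Poly.mul (NPC.Poly.const C)
        (u2.toPoly.comp (Poly.fst Poly.id))))
  · intro y j
    refine (length_q2 _ _ _).trans (Nat.mul_le_mul_left _ ?_)
    have := n2_le b C y
    simp only
    omega

theorem par_bits {b c C i : ℕ} (hb : 2 ≤ b) (hC : C = 2 * c + 4) {D L : Set (List Bool)}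
    (h : ∃ w, goodW D Lᶜ c (2 ^ (b * i)) w) :
    ∃ w, goodW D Lᶜ c (2 ^ (b * i)) w ∧ ∀ t < 2 * (c * (2 ^ (b * i) + 1)), ∀ y : List Bool,
      y.length = C * 2 ^ (b * i) + t → (y ∈ par (embB b c C D L) ↔ wbit w t = true) := by
  classical
  obtain ⟨F, hFd⟩ : ∃ F : List Bool, F = (List.range (2 ^ (2 ^ (b * i) + c * (2 ^ (b * i) + 1)) +
    2 ^ 2 ^ (b * i))).map fun j => decide (q2 c (2 ^ (b * i)) j ∈ jn D L) := ⟨_, rfl⟩
  have hFl : F.length = 2 ^ (2 ^ (b * i) + c * (2 ^ (b * i) + 1)) + 2 ^ 2 ^ (b * i) := by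
    rw [hFd, List.length_map, List.length_range]
  have hFa : ∀ j < F.length, (F.getD j false = true ↔ q2 c (2 ^ (b * i)) j ∈ jn D L) := by
    intro j hj
    have hj' := hj
    rw [hFl] at hj'
    rw [hFd, List.getD_eq_getElem _ _ (by rw [← hFd]; exact hj)]
    simp
  refine ⟨chw c (2 ^ (b * i)) F, goodW_chw hFl hFa h, fun t ht y hy => ?_⟩
  have h1 : n2 b C y = 2 ^ (b * i) := by
    unfold n2
    rw [hy]
    exact NN_slice hb hC ht
  unfold embB
  rw [mem_par_emb]
  · have h2 : ans (jn D L) (fun y => 2 ^ (n2 b C y + c * (n2 b C y + 1)) + 2 ^ n2 b C y)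
        (fun p => q2 c (n2 b C p.1) p.2) y = F := by
      unfold ans
      beta_reduce
      rw [hFd, h1]
      apply List.map_congr_left
      intro j _
      simp only [h1]
    rw [h2]
    beta_reduce
    rw [h1, hy, Nat.add_sub_cancel_left]
  · beta_reduce
    rw [h1, hy]
    exact count_slice Nat.one_le_two_pow hC

/-! ### The main theorem -/

theorem InNTime.padL (hE : Good E) (hE2 : Good2 E) {L : Set (List Bool)} (hL : InNTime E A L) :
    InNTime E A (padL L) := by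
  have p1 : Poly (fun p : List Bool × List Bool => p.1) := Poly.fst Poly.id
  have h := InNTime.guess hE hE2 hL (hE.lin 0) 1 (Y := fun p => [strip p.1])
    (Poly.cons (poly_strip.comp p1) (NPC.Poly.const []))
    (Φ := fun p => decide (¬ valB p.1 = 0))
    (Poly.decide_not (Poly.decide_eq (Poly.valBits p1) (NPC.Poly.const 0))) (by
      intro v g' y hy
      rw [List.mem_singleton] at hy
      rw [hy]
      exact (length_strip_le v).trans (by omega))
  refine (congrArg (InNTime E A) (Set.ext fun v => ?_)).mp h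
  unfold WA.padL
  simp only [Set.mem_ofPred_eq, List.mem_singleton, forall_eq]
  constructor
  · rintro ⟨_, _, h1, h2⟩
    exact ⟨h1, h2⟩
  · rintro ⟨h1, h2⟩
    exact ⟨[], by simp, h1, h2⟩

theorem good_of_adv {γ : ℝ} {κ h b : ℕ} (hh : 3 * κ + 7 ≤ 2 * h) (hhc : h ≤ 2 * κ + 2)
    (hhγ : (h : ℝ) ≤ (1 - γ) * (2 * κ + 2)) (hb0 : 0 < b) {S K L : Set (List Bool)}
    (hSn : ∀ᶠ n : ℕ in atTop, (1 / 2 + (2 : ℝ) ^ (-(γ * n))) * 2 ^ n ≤ agr S K n)
    (hK : ∀ n, agr S K ((2 * κ + 2) * (n + 1)) = agr S (codeK κ L) ((2 * κ + 2) * (n + 1))) :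
    ∀ᶠ i : ℕ in atTop, ∃ w, goodW (decA κ S) L (3 * (6 * κ + 8)) (2 ^ (b * i)) w := by
  obtain ⟨n₀, hn₀⟩ := eventually_atTop.1 hSn
  filter_upwards [eventually_ge_atTop n₀] with i hi
  refine exists_good hh hhc ?_
  have h1 : i < 2 ^ i := Nat.lt_two_pow_self
  have h2 : 2 ^ i ≤ 2 ^ (b * i) :=
    Nat.pow_le_pow_right (by norm_num) (Nat.le_mul_of_pos_left i hb0)
  have hni : i ≤ 2 ^ (b * i) := h1.le.trans h2
  clear h1 h2
  generalize 2 ^ (b * i) = n at hni ⊢
  have hKn := hK n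
  obtain ⟨m, hm⟩ : ∃ m : ℕ, m = (2 * κ + 2) * (n + 1) := ⟨_, rfl⟩
  rw [← hm] at hKn ⊢
  have h3 := hn₀ m (by rw [hm]; nlinarith)
  rw [hKn] at h3
  have h4 : (2 : ℝ) ^ (-(γ * m)) * 2 ^ m = 2 ^ ((1 - γ) * m) := by
    rw [← Real.rpow_natCast 2 m, ← Real.rpow_add (by norm_num)]
    congr 1
    ring
  have h5 : (2 : ℝ) ^ (h * (n + 1)) ≤ 2 ^ ((1 - γ) * m) := by
    rw [← Real.rpow_natCast 2 (h * (n + 1))]
    apply Real.rpow_le_rpow_of_exponent_le (by norm_num)
    have h6 : (m : ℝ) = (2 * κ + 2) * ((n : ℝ) + 1) := by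
      rw [hm]
      push_cast
      ring
    rw [h6]
    push_cast
    have h7 : (0 : ℝ) ≤ (n : ℝ) + 1 := by positivity
    calc (h : ℝ) * ((n : ℝ) + 1) ≤ ((1 - γ) * (2 * κ + 2)) * ((n : ℝ) + 1) :=
          mul_le_mul_of_nonneg_right hhγ h7
      _ = _ := by ring
  have h6 : (2 : ℝ) ^ m + 2 ^ (h * (n + 1)) ≤ 2 * agr S (codeK κ L) m := by
    have h7 : (0 : ℝ) ≤ 2 ^ (h * (n + 1)) := by positivity
    have h8 : (1 / 2 + (2 : ℝ) ^ (-(γ * m))) * 2 ^ m =
        2 ^ m / 2 + (2 : ℝ) ^ (-(γ * m)) * 2 ^ m := by ring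
    rw [h8, h4] at h3
    linarith
  exact_mod_cast h6

theorem agr_congr {S K K' : Set (List Bool)} {n : ℕ}
    (h : ∀ y : List Bool, y.length = n → (y ∈ K ↔ y ∈ K')) : agr S K n = agr S K' n := by
  unfold agr
  congr 1
  ext y
  exact and_congr_right fun hy => by rw [h y hy]

theorem of_parity (hE : Good E) (hE2 : Good2 E) {γ : ℝ} (hγ : γ < 1 / 4)
    (H : ∀ S, InNTime E A S → ∃ T, InNTime E A T ∧
      ∀ᶠ n : ℕ in atTop, (1 / 2 + (2 : ℝ) ^ (-(γ * n))) * 2 ^ n ≤ agr T (par S) n)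
    {L : Set (List Bool)} (hL : InNTime E A L) : InNTime E A Lᶜ := by
  obtain ⟨κ, h, hh, hhc, hhγ⟩ := exists_params hγ
  have hL1 := InNTime.padL hE hE2 hL
  obtain ⟨T, hT, hTn⟩ := H _ (InNTime.embC hE hE2 hL1 κ)
  have hdec := InNTime.decA hE hE2 hT κ
  obtain ⟨b, hb2⟩ : ∃ b : ℕ, 2 ≤ b := ⟨2, le_rfl⟩
  have hb0 : 0 < b := by omega
  have hgood := good_of_adv (b := b) (L := (WA.padL L)ᶜ) hh hhc hhγ hb0 hTn
    (fun n => agr_congr fun y hy => mem_par_embC hy)
  obtain ⟨c, hc⟩ : ∃ c : ℕ, c = 3 * (6 * κ + 8) := ⟨_, rfl⟩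
  rw [← hc] at hgood
  obtain ⟨C, hC⟩ : ∃ C : ℕ, C = 2 * c + 4 := ⟨_, rfl⟩
  obtain ⟨T2, hT2, hT2n⟩ := H _ (InNTime.embB hE hE2 hdec hL1 b c C)
  have hB := InNTime.maj hE hE2 hT2
  obtain ⟨S', hS', hS'n⟩ := adv_elim2 hE hE2 (L := (WA.padL L)ᶜ) (c := c) (b := b) (C := C)
    hdec hB (by
      obtain ⟨n₀, hn₀⟩ := eventually_atTop.1 hT2n
      filter_upwards [hgood, eventually_ge_atTop n₀] with i hi hin
      obtain ⟨w, hw, hbits⟩ := par_bits hb2 hC hi
      refine ⟨w, hw, fun t ht u hu => ?_⟩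
      have hNi : n₀ ≤ 2 ^ (b * i) := by
        have h2 : i < 2 ^ i := Nat.lt_two_pow_self
        have h3 : 2 ^ i ≤ 2 ^ (b * i) := Nat.pow_le_pow_right (by norm_num) (by nlinarith)
        omega
      have h2 : 2 ^ u.length < 2 * agr T2 (par (embB b c C (decA κ T) (WA.padL L))) u.length := by
        have h3 := hn₀ u.length (by
          rw [hu]
          have : 1 * 2 ^ (b * i) ≤ C * 2 ^ (b * i) := Nat.mul_le_mul_right _ (by omega)
          omega)
        have h4 : (0 : ℝ) < (2 : ℝ) ^ (-(γ * u.length)) * 2 ^ u.length := by positivity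
        have h5 : (2 : ℝ) ^ u.length <
            2 * agr T2 (par (embB b c C (decA κ T) (WA.padL L))) u.length := by linarith
        exact_mod_cast h5
      have h3 := hbits t ht
      cases hwb : wbit w t with
      | true =>
        simp only [iff_true]
        exact maj_of_full (fun y hy => (h3 y (hy.trans hu)).2 hwb) h2 u rfl
      | false =>
        simp only [Bool.false_eq_true, iff_false]
        refine not_maj_of_empty (fun y hy hyK => ?_) h2 u rfl
        rw [(h3 y (hy.trans hu)).1 hyK] at hwb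
        simp at hwb)
  obtain ⟨i₀, hi₀⟩ := eventually_atTop.1 hS'n
  -- the padding
  have hfin := InNTime.precomp hE hE2 hS' (poly_pd b) (2 ^ (b + 1)) (fun v => by
    rw [length_pd hb0]
    exact (pl_le b _).trans (Nat.mul_le_mul_left _ (by omega)))
  refine InNTime.patch hfin (2 ^ (b * i₀)) fun x hx => ?_
  rw [Set.mem_ofPred_eq, Set.mem_compl_iff, ← pd_mem_padL (b := b) (L := L) (x := x),
    ← Set.mem_compl_iff]
  refine hi₀ (x.length.size / b + 1) ?_ _ (length_pd hb0 x)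
  have h1 : b * i₀ < x.length.size := Nat.lt_size.2 hx
  have h2 : i₀ ≤ x.length.size / b := (Nat.le_div_iff_mul_le hb0).2 (by rw [mul_comm]; omega)
  omega

theorem parity_iff (hE : Good E) (hE2 : Good2 E) {γ : ℝ} (hγ0 : 0 < γ) (hγ : γ < 1 / 4) :
    (∀ L, InNTime E A L → InNTime E A Lᶜ) ↔
      ∀ S, InNTime E A S → ∃ T, InNTime E A T ∧
        ∀ᶠ n : ℕ in atTop, (1 / 2 + (2 : ℝ) ^ (-(γ * n))) * 2 ^ n ≤ agr T (par S) n := by
  refine ⟨fun H S hS => ⟨par S, InNTime.par hE hE2 hS (H S hS), ?_⟩,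
    fun H L hL => of_parity hE hE2 hγ H hL⟩
  obtain ⟨n₀, hn₀⟩ := exists_nat_ge (1 / γ)
  filter_upwards [eventually_ge_atTop n₀] with n hn
  rw [agr_self]
  have h1 : 1 ≤ γ * n := by
    have h2 : 1 / γ ≤ n := hn₀.trans (by exact_mod_cast hn)
    rw [div_le_iff₀ hγ0] at h2
    linarith
  have h2 : (2 : ℝ) ^ (-(γ * n)) ≤ 1 / 2 := by
    calc (2 : ℝ) ^ (-(γ * n)) ≤ 2 ^ (-1 : ℝ) :=
          Real.rpow_le_rpow_of_exponent_le (by norm_num) (by linarith)
      _ = 1 / 2 := by
        rw [Real.rpow_neg_one]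
        norm_num
  have h3 : (0 : ℝ) < 2 ^ n := by positivity
  push_cast
  nlinarith

end Pool.Agent.J4H22.WA
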